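import Pool.Agent.H68K.PR.StmQ
import Pool.Agent.H10PR.Eul

/-!
# Project PR, phase 2 (helper93): CHN, convergence of the exact chain

The differences `chain (b + 2) i k - chain b i k` are at most `2 ^ b / 2 ^ i`: as functions of `b`
they evolve by a killed chain, for which `2 ^ b` is an eigenfunction with eigenvalue `1 / 2`.
-/

set_option autoImplicit false
set_option linter.all false

open scoped Classical

namespace Pool.Agent.H93PR

open Pool.Agent.H68K.PR

theorem chain_zero (a k : ℕ) : chain a 0 k = if k = a then 1 else 0 := rfl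

theorem chain_succ (a i k : ℕ) : chain a (i + 1) k = (1 - (2 : ℝ)⁻¹ ^ (k + 1)) * chain a i (k + 1) +
      if k = 0 then 0 else (2 : ℝ)⁻¹ ^ (k - 1) * chain a i (k - 1) := rfl

/-- Decomposition by the first step. -/
theorem chain_first (i : ℕ) : ∀ b k : ℕ, chain b (i + 1) k =
    (2 : ℝ)⁻¹ ^ b * chain (b + 1) i k + (1 - (2 : ℝ)⁻¹ ^ b) * chain (b - 1) i k := by
  induction i with
  | zero =>
    intro b k
    rw [chain_succ]
    simp only [chain_zero]
    by_cases h1 : k + 1 = b
    · subst h1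
      have e2 : ¬ k - 1 = k + 1 := by omega
      have e3 : ¬ k = k + 1 + 1 := by omega
      have e4 : k = k + 1 - 1 := by omega
      rw [if_pos rfl, if_neg e2, if_neg e3, if_pos e4]
      simp
    · by_cases h2 : k = b + 1
      · subst h2
        have e2 : b + 1 - 1 = b := by omega
        have e3 : ¬ b + 1 = b - 1 := by omega
        rw [if_neg h1, if_neg (by omega : ¬ b + 1 = 0), if_pos e2, if_pos rfl, if_neg e3, e2]
        ring
      · rw [if_neg h1, if_neg h2]
        by_cases h3 : k = b - 1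
        · have hb : b = 0 := by omega
          subst hb
          have hk : k = 0 := by omega
          subst hk
          simp
        · rw [if_neg h3]
          by_cases hk : k = 0
          · rw [if_pos hk]
            ring
          · rw [if_neg hk, if_neg (by omega : ¬ k - 1 = b)]
            ring
  | succ i ih =>
    intro b k
    rw [chain_succ b (i + 1) k, ih b (k + 1), chain_succ (b + 1) i k, chain_succ (b - 1) i k]
    by_cases hk : k = 0
    · subst hk
      simp only [if_true]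
      ring
    · simp only [if_neg hk]
      rw [ih b (k - 1)]
      ring

theorem diff_le (i : ℕ) : ∀ b k : ℕ, |chain (b + 2) i k - chain b i k| ≤ (2 : ℝ) ^ b / 2 ^ i := by
  induction i with
  | zero =>
    intro b k
    simp only [chain_zero, pow_zero, div_one]
    have h1 : (1 : ℝ) ≤ 2 ^ b := one_le_pow₀ (by norm_num)
    split_ifs <;> norm_num <;> linarith
  | succ i ih =>
    intro b k
    rw [chain_first i (b + 2) k, chain_first i b k]
    rcases b with _ | b
    · simp only [pow_zero, zero_add]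
      have e : (2 : ℝ)⁻¹ ^ 2 * chain (2 + 1) i k + (1 - (2 : ℝ)⁻¹ ^ 2) * chain (2 - 1) i k -
          (1 * chain 1 i k + (1 - 1) * chain (0 - 1) i k) = (chain (1 + 2) i k - chain 1 i k) / 4 := by
        norm_num
        ring
      rw [e, abs_div]
      have h := ih 1 k
      rw [show |(4 : ℝ)| = 4 by norm_num, pow_succ]
      rw [pow_one] at h
      have h2 : (0 : ℝ) < 2 ^ i := by positivity
      rw [div_le_div_iff₀ (by norm_num) (by positivity)]
      rw [le_div_iff₀ h2] at h
      nlinarith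
    · have h1 := ih b k
      have h2 := ih (b + 2) k
      have hx : (0 : ℝ) < (2 : ℝ)⁻¹ ^ b := by positivity
      have hx1 : (2 : ℝ)⁻¹ ^ b ≤ 1 := pow_le_one₀ (by norm_num) (by norm_num)
      have e : (2 : ℝ)⁻¹ ^ (b + 1 + 2) * chain (b + 1 + 2 + 1) i k +
          (1 - (2 : ℝ)⁻¹ ^ (b + 1 + 2)) * chain (b + 1 + 2 - 1) i k -
          ((2 : ℝ)⁻¹ ^ (b + 1) * chain (b + 1 + 1) i k +
            (1 - (2 : ℝ)⁻¹ ^ (b + 1)) * chain (b + 1 - 1) i k) =
          (1 - (2 : ℝ)⁻¹ ^ b / 2) * (chain (b + 2) i k - chain b i k) +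
          ((2 : ℝ)⁻¹ ^ b / 8) * (chain (b + 2 + 2) i k - chain (b + 2) i k) := by
        rw [show b + 1 + 2 + 1 = b + 2 + 2 by ring, show b + 1 + 2 - 1 = b + 2 by omega,
          show b + 1 + 1 = b + 2 by ring, show b + 1 - 1 = b by omega]
        ring
      rw [e]
      refine (abs_add_le _ _).trans ?_
      rw [abs_mul, abs_mul, abs_of_nonneg (by linarith : (0 : ℝ) ≤ 1 - (2 : ℝ)⁻¹ ^ b / 2),
        abs_of_nonneg (by linarith : (0 : ℝ) ≤ (2 : ℝ)⁻¹ ^ b / 8)]
      have h3 : (1 - (2 : ℝ)⁻¹ ^ b / 2) * |chain (b + 2) i k - chain b i k| ≤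
          (1 - (2 : ℝ)⁻¹ ^ b / 2) * ((2 : ℝ) ^ b / 2 ^ i) :=
        mul_le_mul_of_nonneg_left h1 (by linarith)
      have h4 : ((2 : ℝ)⁻¹ ^ b / 8) * |chain (b + 2 + 2) i k - chain (b + 2) i k| ≤
          ((2 : ℝ)⁻¹ ^ b / 8) * ((2 : ℝ) ^ (b + 2) / 2 ^ i) :=
        mul_le_mul_of_nonneg_left h2 (by linarith)
      refine (add_le_add h3 h4).trans (le_of_eq ?_)
      have h5 : (2 : ℝ)⁻¹ ^ b * 2 ^ b = 1 := by rw [← mul_pow]; norm_num
      have h6 : (0 : ℝ) < 2 ^ i := by positivity
      rw [pow_succ, pow_succ (2 : ℝ) i, pow_add]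
      field_simp
      nlinarith [h5]

theorem diff_le' (i b k j : ℕ) :
    |chain (b + 2 * j) i k - chain b i k| ≤ (2 : ℝ) ^ (b + 2 * j) / 2 ^ i := by
  induction j with
  | zero => simp; positivity
  | succ j ih =>
    have h := diff_le i (b + 2 * j) k
    have e : b + 2 * (j + 1) = b + 2 * j + 2 := by ring
    rw [e]
    have h1 := abs_sub_le (chain (b + 2 * j + 2) i k) (chain (b + 2 * j) i k) (chain b i k)
    refine h1.trans ((add_le_add h ih).trans ?_)
    rw [← add_div]
    refine div_le_div_of_nonneg_right ?_ (by positivity)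
    rw [pow_succ, pow_succ]
    have : (0 : ℝ) < 2 ^ (b + 2 * j) := by positivity
    linarith

theorem diff_par (i a b k : ℕ) (h : Even (a + b)) :
    |chain a i k - chain b i k| ≤ (2 : ℝ) ^ a / 2 ^ i + (2 : ℝ) ^ b / 2 ^ i := by
  obtain ⟨r, hr⟩ := h
  have h1 : (0 : ℝ) ≤ (2 : ℝ) ^ a / 2 ^ i := by positivity
  have h2 : (0 : ℝ) ≤ (2 : ℝ) ^ b / 2 ^ i := by positivity
  rcases le_total a b with hab | hab
  · have e : b = a + 2 * (r - a) := by omega
    have := diff_le' i a k (r - a)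
    rw [← e] at this
    rw [abs_sub_comm]
    linarith
  · have e : a = b + 2 * (r - b) := by omega
    have := diff_le' i b k (r - b)
    rw [← e] at this
    linarith

/-! ### The stationary law -/

theorem pr2_succ (k : ℕ) : pr2 (k + 1) = pr2 k * (2 / ((2 : ℝ) ^ (k + 1) - 1)) := by
  unfold pr2
  rw [Finset.prod_range_succ]
  ring

theorem pow_sub_pos (k : ℕ) : (0 : ℝ) < (2 : ℝ) ^ (k + 1) - 1 := by
  have : (1 : ℝ) < 2 ^ (k + 1) := one_lt_pow₀ (by norm_num) (by omega)
  linarith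

/-- Detailed balance. -/
theorem balance (k : ℕ) : (1 - (2 : ℝ)⁻¹ ^ (k + 1)) * pr2 (k + 1) = (2 : ℝ)⁻¹ ^ k * pr2 k := by
  have h := pow_sub_pos k
  have h2 : (2 : ℝ)⁻¹ ^ (k + 1) = 1 / 2 ^ (k + 1) := by rw [inv_pow, one_div]
  have h3 : (2 : ℝ)⁻¹ ^ k = 2 / 2 ^ (k + 1) := by
    rw [inv_pow, pow_succ]
    field_simp
  have h4 : (0 : ℝ) < 2 ^ (k + 1) := by positivity
  rw [pr2_succ, h2, h3]
  field_simp

/-- Stationarity. -/
theorem stat (k : ℕ) : (1 - (2 : ℝ)⁻¹ ^ (k + 1)) * pr2 (k + 1) +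
    (if k = 0 then 0 else (2 : ℝ)⁻¹ ^ (k - 1) * pr2 (k - 1)) = pr2 k := by
  rcases k with _ | k
  · rw [balance]
    simp
  · rw [if_neg (by omega), show k + 1 - 1 = k by omega]
    have h1 := balance (k + 1)
    have h2 := balance k
    linarith

theorem stat_par (t k : ℕ) : (1 - (2 : ℝ)⁻¹ ^ (k + 1)) * pr2par t (k + 1) +
    (if k = 0 then 0 else (2 : ℝ)⁻¹ ^ (k - 1) * pr2par t (k - 1)) = pr2par (t + 1) k := by
  unfold pr2par
  by_cases h : Even (t + 1 + k)
  · have h1 : Even (t + (k + 1)) := by rwa [show t + (k + 1) = t + 1 + k by ring]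
    rw [if_pos h, if_pos h1]
    have h2 := stat k
    by_cases hk : k = 0
    · rw [if_pos hk] at h2 ⊢
      linarith
    · have h3 : Even (t + (k - 1)) := by
        obtain ⟨r, hr⟩ := h
        exact ⟨r - 1, by omega⟩
      rw [if_neg hk] at h2 ⊢
      rw [if_pos h3]
      linarith
  · have h1 : ¬ Even (t + (k + 1)) := by rwa [show t + (k + 1) = t + 1 + k by ring]
    rw [if_neg h, if_neg h1]
    by_cases hk : k = 0
    · rw [if_pos hk]
      ring
    · have h3 : ¬ Even (t + (k - 1)) := by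
        rintro ⟨r, hr⟩
        exact h ⟨r + 1, by omega⟩
      rw [if_neg hk, if_neg h3]
      ring

theorem alt_sum (n : ℕ) : ∑ k ∈ Finset.range (n + 1), (-1 : ℝ) ^ k * pr2 k =
    (-1) ^ n * ((2 : ℝ)⁻¹ ^ n * pr2 n) := by
  induction n with
  | zero => simp
  | succ n ih =>
    rw [Finset.sum_range_succ, ih, ← balance]
    ring

theorem pr2_summable_two : Summable fun k => pr2 k * (2 : ℝ) ^ k := by
  have hpos := Pool.Agent.H10PR.eul.1
  refine summable_of_ratio_norm_eventually_le (r := 1 / 2) (by norm_num) ?_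
  filter_upwards [Filter.eventually_ge_atTop 3] with k hk
  rw [Real.norm_of_nonneg (mul_nonneg (hpos _).le (by positivity)),
    Real.norm_of_nonneg (mul_nonneg (hpos _).le (by positivity)), pr2_succ]
  have h1 := pow_sub_pos k
  have h2 : (16 : ℝ) ≤ 2 ^ (k + 1) := by
    calc (16 : ℝ) = 2 ^ 4 := by norm_num
      _ ≤ 2 ^ (k + 1) := pow_le_pow_right₀ (by norm_num) (by omega)
  have h3 : 2 / ((2 : ℝ) ^ (k + 1) - 1) ≤ 1 / 4 := by
    rw [div_le_div_iff₀ h1 (by norm_num)]
    linarith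
  have h4 : 0 ≤ pr2 k * 2 ^ k := mul_nonneg (hpos _).le (by positivity)
  calc pr2 k * (2 / ((2 : ℝ) ^ (k + 1) - 1)) * 2 ^ (k + 1) =
      2 * (pr2 k * 2 ^ k) * (2 / ((2 : ℝ) ^ (k + 1) - 1)) := by ring
    _ ≤ 2 * (pr2 k * 2 ^ k) * (1 / 4) := mul_le_mul_of_nonneg_left h3 (by linarith)
    _ = 1 / 2 * (pr2 k * 2 ^ k) := by ring

theorem alt_hasSum : HasSum (fun k => (-1 : ℝ) ^ k * pr2 k) 0 := by
  obtain ⟨hpos, hsum, -⟩ := Pool.Agent.H10PR.eul
  have hs : Summable (fun k => (-1 : ℝ) ^ k * pr2 k) := by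
    refine Summable.of_norm_bounded hsum.summable fun k => ?_
    rw [norm_mul, norm_pow, norm_neg, norm_one, one_pow, one_mul, Real.norm_of_nonneg (hpos k).le]
  have h1 := hs.hasSum.tendsto_sum_nat
  have h2 := (Filter.tendsto_add_atTop_iff_nat 1).2 h1
  have h3 : Filter.Tendsto (fun n => ∑ k ∈ Finset.range (n + 1), (-1 : ℝ) ^ k * pr2 k) Filter.atTop
      (nhds 0) := by
    rw [tendsto_zero_iff_norm_tendsto_zero]
    refine squeeze_zero (fun n => norm_nonneg _) (fun n => ?_) hsum.summable.tendsto_atTop_zero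
    rw [alt_sum, norm_mul, norm_pow, norm_neg, norm_one, one_pow, one_mul, norm_mul,
      Real.norm_of_nonneg (hpos n).le, Real.norm_of_nonneg (by positivity)]
    exact mul_le_of_le_one_left (hpos n).le (pow_le_one₀ (by norm_num) (by norm_num))
  have h4 := tendsto_nhds_unique h2 h3
  rw [← h4]
  exact hs.hasSum

theorem pr2par_eq (t k : ℕ) : pr2par t k = pr2 k + (-1) ^ t * ((-1) ^ k * pr2 k) := by
  unfold pr2par
  split_ifs with h
  · have : (-1 : ℝ) ^ (t + k) = 1 := h.neg_one_pow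
    rw [pow_add] at this
    rw [← mul_assoc, this]
    ring
  · have : (-1 : ℝ) ^ (t + k) = -1 := (Nat.not_even_iff_odd.1 h).neg_one_pow
    rw [pow_add] at this
    rw [← mul_assoc, this]
    ring

theorem par_hasSum (t : ℕ) : HasSum (pr2par t) 1 := by
  have h := Pool.Agent.H10PR.eul.2.1.add (alt_hasSum.mul_left ((-1 : ℝ) ^ t))
  rw [mul_zero, add_zero] at h
  exact h.congr_fun (fun k => pr2par_eq t k) 

theorem par_nonneg (t k : ℕ) : 0 ≤ pr2par t k := by
  unfold pr2par
  have := Pool.Agent.H10PR.eul.1 k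
  split_ifs <;> linarith

theorem par_summable_two (t : ℕ) : Summable fun k => pr2par t k * (2 : ℝ) ^ k := by
  refine Summable.of_nonneg_of_le (fun k => mul_nonneg (par_nonneg t k) (by positivity)) (fun k => ?_)
    (pr2_summable_two.mul_left 2)
  have h1 := Pool.Agent.H10PR.eul.1 k
  have h2 : (0 : ℝ) < 2 ^ k := by positivity
  have h3 : pr2par t k ≤ 2 * pr2 k := by
    unfold pr2par
    split_ifs <;> linarith
  calc pr2par t k * 2 ^ k ≤ (2 * pr2 k) * 2 ^ k := mul_le_mul_of_nonneg_right h3 h2.le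
    _ = 2 * (pr2 k * 2 ^ k) := by ring

/-- The stationary law is an average of chains. -/
theorem avg_chain (t i : ℕ) : ∀ k : ℕ, HasSum (fun b => pr2par t b * chain b i k) (pr2par (t + i) k) := by
  induction i with
  | zero =>
    intro k
    have h := hasSum_single (f := fun b => pr2par t b * chain b 0 k) k (fun b hb => by
      simp only [chain_zero]
      rw [if_neg (fun h => hb h.symm), mul_zero])
    simpa [chain_zero] using h
  | succ i ih =>
    intro k
    have h1 := (ih (k + 1)).mul_left (1 - (2 : ℝ)⁻¹ ^ (k + 1))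
    have h2 := (ih (k - 1)).mul_left (if k = 0 then 0 else (2 : ℝ)⁻¹ ^ (k - 1))
    have h3 := h1.add h2
    have e : (1 - (2 : ℝ)⁻¹ ^ (k + 1)) * pr2par (t + i) (k + 1) +
        (if k = 0 then 0 else (2 : ℝ)⁻¹ ^ (k - 1)) * pr2par (t + i) (k - 1) = pr2par (t + (i + 1)) k := by
      rw [← add_assoc, ← stat_par]
      split_ifs <;> ring
    rw [e] at h3
    refine h3.congr_fun (fun b => ?_)
    rw [chain_succ]
    split_ifs <;> ring

theorem chn_rate (a i k : ℕ) : |chain a i k - pr2par (a + i) k| ≤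
    ((2 : ℝ) ^ a + ∑' b, pr2par a b * (2 : ℝ) ^ b) / 2 ^ i := by
  have h1 : HasSum (fun b => pr2par a b * (chain a i k - chain b i k))
      (chain a i k - pr2par (a + i) k) := by
    have h := ((par_hasSum a).mul_right (chain a i k)).sub (avg_chain a i k)
    rw [one_mul] at h
    exact h.congr_fun fun b => by ring
  have h2 : HasSum (fun b => pr2par a b * ((2 : ℝ) ^ a / 2 ^ i) + (pr2par a b * (2 : ℝ) ^ b) / 2 ^ i)
      (((2 : ℝ) ^ a + ∑' b, pr2par a b * (2 : ℝ) ^ b) / 2 ^ i) := by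
    have h := ((par_hasSum a).mul_right ((2 : ℝ) ^ a / 2 ^ i)).add
      ((par_summable_two a).hasSum.div_const ((2 : ℝ) ^ i))
    rw [one_mul, ← add_div] at h
    exact h
  have hb : ∀ b, |pr2par a b * (chain a i k - chain b i k)| ≤
      pr2par a b * ((2 : ℝ) ^ a / 2 ^ i) + (pr2par a b * (2 : ℝ) ^ b) / 2 ^ i := by
    intro b
    by_cases h : Even (a + b)
    · rw [abs_mul, abs_of_nonneg (par_nonneg a b)]
      calc pr2par a b * |chain a i k - chain b i k| ≤
          pr2par a b * ((2 : ℝ) ^ a / 2 ^ i + (2 : ℝ) ^ b / 2 ^ i) :=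
            mul_le_mul_of_nonneg_left (diff_par i a b k h) (par_nonneg a b)
        _ = _ := by ring
    · have : pr2par a b = 0 := by
        unfold pr2par
        rw [if_neg h]
      rw [this]
      simp
  have h3 : HasSum (fun b => |pr2par a b * (chain a i k - chain b i k)|)
      (∑' b, |pr2par a b * (chain a i k - chain b i k)|) :=
    (Summable.of_nonneg_of_le (fun b => abs_nonneg _) hb h2.summable).hasSum
  rw [← h1.tsum_eq]
  have h4 := norm_tsum_le_tsum_norm (f := fun b => pr2par a b * (chain a i k - chain b i k)) h3.summable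
  exact h4.trans (hasSum_le hb h3 h2)

/-- **CHN**. -/
theorem chn : S_CHN := by
  intro a ε hε
  have h : Filter.Tendsto (fun i : ℕ => ((2 : ℝ) ^ a + ∑' b, pr2par a b * (2 : ℝ) ^ b) / 2 ^ i)
      Filter.atTop (nhds 0) := by
    have h1 := tendsto_pow_atTop_nhds_zero_of_lt_one (r := (1 / 2 : ℝ)) (by norm_num) (by norm_num)
    have h2 := h1.const_mul ((2 : ℝ) ^ a + ∑' b, pr2par a b * (2 : ℝ) ^ b)
    rw [mul_zero] at h2
    refine h2.congr fun i => ?_
    rw [div_pow, one_pow, mul_one_div]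
  obtain ⟨i₀, hi₀⟩ := Filter.eventually_atTop.1 (h.eventually (ge_mem_nhds hε))
  exact ⟨i₀, fun i hi k => (chn_rate a i k).trans (hi₀ i hi)⟩

end Pool.Agent.H93PR
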