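import Pool.Agent.H93PR.Count3a

/-!
# Project PR, phase 2, part COUNT3: the law in balanced boxes
-/

set_option autoImplicit false
set_option linter.all false

open Polynomial IsDedekindDomain NumberField
open scoped Classical

namespace Pool.Agent.H93PR

open Pool.Agent.N783.PF
open Pool.Agent.H68K.PR
open Pool.Agent.N352.PJ (dd)
open Pool.Agent.N874.PP (Ev Sq1 U0)

/-- Few bad polynomials of a given kind. -/
lemma few {F : Type} [Field F] [NumberField F] {n C β' K : ℕ}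
    (hbt : ∀ (c W : ℕ) (S Z U : Finset ℕ) (𝔮 : ℕ → Ideal (𝓞 F)) (h P : ℕ → (𝓞 F)[X]), K ≤ W →
      GoodS 1 W S 𝔮 h P → Z ⊆ S → U ⊆ S → Disjoint Z U → ∃ N₀ : ℕ, ∀ N ≥ N₀,
      {f : (𝓞 F)[X] | LBadT N c S Z U 𝔮 P f}.Finite ∧
      2 ^ (Z.card + U.card) * (∏ q ∈ S, q ^ 2) ^ n *
          {f : (𝓞 F)[X] | LBadT N c S Z U 𝔮 P f}.ncard ≤
        2 ^ (C + β' * c) * 2 ^ (n * (2 * N * 5)))
    {W : ℕ} {S : Finset ℕ} {𝔮 : ℕ → Ideal (𝓞 F)} {h P : ℕ → (𝓞 F)[X]} (hKW : K ≤ W)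
    (hS : GoodS 1 W S 𝔮 h P) {Q Z U : Finset ℕ} (hQ : Q ⊆ S) (hZ : Z ⊆ S \ Q) (hU : U ⊆ S \ Q)
    (hZU : Disjoint Z U) {l : ℕ} (hl : Q.card ≤ l) (hP : ∏ q ∈ Q, q ≤ 2 ^ l) (c' : ℕ) :
    ∃ B₀ : ℕ, ∀ B ≥ B₀, 1 ≤ B → ∃ N : ℕ, 2 ^ c' * B ≤ 4 ^ N ∧
      {f : (𝓞 F)[X] | LBadT N c' (S \ Q) Z U 𝔮 P f}.Finite ∧
      2 ^ (Z.card + U.card + Q.card) * (∏ q ∈ S, q ^ 2) ^ n *
          {f : (𝓞 F)[X] | LBadT N c' (S \ Q) Z U 𝔮 P f}.ncard ≤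
        2 ^ (C + β' * c' + l + 2 * l * n + (2 + c') * (5 * n)) * B ^ (5 * n) := by
  obtain ⟨N₀, hN₀⟩ := hbt c' W (S \ Q) Z U 𝔮 h P hKW
    (fun q hq => hS q (Finset.mem_sdiff.1 hq).1) hZ hU hZU
  refine ⟨4 ^ N₀, fun B hB hB1 => ?_⟩
  obtain ⟨N, hN1, hN2⟩ := exN c' B hB1
  obtain ⟨h1, h2⟩ := hN₀ N (exN_ge hN1 hB)
  refine ⟨N, hN1, h1, ?_⟩
  have h3 := bq_bound (t := Z.card + U.card + Q.card) (s := Z.card + U.card) (u := Q.card) (l := l)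
    (P2 := ∏ q ∈ Q, q ^ 2) (c' := c') (B := B) rfl hl (by
      rw [Finset.prod_pow, mul_comm 2 l, pow_mul]
      exact Nat.pow_le_pow_left hP 2) h2 hN2
  rwa [Finset.prod_sdiff hQ] at h3

/-- The index set of the bad sets. -/
noncomputable def TT (S : Finset ℕ) (m : ℕ) (η : ℝ) : Finset (Finset ℕ × Finset ℕ) :=
  (((S.powerset.filter fun Q => Q.card ≤ m) ×ˢ
    (S.powerset.filter fun U => η / 2 * S.card ≤ |(U.card : ℝ) - (S.card : ℝ) / 2|)).filter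
      fun x => x.2 ⊆ S \ x.1)

lemma TT_card (hBin : S_BIN) (S : Finset ℕ) (m : ℕ) {η : ℝ} (hη : 0 < η) :
    ((TT S m η).card : ℝ) ≤ (2 : ℝ) ^ (m * (Nat.log 2 S.card + 1)) *
      (2 * 2 ^ S.card * Real.exp (-(η ^ 2 / 2 * S.card))) := by
  have h1 : (TT S m η).card ≤ (S.powerset.filter fun Q => Q.card ≤ m).card *
      (S.powerset.filter fun U => η / 2 * S.card ≤ |(U.card : ℝ) - (S.card : ℝ) / 2|).card := by
    rw [← Finset.card_product]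
    exact Finset.card_filter_le _ _
  have h2 : (S.powerset.filter fun Q => Q.card ≤ m).card ≤ 2 ^ (m * (Nat.log 2 S.card + 1)) := by
    refine (card_small S m).trans ?_
    rw [mul_comm, pow_mul]
    exact Nat.pow_le_pow_left (Nat.lt_pow_succ_log_self (by norm_num) _) m
  have h3 := hBin S (η / 2) (by positivity)
  have e : (-2 * (η / 2) ^ 2 * S.card : ℝ) = -(η ^ 2 / 2 * S.card) := by ring
  rw [e] at h3
  calc ((TT S m η).card : ℝ) ≤ ((S.powerset.filter fun Q => Q.card ≤ m).card : ℝ) *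
      ((S.powerset.filter fun U => η / 2 * S.card ≤ |(U.card : ℝ) - (S.card : ℝ) / 2|).card : ℝ) := by
        exact_mod_cast h1
    _ ≤ (2 : ℝ) ^ (m * (Nat.log 2 S.card + 1)) *
      (2 * 2 ^ S.card * Real.exp (-(η ^ 2 / 2 * S.card))) := by
        refine mul_le_mul ?_ h3 (by positivity) (by positivity)
        exact_mod_cast h2

/-- The union of the bad sets. -/
lemma union3 {α ι : Type} (T : Finset ι) (X : ι → Set α) (A E t : ℝ) (hA : 0 ≤ A)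
    (hX : ∀ i ∈ T, A * ((X i).ncard : ℝ) ≤ E) (hE : 0 ≤ E) (ht : (T.card : ℝ) ≤ t) :
    A * ((⋃ i ∈ T, X i).ncard : ℝ) ≤ t * E := by
  have h1 : ((⋃ i ∈ T, X i).ncard : ℝ) ≤ ∑ i ∈ T, ((X i).ncard : ℝ) := by
    exact_mod_cast Finset.set_ncard_biUnion_le T X
  calc A * ((⋃ i ∈ T, X i).ncard : ℝ) ≤ A * ∑ i ∈ T, ((X i).ncard : ℝ) :=
        mul_le_mul_of_nonneg_left h1 hA
    _ = ∑ i ∈ T, A * ((X i).ncard : ℝ) := by rw [Finset.mul_sum]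
    _ ≤ ∑ i ∈ T, E := Finset.sum_le_sum hX
    _ = T.card * E := by rw [Finset.sum_const, nsmul_eq_mul]
    _ ≤ t * E := mul_le_mul_of_nonneg_right ht hE

/-- A member for which the law fails is in one of the bad sets. -/
lemma bad_of {F : Type} [Field F] [NumberField F] {κ β : ℕ}
    (hlb : ∀ (L : Type) [Field L] [NumberField L] [Algebra F L] (f : (𝓞 F)[X]) (θ : L) (B N W l : ℕ)
      (S Q Z U : Finset ℕ) (𝔮 : ℕ → Ideal (𝓞 F)) (h P : ℕ → (𝓞 F)[X]), κ ≤ W →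
      GoodS 1 W S 𝔮 h P →
      IsGen 1 f θ → SqF 1 f → Ht 1 B f → 2 ^ (κ + β * l) * B ≤ 4 ^ N →
      (∀ q ∈ S, Cg (sp F q) f (P q)) → Q ⊆ S → Z ⊆ S \ Q → U ⊆ S \ Q → ∏ q ∈ Q, q ≤ 2 ^ l →
      ∀ α : L, α ≠ 0 → IsSquare (Algebra.norm F α) → ¬ IsSquare α →
      (∀ 𝔓 : HeightOneSpectrum (𝓞 L), (∀ q ∈ Q, Ov (𝔮 q) 𝔓 → 𝔓.valuation L θ ≠ 1) → Ev 𝔓 α) →
      (∀ q ∈ Z, ∀ 𝔓 : HeightOneSpectrum (𝓞 L), Ov (𝔮 q) 𝔓 → Sq1 𝔓 α) →
      (∀ q ∈ U, ∃ 𝔓 : HeightOneSpectrum (𝓞 L), Ov (𝔮 q) 𝔓 ∧ ¬ Sq1 𝔓 α) →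
      LBadT N (κ + β * l) (S \ Q) Z U 𝔮 P f)
    (hCore : S_CORE3) (hgen : S_GEN) (hirr : S_IRR)
    {ε η : ℝ} {D₁ m n₀ : ℕ} (hη : 0 < η)
    (hlaw : ∀ (ι : Type) [Fintype ι] (Λ : AddSubgroup (ι → ZMod 2 × ZMod 2)), n₀ ≤ Fintype.card ι →
      (∀ l ∈ Λ, ∑ q, (l q).1 * (l q).2 = 0) → 2 ^ Fintype.card ι ≤ Nat.card Λ →
      Nat.card (LJ Λ ∅) ≤ 2 ^ D₁ →
      (∀ J : Finset ι, J.card < m → ∀ l ∈ LJ Λ J, l ≠ 0 →
        |((Finset.univ.filter fun q => l q ≠ 0).card : ℝ) - (Fintype.card ι : ℝ) / 2| ≤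
          η * Fintype.card ι) →
      ∀ k : ℕ, |(∑ i ∈ Finset.range m,
        ((Finset.univ.filter fun J : Finset ι => J.card = i ∧ Nat.card (LJ Λ J) = 2 ^ k).card : ℝ) /
          ((Fintype.card ι).choose i : ℝ)) / m - pr2 k| ≤ ε)
    {B W l : ℕ} {f₁ : (𝓞 F)[X]} {S Z₀ : Finset ℕ} {𝔮 : ℕ → Ideal (𝓞 F)} {h P : ℕ → (𝓞 F)[X]}
    (hκW : κ ≤ W) (hf₁ : GoodF 1 W f₁) (hS : GoodS 1 W S 𝔮 h P) (hZ₀ : Z₀ ⊆ S)
    (hZc : Z₀.card = D₁) (hn : n₀ ≤ S.card) (hbig : 2 * m / η ≤ S.card)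
    (hprod : ∀ Q ⊆ S, Q.card ≤ m → ∏ q ∈ Q, q ≤ 2 ^ l)
    {N₁ : ℕ} (hN₁ : 2 ^ (κ + β * 0) * B ≤ 4 ^ N₁)
    {N₂ : Finset ℕ × Finset ℕ → ℕ} (hN₂ : ∀ x ∈ TT S m η, 2 ^ (κ + β * l) * B ≤ 4 ^ N₂ x)
    {f : (𝓞 F)[X]} (hf : Mem B W f₁ S P f) (hb : ¬ LawP S m ε (f.coeff 1, f.coeff 0)) :
    LBadT N₁ (κ + β * 0) (S \ ∅) Z₀ ∅ 𝔮 P f ∨ ∃ x ∈ TT S m η,
      LBadT (N₂ x) (κ + β * l) (S \ x.1) ((S \ x.1) \ x.2) x.2 𝔮 P f := by
  have hcub := (ht_iff.1 hf.ht).1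
  have hirr0 : Irreducible (fF f) := hirr F 1 W f₁ f hf₁ hf.one hf.ht.mon hf.ht.deg
  obtain ⟨L, _, _, _, θ, hθ⟩ := hgen F 1 f hf.ht.mon hf.ht.deg hirr0
  by_contra hcon
  push Not at hcon
  obtain ⟨hc1, hc2⟩ := hcon
  obtain ⟨Λ, hiso, hcard, hGd, hcl⟩ := hCore W F L f f₁ θ S 𝔮 h P hθ hf.sqf hcub.tr hf₁ hS
    hf.one hf.con (by
      intro α hα hαn hαe hαz
      by_contra hαs
      refine hc1 (hlb L f θ B N₁ W 0 S ∅ Z₀ ∅ 𝔮 h P hκW hS hθ hf.sqf hf.ht hN₁ hf.con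
        (Finset.empty_subset _) (by rwa [Finset.sdiff_empty]) (Finset.empty_subset _) (by simp)
        α hα hαn hαs ?_ ?_ ?_)
      · intro 𝔓 _
        exact hαe 𝔓
      · intro q hq 𝔓 h𝔓
        exact hαz q (hZ₀ hq) 𝔓 h𝔓
      · intro q hq
        exact absurd hq (Finset.notMem_empty _))
  apply hb
  refine lawp_of Λ hGd (hlaw S Λ (by rwa [Fintype.card_coe]) (fun l hl => by
    have := hiso l hl
    exact this) (by rwa [Fintype.card_coe]) ?_ ?_)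
  · by_contra hlt
    push Not at hlt
    rw [← hZc] at hlt
    obtain ⟨v₀, hl1, hl2, hl3⟩ := pigeon Λ hZ₀ hlt
    obtain ⟨α, hα, hαn, hαs, hαe, hαz, -⟩ := hcl ∅ v₀ hl1 hl2
    refine hc1 (hlb L f θ B N₁ W 0 S ∅ Z₀ ∅ 𝔮 h P hκW hS hθ hf.sqf hf.ht hN₁ hf.con
      (Finset.empty_subset _) (by rwa [Finset.sdiff_empty]) (Finset.empty_subset _) (by simp)
      α hα hαn hαs ?_ ?_ ?_)
    · intro 𝔓 _
      exact hαe 𝔓 (fun q hq => absurd hq (Finset.notMem_empty _))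
    · intro q hq 𝔓 h𝔓
      exact hαz ⟨q, hZ₀ hq⟩ (hl3 ⟨q, hZ₀ hq⟩ hq) 𝔓 h𝔓
    · intro q hq
      exact absurd hq (Finset.notMem_empty _)
  · intro J hJ v₀ hl1 hl2
    by_contra hlt
    push Not at hlt
    rw [Fintype.card_coe] at hlt
    obtain ⟨α, hα, hαn, hαs, hαe, hαz, hαu⟩ := hcl J v₀ hl1 hl2
    obtain ⟨Q, hQ⟩ : ∃ Q : Finset ℕ, Q = (J.filter fun q => v₀ q ≠ 0).map
      (Function.Embedding.subtype _) := ⟨_, rfl⟩
    obtain ⟨U, hU⟩ : ∃ U : Finset ℕ, U = (Finset.univ.filter fun q => q ∉ J ∧ v₀ q ≠ 0).map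
      (Function.Embedding.subtype _) := ⟨_, rfl⟩
    have hQm : ∀ q : S, (q : ℕ) ∈ Q ↔ q ∈ J ∧ v₀ q ≠ 0 := by
      intro q
      rw [hQ, Finset.mem_map]
      constructor
      · rintro ⟨x, hx, hxq⟩
        have : x = q := Subtype.ext hxq
        subst this
        simpa using hx
      · rintro ⟨h1, h2⟩
        exact ⟨q, by simp [h1, h2], rfl⟩
    have hUm : ∀ q : S, (q : ℕ) ∈ U ↔ q ∉ J ∧ v₀ q ≠ 0 := by
      intro q
      rw [hU, Finset.mem_map]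
      constructor
      · rintro ⟨x, hx, hxq⟩
        have : x = q := Subtype.ext hxq
        subst this
        simpa using hx
      · rintro ⟨h1, h2⟩
        exact ⟨q, by simp [h1, h2], rfl⟩
    have hQS : Q ⊆ S := by
      rw [hQ]
      intro x hx
      rw [Finset.mem_map] at hx
      obtain ⟨y, -, rfl⟩ := hx
      exact y.2
    have hUS : U ⊆ S := by
      rw [hU]
      intro x hx
      rw [Finset.mem_map] at hx
      obtain ⟨y, -, rfl⟩ := hx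
      exact y.2
    have hUSQ : U ⊆ S \ Q := by
      intro q hq
      rw [Finset.mem_sdiff]
      refine ⟨hUS hq, fun hq' => ?_⟩
      exact ((hUm ⟨q, hUS hq⟩).1 hq).1 ((hQm ⟨q, hUS hq⟩).1 hq').1
    have hQc : Q.card < m := by
      rw [hQ, Finset.card_map]
      exact (Finset.card_filter_le _ _).trans_lt hJ
    have hsup : (Finset.univ.filter fun q => v₀ q ≠ 0).card = Q.card + U.card := by
      rw [hQ, hU, Finset.card_map, Finset.card_map, ← Finset.card_union_of_disjoint]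
      · congr 1
        ext q
        simp only [Finset.mem_filter, Finset.mem_univ, true_and, Finset.mem_union]
        tauto
      · rw [Finset.disjoint_left]
        intro q hq hq'
        simp only [Finset.mem_filter, Finset.mem_univ, true_and] at hq hq'
        exact hq'.1 hq.1
    rw [hsup] at hlt
    have hx : (Q, U) ∈ TT S m η := by
      rw [TT, Finset.mem_filter, Finset.mem_product, Finset.mem_filter, Finset.mem_filter,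
        Finset.mem_powerset, Finset.mem_powerset]
      refine ⟨⟨⟨hQS, hQc.le⟩, hUS, ?_⟩, hUSQ⟩
      simp only
      have h1 : (Q.card : ℝ) ≤ m := by exact_mod_cast hQc.le
      have h2 : 2 * (m : ℝ) ≤ η * S.card := by
        rw [div_le_iff₀ hη] at hbig
        linarith
      have h3 : |((Q.card + U.card : ℕ) : ℝ) - (S.card : ℝ) / 2| ≤
          (Q.card : ℝ) + |(U.card : ℝ) - (S.card : ℝ) / 2| := by
        push_cast
        calc |(Q.card : ℝ) + U.card - (S.card : ℝ) / 2| =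
            |(Q.card : ℝ) + (U.card - (S.card : ℝ) / 2)| := by ring_nf
          _ ≤ |(Q.card : ℝ)| + |(U.card : ℝ) - (S.card : ℝ) / 2| := abs_add_le _ _
          _ = (Q.card : ℝ) + |(U.card : ℝ) - (S.card : ℝ) / 2| := by
              rw [abs_of_nonneg (Nat.cast_nonneg _)]
      have h4 := hlt.trans_le h3
      linarith
    refine hc2 (Q, U) hx (hlb L f θ B (N₂ (Q, U)) W l S Q ((S \ Q) \ U) U 𝔮 h P hκW hS hθ
      hf.sqf hf.ht (hN₂ _ hx) hf.con hQS Finset.sdiff_subset hUSQ (hprod Q hQS hQc.le)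
      α hα hαn hαs ?_ ?_ ?_)
    · intro 𝔓 h𝔓
      refine hαe 𝔓 fun q hq hq0 => h𝔓 q ((hQm q).2 ⟨hq, hq0⟩)
    · intro q hq 𝔓 h𝔓
      rw [Finset.mem_sdiff, Finset.mem_sdiff] at hq
      refine hαz ⟨q, hq.1.1⟩ ?_ 𝔓 h𝔓
      by_contra h0
      by_cases hqJ : (⟨q, hq.1.1⟩ : S) ∈ J
      · exact hq.1.2 ((hQm ⟨q, hq.1.1⟩).2 ⟨hqJ, h0⟩)
      · exact hq.2 ((hUm ⟨q, hq.1.1⟩).2 ⟨hqJ, h0⟩)
    · intro q hq
      have h1 := (hUm ⟨q, hUS hq⟩).1 hq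
      exact hαu ⟨q, hUS hq⟩ h1.1 h1.2

/-- COUNT3 -/
theorem bal3 (hLaw : S_LAW) (hBin : S_BIN) (hCore : S_CORE3) (hL : S_LBT) (hBT : S_BADT)
    (hfam : S_FAMU) (hscl : S_SCLS) (hX : S_EXG) (hbad : S_BAD) (hsqf : S_SQF) (hirr : S_IRR)
    (hgen : S_GEN) (hpts : S_PTS) (hdsc : S_DSC) : S_BAL3 := by
  intro F _ _ ε δ hε hδ
  obtain ⟨n, hn⟩ : ∃ n : ℕ, n = Module.finrank ℚ F := ⟨_, rfl⟩
  have hdd : dd 1 = 5 := rfl
  obtain ⟨κ, β, hlb⟩ := hL F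
  obtain ⟨C, β', K, hbt⟩ := hBT F
  obtain ⟨κ₂, hsq⟩ := hsqf 1 F le_rfl
  obtain ⟨C₂, K₂, hbd⟩ := hbad F 1 κ₂ le_rfl
  obtain ⟨W, f₁, hKW, c, hc, hfamc⟩ := hfam F (max (max κ K) (max κ₂ K₂))
  have hW1 : κ ≤ W := ((le_max_left _ _).trans (le_max_left _ _)).trans hKW
  have hW2 : K ≤ W := ((le_max_right _ _).trans (le_max_left _ _)).trans hKW
  have hW3 : κ₂ ≤ W := ((le_max_left _ _).trans (le_max_right _ _)).trans hKW
  have hW4 : K₂ ≤ W := ((le_max_right _ _).trans (le_max_right _ _)).trans hKW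
  obtain ⟨A₀, hA₀⟩ : ∃ A₀ : ℕ, A₀ = C + β' * κ + (2 + κ) * (5 * n) := ⟨_, rfl⟩
  obtain ⟨D₁, hD₁⟩ : ∃ D₁ : ℕ, 2 ^ A₀ / (δ * c / 4) < (2 : ℝ) ^ D₁ :=
    pow_unbounded_of_one_lt _ (by norm_num)
  obtain ⟨m, η, n₀, hm, hη, hmn, hlaw⟩ := hLaw ε hε D₁
  obtain ⟨s₁, hks₁, hs₁⟩ := num3 (1 + A₀) (m + 3 * m * (β' * β + 1 + 2 * n + 5 * n * β))
    (max n₀ D₁) (ρ := η ^ 2 / 2) (τ := δ * c / 4) (by positivity) (by positivity)
  obtain ⟨s₂, hs₂⟩ := exists_nat_ge (2 * m / η)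
  obtain ⟨s₃, hs₃⟩ : ∃ s₃ : ℕ, 2 ^ (C₂ + (2 + κ₂) * (5 * n)) / (c / 2) < (2 : ℝ) ^ s₃ :=
    pow_unbounded_of_one_lt _ (by norm_num)
  obtain ⟨S, 𝔮, h, P, hS, hcard, hS3⟩ := hX F W (max s₁ (max s₂ s₃))
  have hc1 : s₁ ≤ S.card := (le_max_left _ _).trans hcard
  have hc2 : s₂ ≤ S.card := ((le_max_left _ _).trans (le_max_right _ _)).trans hcard
  have hc3 : s₃ ≤ S.card := ((le_max_right _ _).trans (le_max_right _ _)).trans hcard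
  have hn0 : n₀ ≤ S.card := ((le_max_left _ _).trans hks₁).trans hc1
  have hD0 : D₁ ≤ S.card := ((le_max_right _ _).trans hks₁).trans hc1
  have hbig : 2 * m / η ≤ (S.card : ℝ) := hs₂.trans (by exact_mod_cast hc2)
  have hnum := hs₁ S.card hc1
  have hq1 : ∀ q ∈ S, 1 ≤ q := fun q hq => (hS q hq).1.pos
  have hSp : ∀ q ∈ S, q.Prime := fun q hq => (hS q hq).1
  obtain ⟨Z₀, hZ₀, hZc⟩ := Finset.exists_subset_card_eq hD0
  obtain ⟨l, hl⟩ : ∃ l : ℕ, l = 3 * m * (Nat.log 2 S.card + 1) := ⟨_, rfl⟩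
  have hml : m ≤ l := by
    rw [hl, mul_assoc, mul_left_comm]
    exact Nat.le_mul_of_pos_right _ (by positivity)
  have hprod : ∀ Q ⊆ S, Q.card ≤ m → ∏ q ∈ Q, q ≤ 2 ^ l := by
    intro Q hQS hQm
    rw [hl]
    exact prod_small hQS hS3 hQm hq1
  have hf₁u : ∀ u : (𝓞 F)ˣ, GoodF 1 W (scl u f₁) := fun u => (hfamc u).1
  have hscl1 : scl (1 : (𝓞 F)ˣ) f₁ = f₁ := by
    ext j
    rw [scl, coeff_scaleRoots]
    simp
  have hf₁ : GoodF 1 W f₁ := by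
    have := hf₁u 1
    rwa [hscl1] at this
  have hcub1 : Cub f₁ := ⟨hf₁.mon, hf₁.deg, hf₁.tr⟩
  have hcubP : ∀ q ∈ S, Cub (P q) := by
    intro q hq
    obtain ⟨-, -, -, -, -, -, -, -, -, -, h11, h12, h13, -, -⟩ := hS q hq
    exact ⟨h11, h12, h13⟩
  have hWc : ∀ q ∈ S, Nat.Coprime W q := by
    intro q hq
    exact (Nat.coprime_of_lt_prime hf₁.pos.ne' (hS q hq).2.1 (hS q hq).1).symm
  obtain ⟨a, ha, ha'⟩ := crt W S hSp hWc (f₁.coeff 1) (fun q => (P q).coeff 1)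
  obtain ⟨b, hb, hb'⟩ := crt W S hSp hWc (f₁.coeff 0) (fun q => (P q).coeff 0)
  set Pn : ℕ := (∏ q ∈ S, q ^ 2) ^ n with hPn
  have hPn0 : (0 : ℝ) < Pn := by
    have : 0 < Pn := pow_pos (Finset.prod_pos fun q hq => pow_pos (hq1 q hq) _) _
    exact_mod_cast this
  refine ⟨S, m, W * ∏ q ∈ S, q, a, b, hm, hmn.trans hn0,
    Nat.mul_pos hf₁.pos (Finset.prod_pos hq1), okS hdsc hS ha' hb', c / 2 / Pn, by positivity,
    fun u => ?_⟩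
  have hSu := hscl F W u S 𝔮 h P hS
  obtain ⟨Pu, hPu⟩ : ∃ Pu : ℕ → (𝓞 F)[X], Pu = fun q => scl u (P q) := ⟨_, rfl⟩
  obtain ⟨hu, hhu⟩ : ∃ hu : ℕ → (𝓞 F)[X], hu = fun q => scl u (h q) := ⟨_, rfl⟩
  rw [← hPu, ← hhu] at hSu
  obtain ⟨N₂, hN₂⟩ := hbd W S 𝔮 hu Pu hW4 hSu
  obtain ⟨B₁₀, hB₁₀⟩ := (hfamc u).2 S 𝔮 hu Pu hSu
  obtain ⟨B₁, hB₁⟩ := few (n := n) (by rw [hn]; exact hbt) hW2 hSu (Finset.empty_subset _)
    (Z := Z₀) (U := ∅) (by rwa [Finset.sdiff_empty]) (Finset.empty_subset _)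
    (Finset.disjoint_empty_right _) (l := 0) (by simp) (by simp) (κ + β * 0)
  have hT2 : ∀ x : Finset ℕ × Finset ℕ, ∃ B₀ : ℕ, x ∈ TT S m η → ∀ B ≥ B₀, 1 ≤ B → ∃ N : ℕ,
      2 ^ (κ + β * l) * B ≤ 4 ^ N ∧
      {f : (𝓞 F)[X] | LBadT N (κ + β * l) (S \ x.1) ((S \ x.1) \ x.2) x.2 𝔮 Pu f}.Finite ∧
      2 ^ S.card * Pn *
          {f : (𝓞 F)[X] | LBadT N (κ + β * l) (S \ x.1) ((S \ x.1) \ x.2) x.2 𝔮 Pu f}.ncard ≤
        2 ^ (A₀ + l * (β' * β + 1 + 2 * n + 5 * n * β)) * B ^ (5 * n) := by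
    intro x
    by_cases hx : x ∈ TT S m η
    · rw [TT, Finset.mem_filter, Finset.mem_product, Finset.mem_filter, Finset.mem_filter,
        Finset.mem_powerset, Finset.mem_powerset] at hx
      obtain ⟨⟨⟨hx1, hx2⟩, -⟩, hx3⟩ := hx
      obtain ⟨B₀, hB₀⟩ := few (n := n) (by rw [hn]; exact hbt) hW2 hSu hx1
        (Z := (S \ x.1) \ x.2) (U := x.2) Finset.sdiff_subset hx3
        Finset.sdiff_disjoint (l := l) (hx2.trans hml) (hprod _ hx1 hx2) (κ + β * l)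
      refine ⟨B₀, fun _ B hB hB1 => ?_⟩
      obtain ⟨N, h1, h2, h3⟩ := hB₀ B hB hB1
      refine ⟨N, h1, h2, ?_⟩
      have e1 : ((S \ x.1) \ x.2).card + x.2.card + x.1.card = S.card := by
        rw [Finset.card_sdiff_add_card_eq_card hx3, Finset.card_sdiff_add_card_eq_card hx1]
      have e2 : C + β' * (κ + β * l) + l + 2 * l * n + (2 + (κ + β * l)) * (5 * n) =
          A₀ + l * (β' * β + 1 + 2 * n + 5 * n * β) := by
        rw [hA₀]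
        ring
      rw [e1, e2, ← hPn] at h3
      exact h3
    · exact ⟨0, fun h => absurd h hx⟩
  choose B₂ hB₂ using hT2
  refine ⟨max (max B₁₀ (4 ^ N₂)) (max (max B₁ ((TT S m η).sup B₂)) 1), fun B hB => ?_⟩
  have hb1 : 1 ≤ B := ((le_max_right _ _).trans (le_max_right _ _)).trans hB
  have hb2 : B₁₀ ≤ B := ((le_max_left _ _).trans (le_max_left _ _)).trans hB
  have hb3 : 4 ^ N₂ ≤ B := ((le_max_right _ _).trans (le_max_left _ _)).trans hB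
  have hb4 : B₁ ≤ B := (((le_max_left _ _).trans (le_max_left _ _)).trans
    (le_max_right _ _)).trans hB
  have hb5 : (TT S m η).sup B₂ ≤ B := (((le_max_right _ _).trans (le_max_left _ _)).trans
    (le_max_right _ _)).trans hB
  -- the sets
  obtain ⟨NZ, hNZ1, hNZ2⟩ := exN κ₂ B hb1
  obtain ⟨hbf2, hbc2⟩ := hN₂ NZ (exN_ge hNZ1 hb3)
  obtain ⟨N₁, hN₁, hT1f, hT1c⟩ := hB₁ B hb4 hb1
  have hT3 : ∀ x : Finset ℕ × Finset ℕ, ∃ N : ℕ, x ∈ TT S m η → 2 ^ (κ + β * l) * B ≤ 4 ^ N ∧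
      {f : (𝓞 F)[X] | LBadT N (κ + β * l) (S \ x.1) ((S \ x.1) \ x.2) x.2 𝔮 Pu f}.Finite ∧
      2 ^ S.card * Pn *
          {f : (𝓞 F)[X] | LBadT N (κ + β * l) (S \ x.1) ((S \ x.1) \ x.2) x.2 𝔮 Pu f}.ncard ≤
        2 ^ (A₀ + l * (β' * β + 1 + 2 * n + 5 * n * β)) * B ^ (5 * n) := by
    intro x
    by_cases hx : x ∈ TT S m η
    · obtain ⟨N, hN⟩ := hB₂ x hx B ((Finset.le_sup hx).trans hb5) hb1
      exact ⟨N, fun _ => hN⟩
    · exact ⟨0, fun h => absurd h hx⟩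
  choose N₃ hN₃ using hT3
  obtain ⟨ZZ, hZZ⟩ : ∃ ZZ : Set ((𝓞 F)[X]), ZZ = {f : (𝓞 F)[X] | LBad 1 NZ κ₂ S 𝔮 Pu f} := ⟨_, rfl⟩
  obtain ⟨T1, hT1⟩ : ∃ T1 : Set ((𝓞 F)[X]), T1 =
    {f : (𝓞 F)[X] | LBadT N₁ (κ + β * 0) (S \ ∅) Z₀ ∅ 𝔮 Pu f} := ⟨_, rfl⟩
  obtain ⟨X2, hX2⟩ : ∃ X2 : Finset ℕ × Finset ℕ → Set ((𝓞 F)[X]), X2 = fun x =>
    {f : (𝓞 F)[X] | LBadT (N₃ x) (κ + β * l) (S \ x.1) ((S \ x.1) \ x.2) x.2 𝔮 Pu f} := ⟨_, rfl⟩
  obtain ⟨T2, hT2⟩ : ∃ T2 : Set ((𝓞 F)[X]), T2 = ⋃ x ∈ TT S m η, X2 x := ⟨_, rfl⟩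
  obtain ⟨M, hM⟩ : ∃ M : Set ((𝓞 F)[X]), M = {f | Mem B W (scl u f₁) S Pu f} := ⟨_, rfl⟩
  obtain ⟨M', hM'⟩ : ∃ M' : Set ((𝓞 F)[X]), M' = {f | Mem B W (scl u f₁) S Pu f ∧
    ¬ LawP S m ε (f.coeff 1, f.coeff 0)} := ⟨_, rfl⟩
  have hHtf : {f : (𝓞 F)[X] | Ht 1 B f}.Finite := by
    obtain ⟨-, Cq, hCq, -, hpt⟩ := hpts F
    exact (Pool.Agent.N99.PF.ht_card hCq hpt 1 B hb1).1
  have hMf : M.Finite := hHtf.subset fun f hf => by
    rw [hM] at hf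
    exact hf.ht
  have hBp : (0 : ℝ) ≤ (B : ℝ) ^ (5 * n) := by positivity
  -- the number of the members
  have hZb : (Pn : ℝ) * ZZ.ncard ≤ c / 2 * (B : ℝ) ^ (5 * n) := by
    rw [hdd, ← hn] at hbc2
    have h2 := bq_bound (t := S.card) (s := S.card) (u := 0) (l := 0) (P2 := 1) (R := C₂)
      (X := ZZ.ncard) (n := n) (N := NZ)
      (c' := κ₂) (B := B) (P1 := ∏ q ∈ S, q ^ (2 * 1)) rfl (Nat.zero_le _)
      (by simp) (by
        rw [hZZ]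
        refine hbc2.trans (Nat.mul_le_mul_right _ ?_)
        exact (Nat.lt_two_pow_self).le) hNZ2
    rw [mul_one] at h2
    have h3 : (2 : ℝ) ^ S.card * Pn * ZZ.ncard ≤
        2 ^ (C₂ + (2 + κ₂) * (5 * n)) * (B : ℝ) ^ (5 * n) := by
      have e : C₂ + 0 + 2 * 0 * n + (2 + κ₂) * (5 * n) = C₂ + (2 + κ₂) * (5 * n) := by ring
      rw [e] at h2
      exact_mod_cast h2
    have h4 : (2 : ℝ) ^ (C₂ + (2 + κ₂) * (5 * n)) ≤ (c / 2) * 2 ^ S.card := by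
      rw [div_lt_iff₀ (by positivity)] at hs₃
      calc (2 : ℝ) ^ (C₂ + (2 + κ₂) * (5 * n)) ≤ 2 ^ s₃ * (c / 2) := hs₃.le
        _ ≤ 2 ^ S.card * (c / 2) := by
            gcongr
            norm_num
        _ = (c / 2) * 2 ^ S.card := by ring
    have h5 : (2 : ℝ) ^ S.card * (Pn * ZZ.ncard) ≤
        2 ^ S.card * (c / 2 * (B : ℝ) ^ (5 * n)) := by
      calc (2 : ℝ) ^ S.card * (Pn * ZZ.ncard) = 2 ^ S.card * Pn * ZZ.ncard := by ring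
        _ ≤ 2 ^ (C₂ + (2 + κ₂) * (5 * n)) * (B : ℝ) ^ (5 * n) := h3
        _ ≤ ((c / 2) * 2 ^ S.card) * (B : ℝ) ^ (5 * n) := mul_le_mul_of_nonneg_right h4 hBp
        _ = 2 ^ S.card * (c / 2 * (B : ℝ) ^ (5 * n)) := by ring
    exact le_of_mul_le_mul_left h5 (by positivity)
  have hlow : c / 2 * (B : ℝ) ^ (5 * n) ≤ Pn * (M.ncard : ℝ) := by
    have h1 := hB₁₀ B hb2
    rw [← hn, mul_comm n 5] at h1
    have h2 : {f : (𝓞 F)[X] | Fam 1 B W (scl u f₁) S Pu f} \ ZZ ⊆ M := by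
      rintro f ⟨hf, hfZ⟩
      have hf' : Fam 1 B W (scl u f₁) S Pu f := hf
      have hirr0 : Irreducible (fF f) :=
        hirr F 1 W (scl u f₁) f (hf₁u u) hf'.one hf'.ht.mon hf'.ht.deg
      have hnZ : ¬ LBad 1 NZ κ₂ S 𝔮 Pu f := fun h0 => hfZ (by rw [hZZ]; exact h0)
      have hsq0 : SqF 1 f := hsq B NZ W (scl u f₁) S 𝔮 hu Pu f hW3 (hf₁u u) hSu hf' hirr0
        hNZ1 hb1 hnZ
      rw [hM]
      exact ⟨hf'.ht, hf'.one, hf'.con, hsq0⟩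
    have h3 := Set.le_ncard_diff ZZ {f : (𝓞 F)[X] | Fam 1 B W (scl u f₁) S Pu f}
      (by rw [hZZ]; exact hbf2)
    have h4 := Set.ncard_le_ncard h2 hMf
    have h5 : ({f : (𝓞 F)[X] | Fam 1 B W (scl u f₁) S Pu f}.ncard : ℝ) ≤ ZZ.ncard + M.ncard := by
      have : {f : (𝓞 F)[X] | Fam 1 B W (scl u f₁) S Pu f}.ncard ≤ ZZ.ncard + M.ncard := by omega
      exact_mod_cast this
    have h6 : c * (B : ℝ) ^ (5 * n) ≤ Pn * (ZZ.ncard + M.ncard : ℝ) :=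
      h1.trans (mul_le_mul_of_nonneg_left h5 hPn0.le)
    linarith
  -- the exceptions
  have hsub : M' ⊆ T1 ∪ T2 := by
    intro f hf
    rw [hM'] at hf
    rcases bad_of hlb hCore hgen hirr hη hlaw hW1 (hf₁u u) hSu hZ₀ hZc hn0 hbig hprod hN₁
      (N₂ := N₃) (fun x hx => (hN₃ x hx).1) hf.1 hf.2 with h1 | ⟨x, hx, h1⟩
    · left
      rw [hT1]
      exact h1
    · right
      rw [hT2]
      refine Set.mem_biUnion (x := x) hx ?_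
      rw [hX2]
      exact h1
  have hT1b : (Pn : ℝ) * T1.ncard ≤ δ * c / 4 * (B : ℝ) ^ (5 * n) := by
    have h2 : (2 : ℝ) ^ D₁ * Pn * T1.ncard ≤ 2 ^ A₀ * (B : ℝ) ^ (5 * n) := by
      have e1 : Z₀.card + (∅ : Finset ℕ).card + (∅ : Finset ℕ).card = D₁ := by
        simp [hZc]
      have e2 : C + β' * (κ + β * 0) + 0 + 2 * 0 * n + (2 + (κ + β * 0)) * (5 * n) = A₀ := by
        rw [hA₀]
        ring
      rw [e1, e2, ← hPn, ← hT1] at hT1c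
      exact_mod_cast hT1c
    have h4 : (2 : ℝ) ^ A₀ ≤ (δ * c / 4) * 2 ^ D₁ := by
      rw [div_lt_iff₀ (by positivity)] at hD₁
      linarith
    have h5 : (2 : ℝ) ^ D₁ * (Pn * T1.ncard) ≤ 2 ^ D₁ * (δ * c / 4 * (B : ℝ) ^ (5 * n)) := by
      calc (2 : ℝ) ^ D₁ * (Pn * T1.ncard) = 2 ^ D₁ * Pn * T1.ncard := by ring
        _ ≤ 2 ^ A₀ * (B : ℝ) ^ (5 * n) := h2
        _ ≤ ((δ * c / 4) * 2 ^ D₁) * (B : ℝ) ^ (5 * n) := mul_le_mul_of_nonneg_right h4 hBp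
        _ = 2 ^ D₁ * (δ * c / 4 * (B : ℝ) ^ (5 * n)) := by ring
    exact le_of_mul_le_mul_left h5 (by positivity)
  have hT2b : (Pn : ℝ) * T2.ncard ≤ δ * c / 4 * (B : ℝ) ^ (5 * n) := by
    have h1 := union3 (TT S m η) X2 (2 ^ S.card * Pn)
      (2 ^ (A₀ + l * (β' * β + 1 + 2 * n + 5 * n * β)) * (B : ℝ) ^ (5 * n)) _ (by positivity)
      (fun x hx => by
        have h2 := (hN₃ x hx).2.2
        rw [hX2]
        exact_mod_cast h2) (by positivity) (TT_card hBin S m hη)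
    rw [← hT2] at h1
    have h5 : (2 : ℝ) ^ S.card * (Pn * T2.ncard) ≤
        2 ^ S.card * (δ * c / 4 * (B : ℝ) ^ (5 * n)) := by
      calc (2 : ℝ) ^ S.card * (Pn * T2.ncard) = 2 ^ S.card * Pn * T2.ncard := by ring
        _ ≤ _ := h1
        _ = 2 ^ S.card * ((2 : ℝ) ^ (1 + A₀ + (m + 3 * m * (β' * β + 1 + 2 * n + 5 * n * β)) *
              (Nat.log 2 S.card + 1)) * Real.exp (-(η ^ 2 / 2 * S.card)) * (B : ℝ) ^ (5 * n)) := by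
            have e : 1 + A₀ + (m + 3 * m * (β' * β + 1 + 2 * n + 5 * n * β)) *
              (Nat.log 2 S.card + 1) = m * (Nat.log 2 S.card + 1) + 1 +
                (A₀ + l * (β' * β + 1 + 2 * n + 5 * n * β)) := by
              rw [hl]
              ring
            have e' : (2 : ℝ) ^ (1 + A₀ + (m + 3 * m * (β' * β + 1 + 2 * n + 5 * n * β)) *
              (Nat.log 2 S.card + 1)) = 2 ^ (m * (Nat.log 2 S.card + 1)) * 2 *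
                2 ^ (A₀ + l * (β' * β + 1 + 2 * n + 5 * n * β)) := by
              rw [e, pow_add, pow_succ]
            rw [e']
            ring
        _ ≤ 2 ^ S.card * (δ * c / 4 * (B : ℝ) ^ (5 * n)) := by
            refine mul_le_mul_of_nonneg_left (mul_le_mul_of_nonneg_right hnum hBp) (by positivity)
    exact le_of_mul_le_mul_left h5 (by positivity)
  have hT1f' : T1.Finite := by rw [hT1]; exact hT1f
  have hT2f : T2.Finite := by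
    rw [hT2]
    refine Set.Finite.biUnion (Finset.finite_toSet _) fun x hx => ?_
    rw [hX2]
    exact (hN₃ x hx).2.1
  have hup : (Pn : ℝ) * M'.ncard ≤ δ * (c / 2 * (B : ℝ) ^ (5 * n)) := by
    have h1 : M'.ncard ≤ T1.ncard + T2.ncard :=
      (Set.ncard_le_ncard hsub (hT1f'.union hT2f)).trans (Set.ncard_union_le _ _)
    have h2 : (M'.ncard : ℝ) ≤ T1.ncard + T2.ncard := by exact_mod_cast h1
    have h3 : (Pn : ℝ) * M'.ncard ≤ Pn * (T1.ncard + T2.ncard) :=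
      mul_le_mul_of_nonneg_left h2 hPn0.le
    linarith
  -- from polynomials to pairs
  have hmi := mem_iff (B := B) hSp hWc hcub1 hcubP ha ha' hb hb' u
  rw [← hPu] at hmi
  have hset1 : {p : 𝓞 F × 𝓞 F | Bd (p.1 : F) ((B : ℝ) ^ 2) ∧ Bd (p.2 : F) ((B : ℝ) ^ 3) ∧
        InFam (W * ∏ q ∈ S, q) ((u : 𝓞 F) ^ 4 * a) ((u : 𝓞 F) ^ 6 * b) p} =
      {p : 𝓞 F × 𝓞 F | pl p ∈ M} := by
    ext p
    rw [Set.mem_setOf_eq, hmi p, hM]
    rfl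
  have hset2 : {p : 𝓞 F × 𝓞 F | Bd (p.1 : F) ((B : ℝ) ^ 2) ∧ Bd (p.2 : F) ((B : ℝ) ^ 3) ∧
        InFam (W * ∏ q ∈ S, q) ((u : 𝓞 F) ^ 4 * a) ((u : 𝓞 F) ^ 6 * b) p ∧ ¬ LawP S m ε p} =
      {p : 𝓞 F × 𝓞 F | pl p ∈ M'} := by
    ext p
    have h1 := hmi p
    rw [Set.mem_setOf_eq, Set.mem_setOf_eq, hM', Set.mem_setOf_eq, pl1, pl0, ← h1]
    tauto
  rw [hset1, hset2, ncard_pl (T := M) (fun f hf => by
      rw [hM] at hf
      exact (ht_iff.1 hf.ht).1), ncard_pl (T := M') (fun f hf => by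
      rw [hM'] at hf
      exact (ht_iff.1 hf.1.ht).1), ← hn]
  constructor
  · rw [div_mul_eq_mul_div, div_le_iff₀ hPn0]
    linarith
  · rw [div_mul_eq_mul_div, mul_div_assoc', le_div_iff₀ hPn0]
    linarith

end Pool.Agent.H93PR
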