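import Pool.Agent.H68K.PR.StmK
import Pool.Agent.N99.PF.Main
import Pool.Agent.N170.PF.Tw

/-!
# Project PR, part COUNT: a positive proportion in balanced boxes (after `N99/PF/Main.lean`)
-/

set_option autoImplicit false
set_option linter.all false

open Polynomial IsDedekindDomain NumberField
open scoped Classical

namespace Pool.Agent.H93PR

open Pool.Agent.N783.PF
open Pool.Agent.H68K.PR
open Pool.Agent.N352.PJ (dd)
open Pool.Agent.N874.PP (Ev Sq1 U0)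

/-- The numerical choice. -/
lemma num_large (a b k : ℕ) : ∃ m : ℕ, k ≤ m ∧ ∀ t : ℕ, m ≤ t →
    a + b * (3 * (t / Nat.log 2 t ^ 2) * (Nat.log 2 t + 1)) ≤ t ∧ 1 ≤ Nat.log 2 t := by
  refine ⟨max k (max (2 * a) (2 ^ (12 * b + 1))), le_max_left _ _, fun t ht => ?_⟩
  have h1 : 2 * a ≤ t := ((le_max_left _ _).trans (le_max_right _ _)).trans ht
  have h2 : 2 ^ (12 * b + 1) ≤ t := ((le_max_right _ _).trans (le_max_right _ _)).trans ht
  have ht0 : t ≠ 0 := by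
    rintro rfl
    have : 0 < 2 ^ (12 * b + 1) := by positivity
    omega
  have h3 : 12 * b + 1 ≤ Nat.log 2 t := Nat.le_log_of_pow_le (by norm_num) h2
  generalize hl : Nat.log 2 t = l at h3 ⊢
  refine ⟨?_, by omega⟩
  have h4 : t / l ^ 2 * l ^ 2 ≤ t := Nat.div_mul_le_self _ _
  generalize t / l ^ 2 = s at h4 ⊢
  have h5 : 12 * b * (3 * s * (l + 1)) ≤ 6 * t := by
    calc 12 * b * (3 * s * (l + 1)) ≤ l * (3 * s * (2 * l)) := by
          refine Nat.mul_le_mul (by omega) (Nat.mul_le_mul_left _ (by omega))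
      _ = 6 * (s * l ^ 2) := by ring
      _ ≤ 6 * t := Nat.mul_le_mul_left _ h4
  have h6 : 12 * (b * (3 * s * (l + 1))) ≤ 6 * t := by
    rw [← mul_assoc]; exact h5
  omega

/-- The number of small subsets. -/
lemma card_small (S : Finset ℕ) (k : ℕ) :
    (S.powerset.filter fun Q => Q.card ≤ k).card ≤ (S.card + 1) ^ k := by
  -- injection: subsets of size ≤ k are images of functions Fin k → Option S
  have h1 : (S.powerset.filter fun Q => Q.card ≤ k) ⊆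
      (Finset.univ : Finset (Fin k → Option S)).image
        (fun φ => (Finset.univ.biUnion fun i => ((φ i).elim (∅ : Finset ℕ) fun s => {(s : ℕ)}))) := by
    intro Q hQ
    rw [Finset.mem_filter, Finset.mem_powerset] at hQ
    obtain ⟨hQS, hQk⟩ := hQ
    rw [Finset.mem_image]
    let e := Q.equivFin
    refine ⟨fun i => if h : (i : ℕ) < Q.card then
      some ⟨(e.symm ⟨i, h⟩ : Q), hQS (e.symm ⟨i, h⟩).2⟩ else none, Finset.mem_univ _, ?_⟩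
    ext x
    rw [Finset.mem_biUnion]
    constructor
    · rintro ⟨i, -, hi⟩
      by_cases h : (i : ℕ) < Q.card
      · simp only [dif_pos h, Option.elim_some, Finset.mem_singleton] at hi
        rw [hi]
        exact (e.symm ⟨i, h⟩).2
      · simp only [dif_neg h, Option.elim_none] at hi
        exact absurd hi (Finset.notMem_empty _)
    · intro hx
      have h2 : (e ⟨x, hx⟩ : ℕ) < Q.card := (e ⟨x, hx⟩).2
      refine ⟨⟨(e ⟨x, hx⟩ : ℕ), h2.trans_le hQk⟩, Finset.mem_univ _, ?_⟩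
      simp only [dif_pos h2, Option.elim_some, Finset.mem_singleton]
      simp
  refine (Finset.card_le_card h1).trans (Finset.card_image_le.trans ?_)
  rw [Finset.card_univ, Fintype.card_fun, Fintype.card_fin, Fintype.card_option,
    Fintype.card_coe]

/-- The bound for one bad set. -/
lemma bq_bound {t s u n l P1 P2 X R c' N B : ℕ} (ht : t = s + u) (hu : u ≤ l)
    (hP2 : P2 ≤ 2 ^ (2 * l))
    (hX : 2 ^ s * P1 ^ n * X ≤ 2 ^ R * 2 ^ (n * (2 * N * 5)))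
    (hN : 4 ^ N ≤ 4 * (2 ^ c' * B)) :
    2 ^ t * (P1 * P2) ^ n * X ≤
      2 ^ (R + l + 2 * l * n + (2 + c') * (5 * n)) * B ^ (5 * n) := by
  have h1 : 2 ^ (n * (2 * N * 5)) ≤ 2 ^ ((2 + c') * (5 * n)) * B ^ (5 * n) := by
    have e1 : 2 ^ (n * (2 * N * 5)) = (4 ^ N) ^ (5 * n) := by
      rw [show (4 : ℕ) = 2 ^ 2 by norm_num, ← pow_mul, ← pow_mul]
      congr 1
      ring
    have e2 : 4 * (2 ^ c' * B) = 2 ^ (2 + c') * B := by
      rw [pow_add]; ring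
    rw [e1, pow_mul 2 (2 + c'), ← mul_pow, ← e2]
    exact Nat.pow_le_pow_left hN _
  calc 2 ^ t * (P1 * P2) ^ n * X = (2 ^ s * P1 ^ n * X) * (2 ^ u * P2 ^ n) := by
        rw [ht, pow_add, mul_pow]; ring
    _ ≤ (2 ^ R * 2 ^ (n * (2 * N * 5))) * (2 ^ l * (2 ^ (2 * l)) ^ n) := by
        refine Nat.mul_le_mul hX (Nat.mul_le_mul ?_ (Nat.pow_le_pow_left hP2 _))
        exact Nat.pow_le_pow_right (by norm_num) hu
    _ ≤ (2 ^ R * (2 ^ ((2 + c') * (5 * n)) * B ^ (5 * n))) * (2 ^ l * (2 ^ (2 * l)) ^ n) := by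
        gcongr
    _ = 2 ^ (R + l + 2 * l * n + (2 + c') * (5 * n)) * B ^ (5 * n) := by
        rw [← pow_mul, pow_add, pow_add, pow_add]
        ring

/-- The finite union bound. -/
lemma union_bound {α ι : Type} {T : Finset ι} (f : ι → Set α) (Z : Set α) (A E : ℕ)
    (hf : ∀ i ∈ T, A * (f i).ncard ≤ E) (hZ : A * Z.ncard ≤ E) :
    A * (Z ∪ ⋃ i ∈ T, f i).ncard ≤ (T.card + 1) * E := by
  have h1 : (Z ∪ ⋃ i ∈ T, f i).ncard ≤ Z.ncard + ∑ i ∈ T, (f i).ncard :=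
    (Set.ncard_union_le _ _).trans (Nat.add_le_add_left (Finset.set_ncard_biUnion_le T f) _)
  calc A * (Z ∪ ⋃ i ∈ T, f i).ncard ≤ A * (Z.ncard + ∑ i ∈ T, (f i).ncard) :=
        Nat.mul_le_mul_left _ h1
    _ = A * Z.ncard + ∑ i ∈ T, A * (f i).ncard := by rw [mul_add, Finset.mul_sum]
    _ ≤ E + ∑ i ∈ T, E := Nat.add_le_add hZ (Finset.sum_le_sum hf)
    _ = (T.card + 1) * E := by rw [Finset.sum_const, smul_eq_mul]; ring

/-- Products of few small primes. -/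
lemma prod_small {S Q : Finset ℕ} (hQS : Q ⊆ S) (h3 : ∀ q ∈ S, q ≤ S.card ^ 3) {k : ℕ}
    (hQ : Q.card ≤ k) (h0 : ∀ q ∈ S, 1 ≤ q) :
    ∏ q ∈ Q, q ≤ 2 ^ (3 * k * (Nat.log 2 S.card + 1)) := by
  have h1 : S.card ≤ 2 ^ (Nat.log 2 S.card + 1) := (Nat.lt_pow_succ_log_self (by norm_num) _).le
  calc ∏ q ∈ Q, q ≤ ∏ q ∈ Q, 2 ^ (3 * (Nat.log 2 S.card + 1)) := by
        refine Finset.prod_le_prod' fun q hq => (h3 q (hQS hq)).trans ?_
        rw [mul_comm 3, pow_mul]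
        exact Nat.pow_le_pow_left h1 3
    _ = 2 ^ (3 * (Nat.log 2 S.card + 1) * Q.card) := by rw [Finset.prod_const, ← pow_mul]
    _ ≤ 2 ^ (3 * k * (Nat.log 2 S.card + 1)) := by
        refine Nat.pow_le_pow_right (by norm_num) ?_
        calc 3 * (Nat.log 2 S.card + 1) * Q.card ≤ 3 * (Nat.log 2 S.card + 1) * k :=
              Nat.mul_le_mul_left _ hQ
          _ = 3 * k * (Nat.log 2 S.card + 1) := by ring

lemma bd_scale {F : Type} [Field F] [NumberField F] {a : 𝓞 F} {B₁ D B k : ℕ}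
    (ha : Bd (a : F) ((B₁ : ℝ) ^ k)) (h : B₁ * D ≤ B) :
    Bd ((a * (D : 𝓞 F) ^ k : 𝓞 F) : F) ((B : ℝ) ^ k) := by
  intro σ
  have e1 : ((a * (D : 𝓞 F) ^ k : 𝓞 F) : F) = (a : F) * (D : F) ^ k := by
    push_cast
    rfl
  rw [e1, map_mul, map_pow, map_natCast, norm_mul, norm_pow, Complex.norm_natCast]
  calc ‖σ (a : F)‖ * (D : ℝ) ^ k ≤ (B₁ : ℝ) ^ k * (D : ℝ) ^ k :=
        mul_le_mul_of_nonneg_right (ha σ) (by positivity)
    _ = ((B₁ * D : ℕ) : ℝ) ^ k := by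
        rw [← mul_pow]
        push_cast
        rfl
    _ ≤ (B : ℝ) ^ k := pow_le_pow_left₀ (by positivity) (by exact_mod_cast h) _

/-- Cubic polynomials are determined by two coefficients. -/
lemma poly_det {F : Type} [Field F] [NumberField F] {B : ℕ} {x y : (𝓞 F)[X]} (hx : Ht 1 B x)
    (hy : Ht 1 B y) (h1 : x.coeff 1 = y.coeff 1) (h0 : x.coeff 0 = y.coeff 0) : x = y := by
  refine Polynomial.ext fun j => ?_
  have h2 : x.coeff 2 = y.coeff 2 := by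
    have a1 := hx.tr
    have a2 := hy.tr
    rw [mul_one] at a1 a2
    rw [a1, a2]
  have h3 : x.coeff 3 = y.coeff 3 := by
    have e1 : x.coeff 3 = 1 := by
      have := hx.mon
      rw [Monic, leadingCoeff, hx.deg] at this
      exact this
    have e2 : y.coeff 3 = 1 := by
      have := hy.mon
      rw [Monic, leadingCoeff, hy.deg] at this
      exact this
    rw [e1, e2]
  rcases Nat.lt_or_ge j 4 with hj | hj
  · interval_cases j
    · exact h0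
    · exact h1
    · exact h2
    · exact h3
  · rw [coeff_eq_zero_of_natDegree_lt (by rw [hx.deg]; omega),
      coeff_eq_zero_of_natDegree_lt (by rw [hy.deg]; omega)]

/-- COUNT -/
theorem cntb (hK : S_CORE2) (hL : S_LBQ) (hBQ : S_BADQ) (hX : S_EXG) (hbad : S_BAD) (hsqf : S_SQF)
    (hfam : S_FAM) (hirr : S_IRR) (hgen : S_GEN) (hpts : S_PTS) : S_CNTB := by
  intro F _ _ d
  obtain ⟨n, hn⟩ : ∃ n : ℕ, n = Module.finrank ℚ F := ⟨_, rfl⟩
  have hdd : dd 1 = 5 := rfl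
  obtain ⟨k₀, hcore⟩ := hK d
  obtain ⟨κ, β, hlb⟩ := hL 1 F le_rfl
  obtain ⟨C, β', K, hbq⟩ := hBQ F 1 le_rfl
  obtain ⟨κ₂, hsq⟩ := hsqf 1 F le_rfl
  obtain ⟨C₂, K₂, hbd⟩ := hbad F 1 κ₂ le_rfl
  obtain ⟨W, f₁, hKW, hf₁, c, hc, hfamc⟩ := hfam F 1 le_rfl (max (max κ K) (max κ₂ K₂))
  have hW1 : κ ≤ W := ((le_max_left _ _).trans (le_max_left _ _)).trans hKW
  have hW2 : K ≤ W := ((le_max_right _ _).trans (le_max_left _ _)).trans hKW
  have hW3 : κ₂ ≤ W := ((le_max_left _ _).trans (le_max_right _ _)).trans hKW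
  have hW4 : K₂ ≤ W := ((le_max_right _ _).trans (le_max_right _ _)).trans hKW
  obtain ⟨-, Cp, hCp, hfinR, -⟩ := hpts F
  obtain ⟨κ', hκ'⟩ : ∃ κ' : ℕ, κ' = max κ κ₂ := ⟨_, rfl⟩
  obtain ⟨r, hr⟩ : ∃ r : ℕ, 2 / c < (2 : ℝ) ^ r := pow_unbounded_of_one_lt _ (by norm_num)
  obtain ⟨m, hkm, hm⟩ := num_large
    (1 + C + C₂ + β' * κ' + 10 * n + 5 * n * κ' + r) (2 + β' * β + 2 * n + 5 * n * β) k₀
  obtain ⟨S, 𝔮, h, P, hS, hcard, hS3⟩ := hX F W m
  obtain ⟨hm1, hm2⟩ := hm S.card hcard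
  obtain ⟨kk, hkk⟩ : ∃ kk : ℕ, kk = S.card / Nat.log 2 S.card ^ 2 := ⟨_, rfl⟩
  obtain ⟨l, hl⟩ : ∃ l : ℕ, l = 3 * kk * (Nat.log 2 S.card + 1) := ⟨_, rfl⟩
  rw [← hkk, ← hl] at hm1
  have hq1 : ∀ q ∈ S, 1 ≤ q := fun q hq => (hS q hq).1.pos
  -- the bad sets
  have hsub : ∀ Q : Finset ℕ, GoodS 1 W (S \ Q) 𝔮 h P := fun Q q hq =>
    hS q (Finset.mem_sdiff.1 hq).1
  choose N₀ hN₀ using fun Q : Finset ℕ => hbq (κ + β * l) W (S \ Q) 𝔮 h P hW2 (hsub Q)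
  obtain ⟨N₂, hN₂⟩ := hbd W S 𝔮 h P hW4 hS
  obtain ⟨B₁₀, hB₁₀⟩ := hfamc S 𝔮 h P hS
  obtain ⟨T, hT⟩ : ∃ T : Finset (Finset ℕ), T = S.powerset.filter fun Q => Q.card ≤ kk := ⟨_, rfl⟩
  set X₀ : ℕ := max (max B₁₀ (4 ^ (max N₂ (T.sup N₀)))) 1 with hX₀
  set M : ℕ := ∏ q ∈ S, q with hM
  have hM1 : 1 ≤ M := Finset.one_le_prod' hq1
  have hM0 : (0 : ℝ) < M := by exact_mod_cast hM1
  set Pn : ℕ := (∏ q ∈ S, q ^ (2 * 1)) ^ n with hPn
  have hPn0 : (0 : ℝ) < Pn := by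
    have : 0 < Pn := pow_pos (Finset.prod_pos fun q hq => pow_pos (hq1 q hq) _) _
    exact_mod_cast this
  refine ⟨c / 2 / (Pn * 2 ^ S.card * (2 * M) ^ (5 * n)), by positivity, X₀ * M, fun B hB => ?_⟩
  rw [← hn]
  set B₁ : ℕ := B / M with hB₁
  have hBX : X₀ ≤ B₁ := (Nat.le_div_iff_mul_le hM1).2 hB
  have hb1 : 1 ≤ B₁ := (le_max_right _ _).trans hBX
  have hb2 : B₁₀ ≤ B₁ := ((le_max_left _ _).trans (le_max_left _ _)).trans hBX
  have hb3 : 4 ^ (max N₂ (T.sup N₀)) ≤ B₁ :=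
    ((le_max_right _ _).trans (le_max_left _ _)).trans hBX
  have hBM : B₁ * M ≤ B := Nat.div_mul_le_self B M
  have hBM2 : B ≤ 2 * M * B₁ := by
    have e1 : B < B₁ * M + M := Nat.lt_div_mul_add (a := B) (b := M) hM1
    nlinarith
  obtain ⟨c', hc'⟩ : ∃ c' : ℕ, c' = κ' + β * l := ⟨_, rfl⟩
  obtain ⟨N, hNa, hNb⟩ : ∃ N : ℕ, 2 ^ c' * B₁ ≤ 4 ^ N ∧ 4 ^ N ≤ 4 * (2 ^ c' * B₁) := by
    refine ⟨Nat.log 4 (2 ^ c' * B₁) + 1, (Nat.lt_pow_succ_log_self (by norm_num) _).le, ?_⟩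
    rw [pow_succ, mul_comm]
    refine Nat.mul_le_mul_left 4 (Nat.pow_log_le_self 4 ?_)
    positivity
  have hNN : max N₂ (T.sup N₀) ≤ N := by
    have e1 : 4 ^ (max N₂ (T.sup N₀)) ≤ 4 ^ N :=
      hb3.trans (le_trans (Nat.le_mul_of_pos_left _ (by positivity)) hNa)
    exact (Nat.pow_le_pow_iff_right (by norm_num)).1 e1
  have hN1 : 2 ^ (κ + β * l) * B₁ ≤ 4 ^ N := by
    refine (Nat.mul_le_mul_right _ (Nat.pow_le_pow_right (by norm_num) ?_)).trans hNa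
    rw [hc', hκ']
    exact Nat.add_le_add_right (le_max_left _ _) _
  have hN2 : 2 ^ κ₂ * B₁ ≤ 4 ^ N := by
    refine (Nat.mul_le_mul_right _ (Nat.pow_le_pow_right (by norm_num) ?_)).trans hNa
    rw [hc', hκ']
    exact (le_max_right _ _).trans (Nat.le_add_right _ _)
  obtain ⟨hbf2, hbc2⟩ := hN₂ N ((le_max_left _ _).trans hNN)
  have hbQ : ∀ Q ∈ T, _ := fun Q hQ => hN₀ Q N
    (((Finset.le_sup hQ).trans (le_max_right _ _)).trans hNN)
  obtain ⟨Z, hZ⟩ : ∃ Z : Set ((𝓞 F)[X]), Z = {f : (𝓞 F)[X] | LBad 1 N κ₂ S 𝔮 P f} := ⟨_, rfl⟩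
  obtain ⟨Y, hY⟩ : ∃ Y : Finset ℕ → Set ((𝓞 F)[X]),
    Y = fun Q => {f : (𝓞 F)[X] | LBadQ 1 N (κ + β * l) (S \ Q) 𝔮 P f} := ⟨_, rfl⟩
  obtain ⟨E, hE⟩ : ∃ E : ℕ, E = C + C₂ + β' * c' + l + 2 * l * n + (2 + c') * (5 * n) := ⟨_, rfl⟩
  have hkl : kk ≤ l := by
    rw [hl, mul_assoc, mul_left_comm]
    exact Nat.le_mul_of_pos_right _ (by positivity)
  have hTQ : ∀ Q ∈ T, Q ⊆ S ∧ Q.card ≤ kk := by
    intro Q hQ
    rw [hT, Finset.mem_filter, Finset.mem_powerset] at hQ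
    exact hQ
  have hprodQ : ∀ Q ∈ T, ∏ q ∈ Q, q ≤ 2 ^ l := by
    intro Q hQ
    rw [hl]
    exact prod_small (hTQ Q hQ).1 hS3 (hTQ Q hQ).2 hq1
  have hYb : ∀ Q ∈ T, (2 ^ S.card * Pn) * (Y Q).ncard ≤ 2 ^ E * B₁ ^ (5 * n) := by
    intro Q hQ
    obtain ⟨hQS, hQk⟩ := hTQ Q hQ
    have h1 := (hbQ Q hQ).2
    rw [hdd, ← hn] at h1
    have h2 := bq_bound (t := S.card) (s := (S \ Q).card) (u := Q.card) (l := l)
      (P2 := ∏ q ∈ Q, q ^ (2 * 1)) (c' := c') (B := B₁)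
      (Finset.card_sdiff_add_card_eq_card hQS).symm (hQk.trans hkl) (by
        rw [Finset.prod_pow, mul_one, mul_comm 2 l, pow_mul]
        exact Nat.pow_le_pow_left (hprodQ Q hQ) 2) h1 hNb
    rw [Finset.prod_sdiff hQS] at h2
    rw [hY, hPn]
    refine h2.trans (Nat.mul_le_mul_right _ (Nat.pow_le_pow_right (by norm_num) ?_))
    have h3 : κ + β * l ≤ c' := by
      rw [hc', hκ']
      exact Nat.add_le_add_right (le_max_left _ _) _
    have h4 : β' * (κ + β * l) ≤ β' * c' := Nat.mul_le_mul_left _ h3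
    rw [hE]
    omega
  have hZb : (2 ^ S.card * Pn) * Z.ncard ≤ 2 ^ E * B₁ ^ (5 * n) := by
    rw [hdd, ← hn] at hbc2
    have h2 := bq_bound (t := S.card) (s := S.card) (u := 0) (l := l) (P2 := 1) (R := C₂)
      (X := Z.ncard) (n := n) (N := N)
      (c' := c') (B := B₁) (P1 := ∏ q ∈ S, q ^ (2 * 1)) rfl (Nat.zero_le _)
      Nat.one_le_two_pow (by
        rw [hZ]
        refine hbc2.trans (Nat.mul_le_mul_right _ ?_)
        exact (Nat.lt_two_pow_self).le) hNb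
    rw [mul_one] at h2
    rw [hPn]
    refine h2.trans (Nat.mul_le_mul_right _ (Nat.pow_le_pow_right (by norm_num) ?_))
    rw [hE]
    omega
  have hUb := union_bound Y Z (2 ^ S.card * Pn) (2 ^ E * B₁ ^ (5 * n)) hYb hZb
  have hTc : T.card + 1 ≤ 2 ^ (l + 1) := by
    have h1 : T.card ≤ (S.card + 1) ^ kk := by
      rw [hT]
      exact card_small S kk
    have h2 : S.card + 1 ≤ 2 ^ (Nat.log 2 S.card + 1) := Nat.lt_pow_succ_log_self (by norm_num) _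
    have h3 : (S.card + 1) ^ kk ≤ 2 ^ l := by
      refine (Nat.pow_le_pow_left h2 kk).trans ?_
      rw [← pow_mul]
      refine Nat.pow_le_pow_right (by norm_num) ?_
      rw [hl, mul_comm (Nat.log 2 S.card + 1)]
      exact Nat.mul_le_mul_right _ (Nat.le_mul_of_pos_left _ (by norm_num))
    have h4 : 1 ≤ 2 ^ l := Nat.one_le_two_pow
    rw [pow_succ]
    omega
  obtain ⟨Bad, hBad⟩ : ∃ Bad : Set ((𝓞 F)[X]), Bad = Z ∪ ⋃ Q ∈ T, Y Q := ⟨_, rfl⟩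
  rw [← hBad] at hUb
  have hUb2 : (2 : ℝ) ^ S.card * (Pn * (Bad.ncard : ℝ)) ≤
      2 ^ S.card * (c / 2 * (B₁ : ℝ) ^ (5 * n)) := by
    have h1 : 2 ^ S.card * Pn * Bad.ncard * 2 ^ r ≤ 2 ^ S.card * B₁ ^ (5 * n) := by
      calc 2 ^ S.card * Pn * Bad.ncard * 2 ^ r
          ≤ (2 ^ (l + 1) * (2 ^ E * B₁ ^ (5 * n))) * 2 ^ r :=
            Nat.mul_le_mul_right _ (hUb.trans (Nat.mul_le_mul_right _ hTc))
        _ = 2 ^ (l + 1 + E + r) * B₁ ^ (5 * n) := by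
            rw [pow_add 2 (l + 1 + E) r, pow_add 2 (l + 1) E]; ring
        _ ≤ 2 ^ S.card * B₁ ^ (5 * n) := by
            refine Nat.mul_le_mul_right _ (Nat.pow_le_pow_right (by norm_num) ?_)
            refine le_trans (le_of_eq ?_) hm1
            rw [hE, hc']
            ring
    have h2 : (2 : ℝ) ^ S.card * Pn * Bad.ncard * 2 ^ r ≤ 2 ^ S.card * (B₁ : ℝ) ^ (5 * n) := by
      exact_mod_cast h1
    have h3 : 1 ≤ c / 2 * (2 : ℝ) ^ r := by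
      rw [div_lt_iff₀ hc] at hr
      linarith
    have h4 : (0 : ℝ) ≤ 2 ^ S.card * Pn * Bad.ncard := by positivity
    calc (2 : ℝ) ^ S.card * (Pn * (Bad.ncard : ℝ)) = 2 ^ S.card * Pn * Bad.ncard * 1 := by ring
      _ ≤ 2 ^ S.card * Pn * Bad.ncard * (c / 2 * (2 : ℝ) ^ r) := by gcongr
      _ = c / 2 * (2 ^ S.card * Pn * Bad.ncard * 2 ^ r) := by ring
      _ ≤ c / 2 * (2 ^ S.card * (B₁ : ℝ) ^ (5 * n)) := by gcongr
      _ = 2 ^ S.card * (c / 2 * (B₁ : ℝ) ^ (5 * n)) := by ring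
  have hUb3 : Pn * (Bad.ncard : ℝ) ≤ c / 2 * (B₁ : ℝ) ^ (5 * n) :=
    le_of_mul_le_mul_left hUb2 (by positivity)
  have hBadf : Bad.Finite := by
    rw [hBad, hZ]
    refine hbf2.union ?_
    refine Set.Finite.biUnion (Finset.finite_toSet T) fun Q hQ => ?_
    rw [hY]
    exact (hbQ Q hQ).1
  set G := {f : (𝓞 F)[X] | Fam 1 B₁ W f₁ S P f} \ Bad with hGdef
  have hG : c / 2 * (B₁ : ℝ) ^ (5 * n) ≤ Pn * (G.ncard : ℝ) := by
    have h1 := hB₁₀ B₁ hb2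
    rw [hdd, ← hn, mul_comm n 5] at h1
    have h2 := Set.le_ncard_diff Bad {f : (𝓞 F)[X] | Fam 1 B₁ W f₁ S P f} hBadf
    rw [← hGdef] at h2
    have h3 : ({f : (𝓞 F)[X] | Fam 1 B₁ W f₁ S P f}.ncard : ℝ) ≤ Bad.ncard + G.ncard := by
      have : {f : (𝓞 F)[X] | Fam 1 B₁ W f₁ S P f}.ncard ≤ Bad.ncard + G.ncard := by omega
      exact_mod_cast this
    have h4 : c * (B₁ : ℝ) ^ (5 * n) ≤ Pn * (Bad.ncard + G.ncard : ℝ) :=
      h1.trans (mul_le_mul_of_nonneg_left h3 hPn0.le)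
    linarith
  have hR2 : (1 : ℝ) ≤ (B : ℝ) ^ 2 := by
    have : (1 : ℝ) ≤ B := by exact_mod_cast le_trans (by nlinarith) hBM
    exact one_le_pow₀ this
  have hR3 : (1 : ℝ) ≤ (B : ℝ) ^ 3 := by
    have : (1 : ℝ) ≤ B := by exact_mod_cast le_trans (by nlinarith) hBM
    exact one_le_pow₀ this
  set H := {p : 𝓞 F × 𝓞 F | Bd (p.1 : F) ((B : ℝ) ^ 2) ∧ Bd (p.2 : F) ((B : ℝ) ^ 3) ∧
        Gd (2 ^ d) p} with hH
  have hHf : H.Finite := by
    refine ((hfinR _ hR2).1.prod (hfinR _ hR3).1).subset ?_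
    rintro p ⟨h1, h2, -⟩
    exact ⟨h1, h2⟩
  have hHtf : {f : (𝓞 F)[X] | Ht 1 B₁ f}.Finite := by
    obtain ⟨-, Cq, hCq, -, hpt⟩ := hpts F
    exact (Pool.Agent.N99.PF.ht_card hCq hpt 1 B₁ hb1).1
  have hGf : G.Finite := hHtf.subset fun f hf => hf.1.ht
  have hcard1 := Pool.Agent.N99.PF.card_fib hGf hHf S
    (fun J f => (f.coeff 1 * (Dp J : 𝓞 F) ^ 2, f.coeff 0 * (Dp J : 𝓞 F) ^ 3)) (by
      intro f hf
      have hF : Fam 1 B₁ W f₁ S P f := hf.1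
      have hnb : f ∉ Bad := hf.2
      have hm0 := hF.ht.mon
      have hd0 := hF.ht.deg
      have hirr0 : Irreducible (fF f) := hirr F 1 W f₁ f hf₁ hF.one hm0 hd0
      have hnZ : ¬ LBad 1 N κ₂ S 𝔮 P f := fun h0 => hnb (by rw [hBad, hZ]; exact Or.inl h0)
      have hsq0 : SqF 1 f := hsq B₁ N W f₁ S 𝔮 h P f hW3 hf₁ hS hF hirr0 hN2 hb1 hnZ
      obtain ⟨L, _, _, _, θ, hθ⟩ := hgen F 1 f hm0 hd0 hirr0
      obtain ⟨J, hJ, hJg⟩ := hcore W F L f f₁ θ S 𝔮 h P hθ hsq0 hF.ht.tr hf₁ hS hF.one hF.con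
        (hkm.trans hcard) (by
        intro Q hQS hQc α hα hαn hαe hαs
        by_contra hns
        apply hnb
        rw [hBad]
        right
        have hQk : Q.card ≤ kk := by
          rw [hkk, Nat.le_div_iff_mul_le (by positivity), mul_comm]
          exact hQc.le
        have hQT : Q ∈ T := by
          rw [hT, Finset.mem_filter, Finset.mem_powerset]
          exact ⟨hQS, hQk⟩
        refine Set.mem_biUnion (x := Q) hQT ?_
        rw [hY]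
        exact hlb L f θ B₁ N W l S Q 𝔮 h P hW1 hS hθ hsq0 hF.ht hN1 hF.con hQS (hprodQ Q hQT)
          α hα hαn hns hαe hαs)
      have hDle : Dp J ≤ M :=
        Finset.prod_le_prod_of_subset_of_one_le' hJ fun q hq _ => hq1 q hq
      have hDB : B₁ * Dp J ≤ B := (Nat.mul_le_mul_left _ hDle).trans hBM
      exact ⟨J, hJ, bd_scale (hF.ht.ht 1 (by norm_num)) hDB,
        bd_scale (hF.ht.ht 0 (by norm_num)) hDB, hJg⟩) (by
      intro J hJ x hx y hy hxy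
      have hD0 : ((Dp J : ℕ) : 𝓞 F) ≠ 0 := by
        have : 0 < ∏ q ∈ J, q := Finset.prod_pos fun q hq => hq1 q (hJ hq)
        have h5 : (Dp J : ℕ) ≠ 0 := this.ne'
        exact_mod_cast h5
      rw [Prod.mk.injEq] at hxy
      exact poly_det hx.1.ht hy.1.ht (mul_right_cancel₀ (pow_ne_zero _ hD0) hxy.1)
        (mul_right_cancel₀ (pow_ne_zero _ hD0) hxy.2))
  have hcard' : (G.ncard : ℝ) ≤ 2 ^ S.card * H.ncard := by exact_mod_cast hcard1
  have hBB : (B : ℝ) ^ (5 * n) ≤ (2 * M) ^ (5 * n) * (B₁ : ℝ) ^ (5 * n) := by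
    rw [← mul_pow]
    have e2 : (B : ℝ) ≤ 2 * M * B₁ := by exact_mod_cast hBM2
    gcongr
  calc c / 2 / (Pn * 2 ^ S.card * (2 * M) ^ (5 * n)) * (B : ℝ) ^ (5 * n)
      ≤ c / 2 / (Pn * 2 ^ S.card * (2 * M) ^ (5 * n)) *
        ((2 * M) ^ (5 * n) * (B₁ : ℝ) ^ (5 * n)) :=
        mul_le_mul_of_nonneg_left hBB (by positivity)
    _ = c / 2 * (B₁ : ℝ) ^ (5 * n) / (Pn * 2 ^ S.card) := by
        field_simp
    _ ≤ (Pn * (G.ncard : ℝ)) / (Pn * 2 ^ S.card) := by gcongr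
    _ ≤ (Pn * (2 ^ S.card * H.ncard)) / (Pn * 2 ^ S.card) := by gcongr
    _ = H.ncard := by field_simp

end Pool.Agent.H93PR
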