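import Pool.Agent.H68K.PR.StmT
import Pool.Agent.N667.PF.Sqf
import Pool.Agent.H93PR.Count

/-!
# Project PR, phase 2, part COUNT3: auxiliary results
-/

set_option autoImplicit false
set_option linter.all false

open Polynomial IsDedekindDomain NumberField
open scoped Classical

namespace Pool.Agent.H93PR

open Pool.Agent.N783.PF
open Pool.Agent.H68K.PR
open Pool.Agent.N352.PJ (dd)

/-! ### Numbers -/

/-- The numerical choice. -/
lemma num3 (a b k : ℕ) {ρ τ : ℝ} (hρ : 0 < ρ) (hτ : 0 < τ) : ∃ s₀ : ℕ, k ≤ s₀ ∧ ∀ s : ℕ, s₀ ≤ s →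
    (2 : ℝ) ^ (a + b * (Nat.log 2 s + 1)) * Real.exp (-(ρ * s)) ≤ τ := by
  have h1 : Filter.Tendsto (fun s : ℕ => (2 : ℝ) ^ a * (2 / ρ) ^ b *
      ((ρ * (s : ℝ)) ^ b * Real.exp (-(ρ * s)))) Filter.atTop (nhds 0) := by
    have h2 := (Real.tendsto_pow_mul_exp_neg_atTop_nhds_zero b).comp
      ((tendsto_natCast_atTop_atTop (R := ℝ)).const_mul_atTop hρ)
    have h3 := h2.const_mul ((2 : ℝ) ^ a * (2 / ρ) ^ b)
    rw [mul_zero] at h3
    exact h3
  have h4 := (h1.eventually_le_const hτ)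
  obtain ⟨s₁, hs₁⟩ := Filter.eventually_atTop.1 h4
  refine ⟨max k (max s₁ 1), le_max_left _ _, fun s hs => ?_⟩
  have hs1 : s₁ ≤ s := ((le_max_left _ _).trans (le_max_right _ _)).trans hs
  have hs2 : 1 ≤ s := ((le_max_right _ _).trans (le_max_right _ _)).trans hs
  refine le_trans ?_ (hs₁ s hs1)
  have h5 : (2 : ℝ) ^ (Nat.log 2 s + 1) ≤ 2 * s := by
    have : 2 ^ (Nat.log 2 s + 1) ≤ 2 * s := by
      rw [pow_succ, mul_comm]
      exact Nat.mul_le_mul_left 2 (Nat.pow_log_le_self 2 (by omega))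
    exact_mod_cast this
  have h6 : (2 : ℝ) ^ (a + b * (Nat.log 2 s + 1)) ≤ 2 ^ a * (2 * s) ^ b := by
    rw [pow_add, mul_comm b, pow_mul]
    gcongr
  calc (2 : ℝ) ^ (a + b * (Nat.log 2 s + 1)) * Real.exp (-(ρ * s))
      ≤ 2 ^ a * (2 * s) ^ b * Real.exp (-(ρ * s)) := by gcongr
    _ = (2 : ℝ) ^ a * (2 / ρ) ^ b * ((ρ * (s : ℝ)) ^ b * Real.exp (-(ρ * s))) := by
        have : (2 * (s : ℝ)) ^ b = (2 / ρ) ^ b * (ρ * s) ^ b := by
          rw [← mul_pow]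
          congr 1
          field_simp
        rw [this]
        ring

/-- The exponent of the size of the box. -/
lemma exN (c' B : ℕ) (hB : 1 ≤ B) : ∃ N : ℕ, 2 ^ c' * B ≤ 4 ^ N ∧ 4 ^ N ≤ 4 * (2 ^ c' * B) := by
  refine ⟨Nat.log 4 (2 ^ c' * B) + 1, (Nat.lt_pow_succ_log_self (by norm_num) _).le, ?_⟩
  rw [pow_succ, mul_comm]
  refine Nat.mul_le_mul_left 4 (Nat.pow_log_le_self 4 ?_)
  positivity

lemma exN_ge {c' B N N₀ : ℕ} (h : 2 ^ c' * B ≤ 4 ^ N) (hB : 4 ^ N₀ ≤ B) : N₀ ≤ N := by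
  have e1 : 4 ^ N₀ ≤ 4 ^ N := hB.trans (le_trans (Nat.le_mul_of_pos_left _ (by positivity)) h)
  exact (Nat.pow_le_pow_iff_right (by norm_num)).1 e1

/-! ### Ideals generated by integers -/

section crt

variable {F : Type} [Field F] [NumberField F]

lemma cop_cast {a b : ℕ} (h : Nat.Coprime a b) : IsCoprime (a : 𝓞 F) (b : 𝓞 F) := by
  have h1 : IsCoprime (a : ℤ) (b : ℤ) := Nat.isCoprime_iff_coprime.2 h
  have h2 := h1.map (Int.castRingHom (𝓞 F))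
  simpa using h2

lemma cop_prod {W : ℕ} {S : Finset ℕ} {q : ℕ} (hW : Nat.Coprime W q) (hq : q.Prime)
    (hS : ∀ r ∈ S, r.Prime) (hqS : q ∉ S) : Nat.Coprime (W * ∏ r ∈ S, r) q := by
  refine Nat.Coprime.mul_left hW ?_
  refine Nat.Coprime.prod_left fun r hr => ?_
  exact (Nat.coprime_primes (hS r hr) hq).2 (by rintro rfl; exact hqS hr)

lemma mem_prod_iff (W : ℕ) (S : Finset ℕ) (hS : ∀ q ∈ S, q.Prime)
    (hW : ∀ q ∈ S, Nat.Coprime W q) (x : 𝓞 F) :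
    x ∈ sp F (W * ∏ q ∈ S, q) ↔ x ∈ sp F W ∧ ∀ q ∈ S, x ∈ sp F q := by
  induction S using Finset.induction_on with
  | empty => simp
  | insert q S hq ih =>
    have h1 := ih (fun r hr => hS r (Finset.mem_insert_of_mem hr))
      (fun r hr => hW r (Finset.mem_insert_of_mem hr))
    have h2 : IsCoprime ((W * ∏ r ∈ S, r : ℕ) : 𝓞 F) (q : 𝓞 F) :=
      cop_cast (cop_prod (hW q (Finset.mem_insert_self _ _)) (hS q (Finset.mem_insert_self _ _))
        (fun r hr => hS r (Finset.mem_insert_of_mem hr)) hq)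
    have h3 : x ∈ sp F (W * ∏ r ∈ insert q S, r) ↔
        x ∈ sp F (W * ∏ r ∈ S, r) ∧ x ∈ sp F q := by
      rw [Finset.prod_insert hq, Ideal.mem_span_singleton, Ideal.mem_span_singleton,
        Ideal.mem_span_singleton]
      have e : ((W * (q * ∏ r ∈ S, r) : ℕ) : 𝓞 F) = ((W * ∏ r ∈ S, r : ℕ) : 𝓞 F) * (q : 𝓞 F) := by
        push_cast
        ring
      rw [e]
      constructor
      · intro h
        exact ⟨(dvd_mul_right _ _).trans h, (dvd_mul_left _ _).trans h⟩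
      · rintro ⟨h4, h5⟩
        exact h2.mul_dvd h4 h5
    rw [h3, h1]
    constructor
    · rintro ⟨⟨h4, h5⟩, h6⟩
      refine ⟨h4, fun r hr => ?_⟩
      rcases Finset.mem_insert.1 hr with rfl | hr
      · exact h6
      · exact h5 r hr
    · rintro ⟨h4, h5⟩
      exact ⟨⟨h4, fun r hr => h5 r (Finset.mem_insert_of_mem hr)⟩,
        h5 q (Finset.mem_insert_self _ _)⟩

/-- The Chinese remainder theorem. -/
lemma crt (W : ℕ) (S : Finset ℕ) (hS : ∀ q ∈ S, q.Prime) (hW : ∀ q ∈ S, Nat.Coprime W q)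
    (x : 𝓞 F) (y : ℕ → 𝓞 F) : ∃ a : 𝓞 F, a - x ∈ sp F W ∧ ∀ q ∈ S, a - y q ∈ sp F q := by
  induction S using Finset.induction_on with
  | empty => exact ⟨x, by simp, by simp⟩
  | insert q S hq ih =>
    obtain ⟨a, ha, haS⟩ := ih (fun r hr => hS r (Finset.mem_insert_of_mem hr))
      (fun r hr => hW r (Finset.mem_insert_of_mem hr))
    have h2 : IsCoprime ((W * ∏ r ∈ S, r : ℕ) : 𝓞 F) (q : 𝓞 F) :=
      cop_cast (cop_prod (hW q (Finset.mem_insert_self _ _)) (hS q (Finset.mem_insert_self _ _))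
        (fun r hr => hS r (Finset.mem_insert_of_mem hr)) hq)
    obtain ⟨u, v, huv⟩ := h2
    have hM : (y q - a) * (u * ((W * ∏ r ∈ S, r : ℕ) : 𝓞 F)) ∈ sp F (W * ∏ r ∈ S, r) := by
      rw [Ideal.mem_span_singleton]
      exact Dvd.intro_left ((y q - a) * u) (by ring)
    rw [mem_prod_iff W S (fun r hr => hS r (Finset.mem_insert_of_mem hr))
      (fun r hr => hW r (Finset.mem_insert_of_mem hr))] at hM
    refine ⟨a + (y q - a) * (u * ((W * ∏ r ∈ S, r : ℕ) : 𝓞 F)), ?_, fun r hr => ?_⟩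
    · rw [add_sub_right_comm]
      exact Ideal.add_mem _ ha hM.1
    · rcases Finset.mem_insert.1 hr with rfl | hr
      · have e : a + (y r - a) * (u * ((W * ∏ r ∈ S, r : ℕ) : 𝓞 F)) - y r = ((a - y r) * v) * (r : 𝓞 F) := by
          linear_combination (a - y r) * (-huv)
        rw [e]
        exact Ideal.mul_mem_left _ _ (Ideal.mem_span_singleton_self _)
      · rw [add_sub_right_comm]
        exact Ideal.add_mem _ (haS r hr) (hM.2 r hr)

end crt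

/-! ### Cubic polynomials -/

section pol

variable {F : Type} [Field F] [NumberField F]

/-- The polynomial of a pair. -/
noncomputable def pl (p : 𝓞 F × 𝓞 F) : (𝓞 F)[X] := X ^ 3 + C p.1 * X + C p.2

lemma pl_nd (p : 𝓞 F × 𝓞 F) : (pl p).natDegree = 3 := by
  unfold pl
  compute_degree!

lemma pl_mon (p : 𝓞 F × 𝓞 F) : (pl p).Monic := by
  unfold pl
  monicity!

lemma pl0 (p : 𝓞 F × 𝓞 F) : (pl p).coeff 0 = p.2 := by
  simp [pl, coeff_X_pow, coeff_C]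

lemma pl1 (p : 𝓞 F × 𝓞 F) : (pl p).coeff 1 = p.1 := by
  simp [pl, coeff_X_pow, coeff_C]

lemma pl2 (p : 𝓞 F × 𝓞 F) : (pl p).coeff 2 = 0 := by
  simp [pl, coeff_X_pow, coeff_C, coeff_X]

/-- Cubic polynomials as in the family. -/
structure Cub (f : (𝓞 F)[X]) : Prop where
  mon : f.Monic
  deg : f.natDegree = 3
  tr : f.coeff 2 = 0

lemma cub_pl (p : 𝓞 F × 𝓞 F) : Cub (pl p) := ⟨pl_mon p, pl_nd p, pl2 p⟩

lemma cub_lead {f : (𝓞 F)[X]} (h : Cub f) : f.coeff 3 = 1 := by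
  have := h.mon
  rwa [Monic, leadingCoeff, h.deg] at this

lemma cub_big {f : (𝓞 F)[X]} (h : Cub f) {j : ℕ} (hj : 4 ≤ j) : f.coeff j = 0 :=
  coeff_eq_zero_of_natDegree_lt (by rw [h.deg]; omega)

lemma cg_iff {𝔞 : Ideal (𝓞 F)} {f f' : (𝓞 F)[X]} (h : Cub f) (h' : Cub f') :
    Cg 𝔞 f f' ↔ f.coeff 1 - f'.coeff 1 ∈ 𝔞 ∧ f.coeff 0 - f'.coeff 0 ∈ 𝔞 := by
  constructor
  · intro hc
    exact ⟨hc 1, hc 0⟩
  · rintro ⟨h1, h0⟩ j
    rcases Nat.lt_or_ge j 4 with hj | hj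
    · interval_cases j
      · exact h0
      · exact h1
      · rw [h.tr, h'.tr, sub_zero]
        exact zero_mem _
      · rw [cub_lead h, cub_lead h', sub_self]
        exact zero_mem _
    · rw [cub_big h hj, cub_big h' hj, sub_zero]
      exact zero_mem _

lemma cub_ext {f f' : (𝓞 F)[X]} (h : Cub f) (h' : Cub f') (h1 : f.coeff 1 = f'.coeff 1)
    (h0 : f.coeff 0 = f'.coeff 0) : f = f' := by
  refine Polynomial.ext fun j => ?_
  rcases Nat.lt_or_ge j 4 with hj | hj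
  · interval_cases j
    · exact h0
    · exact h1
    · rw [h.tr, h'.tr]
    · rw [cub_lead h, cub_lead h']
  · rw [cub_big h hj, cub_big h' hj]

lemma pl_of {f : (𝓞 F)[X]} (h : Cub f) : pl (f.coeff 1, f.coeff 0) = f :=
  cub_ext (cub_pl _) h (pl1 _) (pl0 _)

lemma pl_inj : Function.Injective (pl (F := F)) := by
  intro p p' h
  have h1 := congrArg (fun f => coeff f 1) h
  have h0 := congrArg (fun f => coeff f 0) h
  simp only [pl1, pl0] at h1 h0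
  exact Prod.ext h1 h0

lemma cub_scl {f : (𝓞 F)[X]} (h : Cub f) (u : (𝓞 F)ˣ) : Cub (scl u f) := by
  refine ⟨?_, ?_, ?_⟩
  · exact (monic_scaleRoots_iff _).2 h.mon
  · rw [scl, natDegree_scaleRoots, h.deg]
  · rw [scl, coeff_scaleRoots, h.tr, zero_mul]

lemma scl1 {f : (𝓞 F)[X]} (h : Cub f) (u : (𝓞 F)ˣ) :
    (scl u f).coeff 1 = (u : 𝓞 F) ^ 4 * f.coeff 1 := by
  rw [scl, coeff_scaleRoots, h.deg, ← pow_mul, mul_comm]

lemma scl0 {f : (𝓞 F)[X]} (h : Cub f) (u : (𝓞 F)ˣ) :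
    (scl u f).coeff 0 = (u : 𝓞 F) ^ 6 * f.coeff 0 := by
  rw [scl, coeff_scaleRoots, h.deg, ← pow_mul, mul_comm]

lemma dsc_cub {f : (𝓞 F)[X]} (h : Cub f) :
    dsc 1 f = 4 * f.coeff 1 ^ 3 + 27 * f.coeff 0 ^ 2 := by
  have hdeg : f.degree = 3 := by rw [h.mon.ne_zero |> degree_eq_natDegree, h.deg]; rfl
  have e := resultant_deriv (f := f) (by rw [hdeg]; norm_num)
  have e1 : dsc 1 f = resultant f (derivative f) f.natDegree (f.natDegree - 1) := by
    rw [h.deg]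
    rfl
  rw [e1, e, h.deg, discr_of_degree_eq_three hdeg, h.mon.leadingCoeff, h.tr, cub_lead h]
  norm_num
  ring

lemma bd_zero {R : ℝ} (hR : 0 ≤ R) : Bd (0 : F) R := by
  intro σ
  rw [map_zero, norm_zero]
  exact hR

lemma ht_iff {f : (𝓞 F)[X]} {B : ℕ} : Ht 1 B f ↔ Cub f ∧ Bd (f.coeff 1 : F) ((B : ℝ) ^ 2) ∧
    Bd (f.coeff 0 : F) ((B : ℝ) ^ 3) := by
  constructor
  · intro h
    exact ⟨⟨h.mon, h.deg, h.tr⟩, h.ht 1 (by norm_num), h.ht 0 (by norm_num)⟩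
  · rintro ⟨h, h1, h0⟩
    refine ⟨h.mon, h.deg, h.tr, fun j hj => ?_⟩
    interval_cases j
    · exact h0
    · exact h1
    · rw [h.tr]
      have h9 := bd_zero (F := F) (R := (B : ℝ)) (Nat.cast_nonneg _)
      simpa using h9

/-- The members of the family, as polynomials. -/
structure Mem (B W : ℕ) (f₁ : (𝓞 F)[X]) (S : Finset ℕ) (P : ℕ → (𝓞 F)[X]) (f : (𝓞 F)[X]) : Prop where
  ht : Ht 1 B f
  one : Cg (sp F W) f f₁
  con : ∀ q ∈ S, Cg (sp F q) f (P q)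
  sqf : SqF 1 f

lemma sub_scl {𝔞 : Ideal (𝓞 F)} {x a y v : 𝓞 F} (h : a - y ∈ 𝔞) :
    x - v * a ∈ 𝔞 ↔ x - v * y ∈ 𝔞 := by
  have h1 : v * (a - y) ∈ 𝔞 := Ideal.mul_mem_left _ _ h
  constructor
  · intro h2
    have := Ideal.add_mem _ h2 h1
    have e : x - v * a + v * (a - y) = x - v * y := by ring
    rwa [e] at this
  · intro h2
    have := Ideal.sub_mem _ h2 h1
    have e : x - v * y - v * (a - y) = x - v * a := by ring
    rwa [e] at this

lemma mem_iff {B W : ℕ} {f₁ : (𝓞 F)[X]} {S : Finset ℕ} {P : ℕ → (𝓞 F)[X]} {a b : 𝓞 F}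
    (hS : ∀ q ∈ S, q.Prime) (hW : ∀ q ∈ S, Nat.Coprime W q) (hf₁ : Cub f₁)
    (hP : ∀ q ∈ S, Cub (P q)) (ha : a - f₁.coeff 1 ∈ sp F W)
    (ha' : ∀ q ∈ S, a - (P q).coeff 1 ∈ sp F q) (hb : b - f₁.coeff 0 ∈ sp F W)
    (hb' : ∀ q ∈ S, b - (P q).coeff 0 ∈ sp F q) (u : (𝓞 F)ˣ) (p : 𝓞 F × 𝓞 F) :
    (Bd (p.1 : F) ((B : ℝ) ^ 2) ∧ Bd (p.2 : F) ((B : ℝ) ^ 3) ∧
      InFam (W * ∏ q ∈ S, q) ((u : 𝓞 F) ^ 4 * a) ((u : 𝓞 F) ^ 6 * b) p) ↔
    Mem B W (scl u f₁) S (fun q => scl u (P q)) (pl p) := by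
  have hc := cub_pl p
  have e1 : InFam (W * ∏ q ∈ S, q) ((u : 𝓞 F) ^ 4 * a) ((u : 𝓞 F) ^ 6 * b) p ↔
      Cg (sp F W) (pl p) (scl u f₁) ∧ (∀ q ∈ S, Cg (sp F q) (pl p) (scl u (P q))) ∧ SqF 1 (pl p) := by
    rw [InFam, mem_prod_iff W S hS hW, mem_prod_iff W S hS hW, cg_iff hc (cub_scl hf₁ u),
      scl1 hf₁, scl0 hf₁, pl1, pl0, sub_scl ha, sub_scl hb, SqF, dsc_cub hc, pl1, pl0]
    have e2 : (∀ q ∈ S, Cg (sp F q) (pl p) (scl u (P q))) ↔
        (∀ q ∈ S, p.1 - (u : 𝓞 F) ^ 4 * a ∈ sp F q) ∧ ∀ q ∈ S, p.2 - (u : 𝓞 F) ^ 6 * b ∈ sp F q := by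
      rw [← forall₂_and]
      refine forall₂_congr fun q hq => ?_
      rw [cg_iff hc (cub_scl (hP q hq) u), scl1 (hP q hq), scl0 (hP q hq), pl1, pl0,
        sub_scl (ha' q hq), sub_scl (hb' q hq)]
    rw [e2]
    tauto
  rw [e1]
  constructor
  · rintro ⟨h1, h2, h3, h4, h5⟩
    exact ⟨ht_iff.2 ⟨hc, by rwa [pl1], by rwa [pl0]⟩, h3, h4, h5⟩
  · rintro ⟨h1, h3, h4, h5⟩
    have h6 := (ht_iff.1 h1).2
    rw [pl1, pl0] at h6
    exact ⟨h6.1, h6.2, h3, h4, h5⟩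

lemma ncard_pl {T : Set ((𝓞 F)[X])} (hT : ∀ f ∈ T, Cub f) :
    {p : 𝓞 F × 𝓞 F | pl p ∈ T}.ncard = T.ncard := by
  refine Set.ncard_preimage_of_injective_subset_range pl_inj ?_
  intro f hf
  exact ⟨_, pl_of (hT f hf)⟩

/-- The set `S` is fine. -/
lemma okS (hdsc : S_DSC) {W : ℕ} {S : Finset ℕ} {𝔮 : ℕ → Ideal (𝓞 F)} {h P : ℕ → (𝓞 F)[X]}
    (hS : GoodS 1 W S 𝔮 h P) {a b : 𝓞 F} (ha' : ∀ q ∈ S, a - (P q).coeff 1 ∈ sp F q)
    (hb' : ∀ q ∈ S, b - (P q).coeff 0 ∈ sp F q) : OkS S (W * ∏ q ∈ S, q) a b := by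
  intro q hq
  obtain ⟨h1, h2, h3, h4, h5, h6, h7, h8, h9, h10, h11, h12, h13, h14, h15⟩ := hS q hq
  refine ⟨h1, by omega, (Finset.dvd_prod_of_mem _ hq).mul_left _, h5, fun 𝔭 hp hqp => ?_⟩
  have hq0 : ((q : ℕ) : 𝓞 F) ≠ 0 := by exact_mod_cast h1.ne_zero
  have hp0 : 𝔭 ≠ ⊥ := by
    rintro rfl
    exact hq0 (by simpa using hqp)
  have hPc : Cub (P q) := ⟨h11, h12, h13⟩
  have hsep : (rd 𝔭 (P q)).Separable := by
    by_cases hpq : 𝔭 = 𝔮 q
    · subst hpq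
      have e : rd (𝔮 q) (P q) = rd (𝔮 q) (X * h q) :=
        Pool.Agent.N667.PF.rd_eq_of_cg h14
      rw [e]
      exact Pool.Agent.N667.PF.sep_mul hp hp0 le_rfl h8 h9 h10
    · exact Pool.Agent.N667.PF.sep_irr hp hp0 (h15 𝔭 hp hqp hpq)
  have hcg : Cg 𝔭 (pl (a, b)) (P q) := by
    rw [cg_iff (cub_pl _) hPc, pl1, pl0]
    have hle : sp F q ≤ 𝔭 := by
      rw [Ideal.span_singleton_le_iff_mem]
      exact hqp
    exact ⟨hle (ha' q hq), hle (hb' q hq)⟩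
  have := hdsc F 1 𝔭 (pl (a, b)) (P q) le_rfl hp hp0 (pl_mon _) (pl_nd _) hcg hsep
  rwa [dsc_cub (cub_pl _), pl1, pl0] at this

end pol

/-! ### Linear algebra -/

section lin

variable {S : Finset ℕ}

/-- The intersection as a subgroup. -/
def LJs (Λ : AddSubgroup (S → ZMod 2 × ZMod 2)) (J : Finset S) :
    AddSubgroup (S → ZMod 2 × ZMod 2) where
  carrier := LJ Λ J
  zero_mem' := ⟨Λ.zero_mem, fun _ _ => rfl, fun _ _ => rfl⟩
  add_mem' := by
    rintro l l' ⟨h1, h2, h3⟩ ⟨h1', h2', h3'⟩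
    refine ⟨Λ.add_mem h1 h1', fun q hq => ?_, fun q hq => ?_⟩
    · rw [Pi.add_apply, Prod.snd_add, h2 q hq, h2' q hq, add_zero]
    · rw [Pi.add_apply, Prod.fst_add, h3 q hq, h3' q hq, add_zero]
  neg_mem' := by
    rintro l ⟨h1, h2, h3⟩
    refine ⟨Λ.neg_mem h1, fun q hq => ?_, fun q hq => ?_⟩
    · rw [Pi.neg_apply, Prod.snd_neg, h2 q hq, neg_zero]
    · rw [Pi.neg_apply, Prod.fst_neg, h3 q hq, neg_zero]

lemma card_LJ (Λ : AddSubgroup (S → ZMod 2 × ZMod 2)) (J : Finset S) :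
    ∃ k : ℕ, Nat.card (LJ Λ J) = 2 ^ k := by
  have h1 : Nat.card (LJs Λ J) ∣ Nat.card (S → ZMod 2 × ZMod 2) :=
    AddSubgroup.card_addSubgroup_dvd_card _
  have h2 : Nat.card (S → ZMod 2 × ZMod 2) = 2 ^ (2 * S.card) := by
    rw [Nat.card_fun, Nat.card_prod, Nat.card_zmod, Nat.card_eq_fintype_card, Fintype.card_coe,
      pow_mul]
    norm_num
  rw [h2] at h1
  obtain ⟨k, -, hk⟩ := (Nat.dvd_prime_pow Nat.prime_two).1 h1
  exact ⟨k, hk⟩

/-- An element which vanishes at given places. -/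
lemma pigeon (Λ : AddSubgroup (S → ZMod 2 × ZMod 2)) {Z₀ : Finset ℕ} (hZ : Z₀ ⊆ S)
    (h : 2 ^ Z₀.card < Nat.card (LJ Λ ∅)) :
    ∃ l ∈ LJ Λ ∅, l ≠ 0 ∧ ∀ q : S, (q : ℕ) ∈ Z₀ → l q = 0 := by
  have h1 : ¬ Function.Injective (fun (l : LJ Λ ∅) (z : Z₀) => ((l : S → ZMod 2 × ZMod 2)
      ⟨z, hZ z.2⟩).2) := by
    intro hinj
    have h2 := Nat.card_le_card_of_injective _ hinj
    rw [Nat.card_fun, Nat.card_zmod, Nat.card_eq_fintype_card (α := Z₀), Fintype.card_coe] at h2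
    omega
  rw [Function.Injective] at h1
  push Not at h1
  obtain ⟨l, l', h2, h3⟩ := h1
  refine ⟨(l : S → ZMod 2 × ZMod 2) - l', (LJs Λ ∅).sub_mem l.2 l'.2, ?_, fun q hq => ?_⟩
  · intro h4
    exact h3 (Subtype.ext (sub_eq_zero.1 h4))
  · have h5 := congrFun h2 ⟨q, hq⟩
    simp only at h5
    refine Prod.ext ?_ ?_
    · rw [Pi.sub_apply, Prod.fst_sub, l.2.2.2 q (Finset.notMem_empty _),
        l'.2.2.2 q (Finset.notMem_empty _), sub_zero]
      rfl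
    · rw [Pi.sub_apply, Prod.snd_sub]
      change ((l : S → ZMod 2 × ZMod 2) q).2 - ((l' : S → ZMod 2 × ZMod 2) q).2 = 0
      rw [sub_eq_zero]
      exact h5

/-- The law for the twists. -/
lemma lawp_of {F : Type} [Field F] [NumberField F] {m : ℕ} {ε : ℝ}
    (Λ : AddSubgroup (S → ZMod 2 × ZMod 2)) {p : 𝓞 F × 𝓞 F}
    (hG : ∀ J : Finset S, Gd (Nat.card (LJ Λ J)) (twp (J.map (Function.Embedding.subtype _)) p))
    (hl : ∀ k : ℕ, |(∑ i ∈ Finset.range m,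
      ((Finset.univ.filter fun J : Finset S => J.card = i ∧ Nat.card (LJ Λ J) = 2 ^ k).card : ℝ) /
        ((Fintype.card S).choose i : ℝ)) / m - pr2 k| ≤ ε) : LawP S m ε p := by
  choose e he using card_LJ Λ
  refine ⟨fun J => e (J.subtype (· ∈ S)), fun J hJ => ?_, fun k => ?_⟩
  · have h1 := hG (J.subtype (· ∈ S))
    rw [he, Finset.subtype_map, Finset.filter_true_of_mem fun x hx => hJ hx] at h1
    exact h1
  · have h2 : ∀ i, ((S.powersetCard i).filter fun J => e (J.subtype (· ∈ S)) = k).card =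
        (Finset.univ.filter fun J : Finset S => J.card = i ∧ Nat.card (LJ Λ J) = 2 ^ k).card := by
      intro i
      symm
      refine Finset.card_bij (fun J _ => J.map (Function.Embedding.subtype _)) ?_ ?_ ?_
      · intro J hJ
        rw [Finset.mem_filter] at hJ
        rw [Finset.mem_filter, Finset.mem_powersetCard]
        refine ⟨⟨?_, by rw [Finset.card_map]; exact hJ.2.1⟩, ?_⟩
        · intro x hx
          rw [Finset.mem_map] at hx
          obtain ⟨y, -, rfl⟩ := hx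
          exact y.2
        · have h3 : (J.map (Function.Embedding.subtype _)).subtype (· ∈ S) = J := by
            ext x
            simp
          rw [h3]
          have h4 := hJ.2.2
          rw [he] at h4
          exact Nat.pow_right_injective le_rfl h4
      · intro J _ J' _ h
        exact Finset.map_injective _ h
      · intro J hJ
        rw [Finset.mem_filter, Finset.mem_powersetCard] at hJ
        have h3 : (J.subtype (· ∈ S)).map (Function.Embedding.subtype _) = J := by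
          rw [Finset.subtype_map, Finset.filter_true_of_mem fun x hx => hJ.1.1 hx]
        refine ⟨J.subtype (· ∈ S), ?_, h3⟩
        rw [Finset.mem_filter]
        refine ⟨Finset.mem_univ _, ?_, by rw [he, hJ.2]⟩
        have h5 := congrArg Finset.card h3
        rw [Finset.card_map] at h5
        rw [h5]
        exact hJ.1.2
    have h3 := hl k
    simp only [Fintype.card_coe] at h3
    simp only [h2]
    exact h3

end lin

end Pool.Agent.H93PR
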