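import Pool.Agent.H93PR.Num

/-!
# Project PR, stub COMB
-/

set_option autoImplicit false
set_option linter.all false

namespace Pool.Agent.H93PR

open Finset Module

section

variable {ι : Type} [Fintype ι] [DecidableEq ι]

/-- exchange the coordinates in `J` -/
def sw (J : Finset ι) : (ι → ZMod 2 × ZMod 2) →ₗ[ZMod 2] VV ι where
  toFun l := (fun q => if q ∈ J then (l q).2 else (l q).1, fun q => if q ∈ J then (l q).1 else (l q).2)
  map_add' a b := by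
    refine Prod.ext ?_ ?_ <;> funext q <;> by_cases h : q ∈ J <;> simp [h]
  map_smul' c a := by
    refine Prod.ext ?_ ?_ <;> funext q <;> by_cases h : q ∈ J <;> simp [h]

theorem sw_fst (J : Finset ι) (l : ι → ZMod 2 × ZMod 2) (q : ι) :
    (sw J l).1 q = if q ∈ J then (l q).2 else (l q).1 := rfl

theorem sw_snd (J : Finset ι) (l : ι → ZMod 2 × ZMod 2) (q : ι) :
    (sw J l).2 q = if q ∈ J then (l q).1 else (l q).2 := rfl

theorem sw_inj (J : Finset ι) : Function.Injective (sw J) := by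
  intro a b hab
  funext q
  have h1 := congrFun (congrArg Prod.fst hab) q
  have h2 := congrFun (congrArg Prod.snd hab) q
  rw [sw_fst, sw_fst] at h1
  rw [sw_snd, sw_snd] at h2
  by_cases h : q ∈ J
  · rw [if_pos h, if_pos h] at h1 h2
    exact Prod.ext h2 h1
  · rw [if_neg h, if_neg h] at h1 h2
    exact Prod.ext h1 h2

/-- the image of `Λ` -/
def LJ (Λ : Submodule (ZMod 2) (ι → ZMod 2 × ZMod 2)) (J : Finset ι) : Submodule (ZMod 2) (VV ι) :=
  Λ.map (sw J)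

/-- the number of elements of the intersection with the product of lines -/
noncomputable def N (Λ : Submodule (ZMod 2) (ι → ZMod 2 × ZMod 2)) (J : Finset ι) : ℕ :=
  Nat.card {l : ι → ZMod 2 × ZMod 2 // l ∈ Λ ∧ (∀ q ∈ J, (l q).2 = 0) ∧ ∀ q ∉ J, (l q).1 = 0}

theorem sw_mem (Λ : Submodule (ZMod 2) (ι → ZMod 2 × ZMod 2)) (J I : Finset ι)
    (l : ι → ZMod 2 × ZMod 2) : sw J l ∈ W (LJ Λ J) I ↔
      l ∈ Λ ∧ (∀ q ∈ symmDiff J I, (l q).2 = 0) ∧ ∀ q ∉ symmDiff J I, (l q).1 = 0 := by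
  rw [mem_W]
  unfold LJ
  rw [Submodule.mem_map]
  have h1 : (∃ y ∈ Λ, sw J y = sw J l) ↔ l ∈ Λ :=
    ⟨fun ⟨y, hy, h⟩ => sw_inj J h ▸ hy, fun h => ⟨l, h, rfl⟩⟩
  rw [h1]
  refine and_congr_right fun _ => ?_
  constructor
  · rintro ⟨h2, h3⟩
    refine ⟨fun q hq => ?_, fun q hq => ?_⟩
    · rw [mem_symmDiff] at hq
      rcases hq with ⟨hq1, hq2⟩ | ⟨hq1, hq2⟩
      · have := h3 q hq2
        rwa [sw_fst, if_pos hq1] at this
      · have := h2 q hq1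
        rwa [sw_snd, if_neg hq2] at this
    · rw [mem_symmDiff] at hq
      by_cases hqJ : q ∈ J
      · by_cases hqI : q ∈ I
        · have := h2 q hqI
          rwa [sw_snd, if_pos hqJ] at this
        · exact absurd (Or.inl ⟨hqJ, hqI⟩) hq
      · by_cases hqI : q ∈ I
        · exact absurd (Or.inr ⟨hqI, hqJ⟩) hq
        · have := h3 q hqI
          rwa [sw_fst, if_neg hqJ] at this
  · rintro ⟨h2, h3⟩
    refine ⟨fun q hq => ?_, fun q hq => ?_⟩
    · rw [sw_snd]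
      by_cases hqJ : q ∈ J
      · rw [if_pos hqJ]
        exact h3 q (by rw [mem_symmDiff]; tauto)
      · rw [if_neg hqJ]
        exact h2 q (by rw [mem_symmDiff]; tauto)
    · rw [sw_fst]
      by_cases hqJ : q ∈ J
      · rw [if_pos hqJ]
        exact h2 q (by rw [mem_symmDiff]; tauto)
      · rw [if_neg hqJ]
        exact h3 q (by rw [mem_symmDiff]; tauto)

theorem card_W (Λ : Submodule (ZMod 2) (ι → ZMod 2 × ZMod 2)) (J I : Finset ι) :
    Nat.card (W (LJ Λ J) I) = N Λ (symmDiff J I) := by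
  unfold N
  symm
  refine Nat.card_congr (Equiv.ofBijective (fun l => (⟨sw J l.1, (sw_mem Λ J I l.1).2 l.2⟩ :
    W (LJ Λ J) I)) ⟨?_, ?_⟩)
  · intro a b hab
    exact Subtype.ext (sw_inj J (congrArg Subtype.val hab))
  · rintro ⟨w, hw⟩
    obtain ⟨l, hl, rfl⟩ := (mem_W.1 hw).1
    exact ⟨⟨l, (sw_mem Λ J I l).1 hw⟩, rfl⟩

theorem card_KK (Λ : Submodule (ZMod 2) (VV ι)) : Nat.card (KK Λ) = Nat.card (W Λ ∅) := by
  refine Nat.card_congr (Equiv.ofBijective (fun y => (⟨(0, y.1), mem_W.2 ⟨y.2, by simp,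
    fun _ _ => rfl⟩⟩ : W Λ ∅)) ⟨?_, ?_⟩)
  · intro a b hab
    exact Subtype.ext (congrArg (fun w => (Subtype.val w).2) hab)
  · rintro ⟨⟨x, y⟩, hw⟩
    obtain ⟨h1, -, h3⟩ := mem_W.1 hw
    have hx : x = 0 := funext fun q => h3 q (by simp)
    subst hx
    exact ⟨⟨y, h1⟩, rfl⟩

theorem card_KK' (Λ : Submodule (ZMod 2) (ι → ZMod 2 × ZMod 2)) (J : Finset ι) :
    Nat.card (KK (LJ Λ J)) = N Λ J := by
  rw [card_KK, card_W]
  congr 1
  ext q
  rw [mem_symmDiff]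
  simp

theorem pow_N (Λ : Submodule (ZMod 2) (ι → ZMod 2 × ZMod 2)) (J : Finset ι) :
    ∃ m : ℕ, N Λ J = 2 ^ m := by
  refine ⟨finrank (ZMod 2) (KK (LJ Λ J)), ?_⟩
  rw [← card_KK', Module.natCard_eq_pow_finrank (K := ZMod 2), Nat.card_zmod]

theorem Q_sw (J : Finset ι) (l : ι → ZMod 2 × ZMod 2) : Q (sw J l) = ∑ q, (l q).1 * (l q).2 := by
  unfold Q
  refine sum_congr rfl fun q _ => ?_
  rw [sw_fst, sw_snd]
  split_ifs
  · exact mul_comm _ _
  · rfl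

/-- One step: exchanging one coordinate. -/
theorem step {Λ : Submodule (ZMod 2) (ι → ZMod 2 × ZMod 2)}
    (h : ∀ l ∈ Λ, ∑ q, (l q).1 * (l q).2 = 0) {J : Finset ι} (hN : 1 < N Λ J) :
    ∃ J' : Finset ι, N Λ J' < N Λ J ∧ N Λ J ≤ 2 * N Λ J' := by
  have hiso : ∀ l ∈ LJ Λ J, Q l = 0 := by
    rintro _ ⟨l, hl, rfl⟩
    rw [Q_sw]; exact h l hl
  rw [← card_KK' Λ J] at hN ⊢
  obtain ⟨a, b, hab⟩ := Finite.one_lt_card_iff_nontrivial.1 hN
  obtain ⟨y, hy, hy0⟩ : ∃ y ∈ KK (LJ Λ J), y ≠ 0 :=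
    ⟨a.1 - b.1, (KK (LJ Λ J)).sub_mem a.2 b.2, fun h' => hab (Subtype.ext (sub_eq_zero.1 h'))⟩
  obtain ⟨q, hq⟩ : ∃ q, y q ≠ 0 := by
    by_contra hcon
    push Not at hcon
    exact hy0 (funext hcon)
  have hq1 : y q = 1 := eq_one hq
  refine ⟨symmDiff J {q}, ?_⟩
  rw [← card_W]
  -- `W {q}` is `K` with `y q = 0`
  have hW : Nat.card (W (LJ Λ J) {q}) = Nat.card (Kv (KK (LJ Λ J)) q) := by
    symm
    refine Nat.card_congr (Equiv.ofBijective (fun y => (⟨(0, y.1), mem_W.2 ⟨(mem_Kv.1 y.2).1,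
      fun p hp => by rw [mem_singleton] at hp; rw [hp]; exact (mem_Kv.1 y.2).2,
      fun _ _ => rfl⟩⟩ : W (LJ Λ J) {q})) ⟨?_, ?_⟩)
    · intro a b hab
      exact Subtype.ext (congrArg (fun w => (Subtype.val w).2) hab)
    · rintro ⟨⟨x, z⟩, hw⟩
      obtain ⟨h1, h2, h3⟩ := mem_W.1 hw
      have h4 := Lag.bil hiso h1 (mem_KK.1 hy)
      unfold B at h4
      rw [Finset.sum_eq_single q] at h4
      · have h5 : x q = 0 := by
          simpa [hq1] using h4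
        have hx : x = 0 := by
          funext p
          by_cases hp : p = q
          · rw [hp]; exact h5
          · exact h3 p (by rw [mem_singleton]; exact hp)
        subst hx
        exact ⟨⟨z, mem_Kv.2 ⟨h1, h2 q (by simp)⟩⟩, rfl⟩
      · intro p _ hp
        have h5 : x p = 0 := h3 p (by rw [mem_singleton]; exact hp)
        simp [h5]
      · simp
  rw [hW]
  refine ⟨?_, card_Kv _ _⟩
  have h1 : Kv (KK (LJ Λ J)) q < KK (LJ Λ J) := by
    refine lt_of_le_of_ne inf_le_left fun h' => ?_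
    rw [← h'] at hy
    exact hq (mem_Kv.1 hy).2
  have h2 : (Kv (KK (LJ Λ J)) q : Set (ι → ZMod 2)) ⊂ (KK (LJ Λ J) : Set (ι → ZMod 2)) := h1
  have h3 := Set.ncard_lt_ncard h2 (Set.toFinite _)
  exact h3

end

open scoped Classical

theorem main (D : ℕ) : ∃ k₀ : ℕ, ∀ (ι : Type) [Fintype ι] (Λ : Submodule (ZMod 2) (ι → ZMod 2 × ZMod 2)),
    k₀ ≤ Fintype.card ι → (∀ l ∈ Λ, ∑ q, (l q).1 * (l q).2 = 0) →
    2 ^ Fintype.card ι ≤ Nat.card Λ →
    (∀ l ∈ Λ, l ≠ 0 → Fintype.card ι ≤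
      Nat.log 2 (Fintype.card ι) ^ 2 * (Finset.univ.filter fun q => l q ≠ 0).card) →
    ∃ J : Finset ι, N Λ J = 2 ^ D := by
  obtain ⟨k₀, hk₀⟩ := core (2 ^ D)
  refine ⟨k₀, fun ι _ Λ hk hiso hbig hw => ?_⟩
  have hne : (univ : Finset (Finset ι)).Nonempty := ⟨∅, mem_univ _⟩
  obtain ⟨J, -, hJ⟩ := exists_max_image univ (N Λ) hne
  obtain ⟨m, hm⟩ := pow_N Λ J
  have hmD : D ≤ m := by
    by_contra hcon
    push Not at hcon
    have hfr : finrank (ZMod 2) (LJ Λ J) = finrank (ZMod 2) Λ :=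
      (LinearEquiv.finrank_eq (Submodule.equivMapOfInjective (sw J) (sw_inj J) Λ)).symm
    refine hk₀ ι (LJ Λ J) hk ⟨?_, ?_, ?_⟩ ?_ ?_
    · rintro _ ⟨l, hl, rfl⟩
      rw [Q_sw]; exact hiso l hl
    · rw [hfr]
      rw [Module.natCard_eq_pow_finrank (K := ZMod 2), Nat.card_zmod] at hbig
      exact (Nat.pow_le_pow_iff_right (by norm_num)).1 hbig
    · intro I
      rw [card_KK', card_W]
      exact hJ _ (mem_univ _)
    · rw [card_KK', hm]
      exact Nat.pow_le_pow_right (by norm_num) hcon.le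
    · rintro _ ⟨l, hl, rfl⟩ hne'
      have h1 := hw l hl (fun h' => hne' (by rw [h', map_zero]))
      refine h1.trans (Nat.mul_le_mul_left _ (card_le_card ?_))
      intro q hq
      rw [mem_filter] at hq ⊢
      refine ⟨mem_univ _, ?_⟩
      rw [sw_fst, sw_snd]
      by_contra hcon'
      push Not at hcon'
      apply hq.2
      by_cases hqJ : q ∈ J
      · rw [if_pos hqJ, if_pos hqJ] at hcon'
        exact Prod.ext hcon'.2 hcon'.1
      · rw [if_neg hqJ, if_neg hqJ] at hcon'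
        exact Prod.ext hcon'.1 hcon'.2
  -- descend
  have hS : (univ.filter fun J => 2 ^ D ≤ N Λ J).Nonempty :=
    ⟨J, mem_filter.2 ⟨mem_univ _, by rw [hm]; exact Nat.pow_le_pow_right (by norm_num) hmD⟩⟩
  obtain ⟨J₁, hJ₁, hmin⟩ := exists_min_image _ (N Λ) hS
  rw [mem_filter] at hJ₁
  refine ⟨J₁, ?_⟩
  obtain ⟨m₁, hm₁⟩ := pow_N Λ J₁
  have h1 : D ≤ m₁ := by
    have := hJ₁.2
    rw [hm₁] at this
    exact (Nat.pow_le_pow_iff_right (by norm_num)).1 this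
  rcases h1.eq_or_lt with h2 | h2
  · rw [hm₁, h2]
  · exfalso
    have h3 : 1 < N Λ J₁ := by
      rw [hm₁]; exact Nat.one_lt_two_pow (by omega)
    obtain ⟨J', hJ1, hJ2⟩ := step hiso h3
    obtain ⟨m', hm'⟩ := pow_N Λ J'
    have h4 : m₁ ≤ m' + 1 := by
      rw [hm₁, hm', ← pow_succ'] at hJ2
      exact (Nat.pow_le_pow_iff_right (by norm_num)).1 hJ2
    have h5 := hmin J' (mem_filter.2 ⟨mem_univ _, by
      rw [hm']; exact Nat.pow_le_pow_right (by norm_num) (by omega)⟩)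
    omega

/-- **Stub COMB of project PR.** -/
theorem comb : ∀ D : ℕ, ∃ k₀ : ℕ, ∀ (ι : Type) [Fintype ι] (Λ : AddSubgroup (ι → ZMod 2 × ZMod 2)),
    k₀ ≤ Fintype.card ι → (∀ l ∈ Λ, ∑ q, (l q).1 * (l q).2 = 0) →
    2 ^ Fintype.card ι ≤ Nat.card Λ →
    (∀ l ∈ Λ, l ≠ 0 → Fintype.card ι ≤
      Nat.log 2 (Fintype.card ι) ^ 2 * (Finset.univ.filter fun q => l q ≠ 0).card) →
    ∃ J : Finset ι, Nat.card {l : ι → ZMod 2 × ZMod 2 // l ∈ Λ ∧ (∀ q ∈ J, (l q).2 = 0) ∧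
      ∀ q ∉ J, (l q).1 = 0} = 2 ^ D := by
  intro D
  obtain ⟨k₀, hk₀⟩ := main D
  refine ⟨k₀, fun ι _ Λ hk hiso hbig hw => ?_⟩
  exact hk₀ ι (AddSubgroup.toZModSubmodule 2 Λ) hk hiso hbig hw

end Pool.Agent.H93PR
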