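import Pool.Agent.N999.PF.Orb
import Pool.Agent.H93PR.Badq1

/-!
# Project PR, part BADQ: orbits of the unipotent group on pairs (after `N999/PF/Orb.lean`)
-/

set_option autoImplicit false
set_option linter.all false

open Polynomial Matrix NumberField
open scoped Classical

namespace Pool.Agent.H93PR

open Pool.Agent.N783.PF
open Pool.Agent.N783.PQ (chp form Dist eU)
open Pool.Agent.N352.PJ (Mt Typ)
open Pool.Agent.N530.PQ (op_act chp_act symm_act form_act Ix mem_ix)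
open Pool.Agent.N999.PF (Uni Par mat mat_uni mat_inj card_par X_act map_act map_unit free)
open Pool.Agent.H68K.PR (XsetQ LBadQ S_BADQ)

variable {F : Type} [Field F] [NumberField F] {g : ℕ}

theorem SA_act {S : Finset ℕ} {A U : Mt g (𝓞 F)} (hU : U.det = 1) :
    SA S (Uᵀ * A * U) = SA S A := by
  unfold SA Cop
  rw [Matrix.det_mul, Matrix.det_mul, Matrix.det_transpose, hU, one_mul, mul_one]

theorem XQ_act {κ : ℕ} (hκ : (2 * g + 1) ^ 2 ≤ 2 ^ κ) {c : ℕ} {S : Finset ℕ}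
    {𝔮 : ℕ → Ideal (𝓞 F)} {P : ℕ → (𝓞 F)[X]} {N : ℕ}
    {w : Fin (2 * g + 1) → ℤ} {A B U : Mt g (𝓞 F)} (hX : XsetQ g N c w S 𝔮 P A B) (hU : Uni w U) :
    XsetQ g (N + κ) (c + κ) w S 𝔮 P (Uᵀ * A * U) (Uᵀ * B * U) := by
  rw [xq_iff, SA_act hU.det]
  exact X_act hκ (xq_iff.1 hX) hU

/-- the constants are independent of `c` -/
theorem orbQ (hP : S_PTS) (F : Type) [Field F] [NumberField F] (g : ℕ) : ∃ κ C : ℕ, ∀ (c : ℕ)
    (S : Finset ℕ) (𝔮 : ℕ → Ideal (𝓞 F)) (P : ℕ → (𝓞 F)[X]) (N : ℕ)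
    (w : Fin (2 * g + 1) → ℤ), Typ g w →
    {p : Mt g (𝓞 F) × Mt g (𝓞 F) | XsetQ g (N + κ) (c + κ) w S 𝔮 P p.1 p.2}.Finite →
    {f : (𝓞 F)[X] | Irreducible (fF f) ∧ ∃ A B : Mt g (𝓞 F), XsetQ g N c w S 𝔮 P A B ∧
      chp (mF A) (mF B) = fF f}.ncard * 2 ^ (Module.finrank ℚ F * eU g w) ≤
    C * {p : Mt g (𝓞 F) × Mt g (𝓞 F) | XsetQ g (N + κ) (c + κ) w S 𝔮 P p.1 p.2}.ncard := by
  obtain ⟨-, C0, hC0, hC, -⟩ := hP F
  refine ⟨2 * (2 * g + 1), ⌈C0⌉₊ ^ Fintype.card (Ix g), ?_⟩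
  intro c S 𝔮 P N w hw hfin
  have hcard := card_par (F := F) (C := ⌈C0⌉₊) (fun R hR => (hC R hR).2.trans
    (mul_le_mul_of_nonneg_right (Nat.le_ceil C0) (Nat.cast_nonneg _))) hw
  have hκ : (2 * g + 1) ^ 2 ≤ 2 ^ (2 * (2 * g + 1)) := by
    rw [mul_comm 2 (2 * g + 1), pow_mul]
    exact Nat.pow_le_pow_left (Nat.lt_two_pow_self).le 2
  obtain ⟨κ, hκe⟩ : ∃ κ, κ = 2 * (2 * g + 1) := ⟨_, rfl⟩
  rw [← hκe] at hκ hfin ⊢
  have hfin' : Finite {p : Mt g (𝓞 F) × Mt g (𝓞 F) |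
    XsetQ g (N + κ) (c + κ) w S 𝔮 P p.1 p.2} := hfin.to_subtype
  refine (Nat.mul_le_mul_left _ hcard).trans ?_
  rw [Nat.mul_left_comm]
  refine Nat.mul_le_mul_left _ ?_
  rw [← Nat.card_coe_set_eq, ← Nat.card_prod, ← Nat.card_coe_set_eq]
  have hch : ∀ f : {f : (𝓞 F)[X] | Irreducible (fF f) ∧
      ∃ A B : Mt g (𝓞 F), XsetQ g N c w S 𝔮 P A B ∧ chp (mF A) (mF B) = fF f},
      ∃ A B : Mt g (𝓞 F), XsetQ g N c w S 𝔮 P A B ∧ chp (mF A) (mF B) = fF f.1 := fun f => f.2.2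
  choose A B hB1 hB2 using hch
  refine Nat.card_le_card_of_injective
    (fun z => (⟨((mat z.2)ᵀ * A z.1 * mat z.2, (mat z.2)ᵀ * B z.1 * mat z.2),
      XQ_act hκ (hB1 z.1) (mat_uni z.2)⟩ :
      {p : Mt g (𝓞 F) × Mt g (𝓞 F) | XsetQ g (N + κ) (c + κ) w S 𝔮 P p.1 p.2})) ?_
  rintro ⟨f, u⟩ ⟨f', u'⟩ he
  have h0 : ((mat u)ᵀ * A f * mat u, (mat u)ᵀ * B f * mat u) =
      ((mat u')ᵀ * A f' * mat u', (mat u')ᵀ * B f' * mat u') := congrArg Subtype.val he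
  have h4 : (mat u)ᵀ * A f * mat u = (mat u')ᵀ * A f' * mat u' := congrArg Prod.fst h0
  have h5 : (mat u)ᵀ * B f * mat u = (mat u')ᵀ * B f' * mat u' := congrArg Prod.snd h0
  have h6 : f = f' := by
    apply Subtype.ext
    apply Polynomial.map_injective (algebraMap (𝓞 F) F) RingOfIntegers.coe_injective
    have e1 := hB2 f
    have e2 := hB2 f'
    rw [← chp_act (A := mF (A f)) (B := mF (B f)) (map_unit (algebraMap (𝓞 F) F) (mat_uni u).det),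
      ← map_act, ← map_act, h4, h5, map_act, map_act,
      chp_act (map_unit (algebraMap (𝓞 F) F) (mat_uni u').det), e2] at e1
    exact e1.symm
  subst h6
  have h7 := free (A := A f) (B := B f) (by rw [hB2 f]; exact f.2.1) (mat_uni u)
    (mat_uni u') h4 h5
  rw [mat_inj h7]

end Pool.Agent.H93PR
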