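import Pool.Agent.N134.PF.Bad
import Pool.Agent.N490.PF.Pts
import Pool.Agent.N42.PF.CQ
import Pool.Agent.H93PR.Badq2

/-!
# Project PR, part BADQ: few bad polynomials (after `N134/PF/Bad.lean` of helper134)
-/

set_option autoImplicit false
set_option linter.all false

open Polynomial NumberField
open scoped Classical

namespace Pool.Agent.H93PR

open Pool.Agent.N352.PJ (Mt Typ dd)
open Pool.Agent.N783.PQ (chp form Dist Gap Mid Deep eA eB eU uu)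
open Pool.Agent.N783.PF
open Pool.Agent.N270.PJ (typ_mid typ_nonpos idx idx_inj min_le_sum geo growth ncard_biUnion_le)
open Pool.Agent.N850.PQ (gap_bd sum_idx_le_uu)
open Pool.Agent.H68K.PR (XsetQ LBadQ S_BADQ)

theorem bad_aux (F : Type) [Field F] [NumberField F] (g c W : ℕ) (hg : 1 ≤ g) {κ C1 C0 C2 : ℕ}
    {S : Finset ℕ} {𝔮 : ℕ → Ideal (𝓞 F)} {h P' : ℕ → (𝓞 F)[X]} (hS : GoodS g W S 𝔮 h P')
    (hκ : ∀ (N : ℕ) (w : Fin (2 * g + 1) → ℤ), Typ g w →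
      {p : Mt g (𝓞 F) × Mt g (𝓞 F) | XsetQ g (N + κ) (c + κ) w S 𝔮 P' p.1 p.2}.Finite →
      {f : (𝓞 F)[X] | Irreducible (fF f) ∧ ∃ A B : Mt g (𝓞 F), XsetQ g N c w S 𝔮 P' A B ∧
        chp (mF A) (mF B) = fF f}.ncard * 2 ^ (Module.finrank ℚ F * eU g w) ≤
      C2 * {p : Mt g (𝓞 F) × Mt g (𝓞 F) | XsetQ g (N + κ) (c + κ) w S 𝔮 P' p.1 p.2}.ncard)
    (hC1 : ∀ (N : ℕ) (w : Fin (2 * g + 1) → ℤ), Typ g w →
      ((∏ q ∈ S, q : ℕ) : ℝ) ≤ (2 : ℝ) ^ (2 * (N : ℤ) + 2 * w 0) →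
      2 ^ S.card * (∏ q ∈ S, q ^ (2 * g)) ^ Module.finrank ℚ F *
        {p : Mt g (𝓞 F) × Mt g (𝓞 F) | XsetQ g N (c + κ) w S 𝔮 P' p.1 p.2}.ncard ≤
      C1 * 2 ^ (Module.finrank ℚ F * (eA g w + 2 * N * dd g)))
    (hfin1 : ∀ (N : ℕ) (w : Fin (2 * g + 1) → ℤ),
      {p : Mt g (𝓞 F) × Mt g (𝓞 F) | XsetQ g N (c + κ) w S 𝔮 P' p.1 p.2}.Finite)
    (hfin0 : ∀ (N : ℕ) (w : Fin (2 * g + 1) → ℤ),
      {p : Mt g (𝓞 F) × Mt g (𝓞 F) | XsetQ g N c w S 𝔮 P' p.1 p.2}.Finite)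
    (hC0 : ∀ (N : ℕ) (w : Fin (2 * g + 1) → ℤ), Typ g w →
      2 ^ (Module.finrank ℚ F * (2 * N)) *
        {p : Mt g (𝓞 F) × Mt g (𝓞 F) | XsetQ g N (c + κ) w S 𝔮 P' p.1 p.2}.ncard ≤
      C0 * 2 ^ (Module.finrank ℚ F * (eA g w + eB g N w))) :
    ∃ N₀ : ℕ, ∀ N ≥ N₀, {f : (𝓞 F)[X] | LBadQ g N c S 𝔮 P' f}.Finite ∧
    2 ^ S.card * (∏ q ∈ S, q ^ (2 * g)) ^ Module.finrank ℚ F *
      {f : (𝓞 F)[X] | LBadQ g N c S 𝔮 P' f}.ncard ≤
    C2 * (C1 + C0) * 2 ^ (Module.finrank ℚ F * (2 * κ * dd g)) * 2 ^ (g + 1) *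
      2 ^ (Module.finrank ℚ F * (2 * N * dd g)) := by
  have h4 := Pool.Agent.N747.PQ.ide
  have h5 := Pool.Agent.N747.PQ.exp1
  obtain ⟨D, hD⟩ : ∃ D : ℕ, D = Module.finrank ℚ F := ⟨_, rfl⟩
  have hD1 : 1 ≤ D := by
    rw [hD]
    exact Module.finrank_pos
  rw [← hD] at hκ hC1 hC0
  rw [← hD]
  obtain ⟨A, hA⟩ : ∃ A : ℕ, A = 2 ^ S.card * (∏ q ∈ S, q ^ (2 * g)) ^ D := ⟨_, rfl⟩
  obtain ⟨Q, hQ⟩ : ∃ Q : ℕ, Q = ∏ q ∈ S, q := ⟨_, rfl⟩
  obtain ⟨δ, hδ⟩ : ∃ δ : ℕ, Q ≤ 2 ^ δ := ⟨Q, Nat.lt_two_pow_self.le⟩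
  obtain ⟨N₀, hN₀⟩ := growth A g (δ + c)
  refine ⟨N₀, fun N hN => ?_⟩
  obtain ⟨M, hM⟩ : ∃ M : ℕ, M = N + κ := ⟨_, rfl⟩
  obtain ⟨E, hE⟩ : ∃ E : ℕ, E = 2 * M * dd g := ⟨_, rfl⟩
  let P : (Fin (2 * g + 1) → ℤ) → Set (𝓞 F)[X] := fun w =>
    {f : (𝓞 F)[X] | Irreducible (fF f) ∧
      ∃ A B : Mt g (𝓞 F), XsetQ g N c w S 𝔮 P' A B ∧ chp (mF A) (mF B) = fF f}
  let X : (Fin (2 * g + 1) → ℤ) → Set (Mt g (𝓞 F) × Mt g (𝓞 F)) := fun w =>
    {p : Mt g (𝓞 F) × Mt g (𝓞 F) | XsetQ g M (c + κ) w S 𝔮 P' p.1 p.2}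
  have hXfin : ∀ w, Typ g w → (X w).Finite := fun w hw => hfin1 M w
  -- the pairs in the small box
  have hPfin : ∀ w, Typ g w → (P w).Finite := by
    intro w hw
    have hfi := (hfin0 N w).image
      (fun p : Mt g (𝓞 F) × Mt g (𝓞 F) => chp (mF p.1) (mF p.2))
    have hinjF : Function.Injective (fun f : (𝓞 F)[X] => fF f) :=
      Polynomial.map_injective _ (IsFractionRing.injective (𝓞 F) F)
    refine (hfi.preimage (hinjF.injOn)).subset ?_
    rintro f ⟨_, A, B, hB, hf⟩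
    exact ⟨(A, B), hB, hf⟩
  -- the types
  let T : Set (Fin (2 * g + 1) → ℤ) := {w | Typ g w ∧ Gap g N w ∧ Mid g N w}
  have hidx : ∀ w ∈ T, idx w ∈ Fintype.piFinset fun _ : Fin g => Finset.range (2 * g * N + 1) := by
    intro w hw
    rw [Fintype.mem_piFinset]
    intro i
    rw [Finset.mem_range]
    have h5 := gap_bd hw.1 hw.2.1 (g - i) ⟨i, by omega⟩
      (by show (i : ℕ) + (g - i) = g; omega)
    have h6 : (2 : ℤ) * N * ((g - i : ℕ) : ℤ) ≤ 2 * N * g := by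
      refine mul_le_mul_of_nonneg_left ?_ (by positivity)
      omega
    have h7 : (2 : ℤ) * N * g = ((2 * g * N : ℕ) : ℤ) := by
      push_cast
      ring
    have h8 := h5.trans (h6.trans_eq h7)
    unfold idx
    omega
  have hinj : Set.InjOn (idx (g := g)) T := fun w hw w' hw' hww =>
    idx_inj hw.1 hw'.1 hww
  have hTfin : T.Finite := by
    refine Set.Finite.of_finite_image ?_ hinj
    refine (Finset.finite_toSet
      (Fintype.piFinset fun _ : Fin g => Finset.range (2 * g * N + 1))).subset ?_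
    rintro _ ⟨w, hw, rfl⟩
    exact hidx w hw
  obtain ⟨V, hV⟩ : ∃ V : Finset (Fin (2 * g + 1) → ℤ), V = hTfin.toFinset := ⟨_, rfl⟩
  have hVm : ∀ w, w ∈ V ↔ w ∈ T := fun w => by rw [hV, Set.Finite.mem_toFinset]
  have hsub : {f : (𝓞 F)[X] | LBadQ g N c S 𝔮 P' f} ⊆ ⋃ w ∈ V, P w := by
    rintro f ⟨hf, w, hw, hr, hmd, hB⟩
    rw [Set.mem_iUnion₂]
    exact ⟨w, (hVm w).2 ⟨hw, hr, hmd⟩, hf, hB⟩
  have hfin : (⋃ w ∈ V, P w).Finite :=
    Set.Finite.biUnion (Finset.finite_toSet _) fun w hw =>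
      hPfin w ((hVm w).1 (Finset.mem_coe.1 hw)).1
  have hle : {f : (𝓞 F)[X] | LBadQ g N c S 𝔮 P' f}.ncard ≤ ∑ w ∈ V, (P w).ncard :=
    (Set.ncard_le_ncard hsub hfin).trans (ncard_biUnion_le P V)
  obtain ⟨C, hC⟩ : ∃ C : ℕ, C = C2 * (C1 + C0) := ⟨_, rfl⟩
  have hC21 : C2 * C1 ≤ C := by
    rw [hC]
    exact Nat.mul_le_mul_left _ (by omega)
  have hC20 : C2 * C0 ≤ C := by
    rw [hC]
    exact Nat.mul_le_mul_left _ (by omega)
  -- each term
  have hterm : ∀ w ∈ V, (A : ℝ) * ((P w).ncard : ℝ) ≤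
      (C * 2 ^ (D * E) : ℝ) *
        (∏ i, (1 / 2 : ℝ) ^ idx w i + 1 / ((2 * g * N + 1 : ℕ) : ℝ) ^ g) := by
    intro w hwV
    have hw := (hVm w).1 hwV
    have ho : (P w).ncard * 2 ^ (D * eU g w) ≤ C2 * (X w).ncard := by
      have := hκ N w hw.1 (by rw [← hM]; exact hXfin w hw.1)
      rw [← hM] at this
      exact this
    have hide := h4 g w hw.1
    have hE0 : (0 : ℝ) ≤ (C * 2 ^ (D * E) : ℝ) := by positivity
    have hgapM : Gap g M w := fun i j hij => (hw.2.1 i j hij).trans (by rw [hM]; push_cast; omega)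
    by_cases hc : ((∏ q ∈ S, q : ℕ) : ℝ) ≤ (2 : ℝ) ^ (2 * (M : ℤ) + 2 * w 0)
    · have hb := hC1 M w hw.1 hc
      rw [← hA, ← hE] at hb
      have key : A * (P w).ncard * 2 ^ (∑ i, idx w i) ≤ C * 2 ^ (D * E) := by
        have hk1 : A * (P w).ncard * 2 ^ (D * uu g w) * 2 ^ (D * eA g w) ≤
            C2 * C1 * 2 ^ (D * E) * 2 ^ (D * eA g w) := by
          calc A * (P w).ncard * 2 ^ (D * uu g w) * 2 ^ (D * eA g w)
              = A * ((P w).ncard * 2 ^ (D * eU g w)) := by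
                rw [hide, mul_add, pow_add]; ring
            _ ≤ A * (C2 * (X w).ncard) := Nat.mul_le_mul_left _ ho
            _ = C2 * (A * (X w).ncard) := by ring
            _ ≤ C2 * (C1 * 2 ^ (D * (eA g w + E))) := Nat.mul_le_mul_left _ hb
            _ = _ := by rw [mul_add, pow_add]; ring
        have hk2 : A * (P w).ncard * 2 ^ (D * uu g w) ≤ C2 * C1 * 2 ^ (D * E) :=
          Nat.le_of_mul_le_mul_right hk1 (by positivity)
        have hk3 : ∑ i, idx w i ≤ D * uu g w :=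
          (sum_idx_le_uu hw.1).trans (Nat.le_mul_of_pos_left _ hD1)
        calc A * (P w).ncard * 2 ^ (∑ i, idx w i) ≤ A * (P w).ncard * 2 ^ (D * uu g w) :=
              Nat.mul_le_mul_left _ (Nat.pow_le_pow_right (by omega) hk3)
          _ ≤ C2 * C1 * 2 ^ (D * E) := hk2
          _ ≤ C * 2 ^ (D * E) := Nat.mul_le_mul_right _ hC21
      have key' : (A : ℝ) * ((P w).ncard : ℝ) * 2 ^ (∑ i, idx w i) ≤
          C * (2 : ℝ) ^ (D * E) := by
        exact_mod_cast key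
      have h8 : ∏ i, (1 / 2 : ℝ) ^ idx w i = 1 / 2 ^ (∑ i, idx w i) := by
        rw [Finset.prod_pow_eq_pow_sum, one_div_pow]
      rw [h8]
      have h9 : (A : ℝ) * ((P w).ncard : ℝ) ≤
          (C * 2 ^ (D * E) : ℝ) * (1 / 2 ^ (∑ i, idx w i)) := by
        rw [mul_one_div, le_div_iff₀ (by positivity)]
        exact key'
      refine h9.trans (mul_le_mul_of_nonneg_left ?_ hE0)
      have : (0 : ℝ) ≤ 1 / ((2 * g * N + 1 : ℕ) : ℝ) ^ g := by positivity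
      linarith
    · have hb := hC0 M w hw.1
      have h50 : w 0 ≤ 0 := typ_nonpos hw.1 0 (by simp)
      -- the depth of the first step
      have hdep : (M : ℤ) - δ ≤ - w 0 := by
        by_contra hcon
        push Not at hcon
        apply hc
        have h51 : (δ : ℤ) ≤ 2 * (M : ℤ) + 2 * w 0 := by omega
        calc ((∏ q ∈ S, q : ℕ) : ℝ) ≤ (2 : ℝ) ^ δ := by rw [← hQ]; exact_mod_cast hδ
          _ = (2 : ℝ) ^ (δ : ℤ) := by rw [zpow_natCast]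
          _ ≤ _ := zpow_le_zpow_right₀ (by norm_num) h51
      -- the exponent
      have hexp : eB g M w + (N - (δ + c)) ≤ 2 * M + E + uu g w := by
        have hE7 : (E : ℤ) = 2 * M * dd g := by rw [hE]; push_cast; ring
        have hMN : (M : ℤ) = N + κ := by rw [hM]; push_cast; ring
        have hmid : Mid g M w := fun i hi => (hw.2.2 i hi).trans (by rw [hM]; push_cast; omega)
        have he := h5 g M w hg hw.1 hgapM hmid
        have hm := min_le_sum M hg hw.1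
        have h55 : ((N - (δ + c) : ℕ) : ℤ) ≤ min (- w 0) M := by
          refine le_min ?_ ?_ <;> omega
        omega
      have h7 : (P w).ncard * 2 ^ (D * (N - (δ + c))) ≤ C * 2 ^ (D * E) := by
        have h8 : (P w).ncard * 2 ^ (D * (N - (δ + c))) * 2 ^ (D * (2 * M + eA g w + uu g w)) ≤
            C * 2 ^ (D * E) * 2 ^ (D * (2 * M + eA g w + uu g w)) := by
          calc (P w).ncard * 2 ^ (D * (N - (δ + c))) * 2 ^ (D * (2 * M + eA g w + uu g w))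
              = 2 ^ (D * (N - (δ + c))) * (2 ^ (D * (2 * M)) * ((P w).ncard * 2 ^ (D * eU g w))) := by
                rw [hide, mul_add, mul_add, mul_add, pow_add, pow_add, pow_add]; ring
            _ ≤ 2 ^ (D * (N - (δ + c))) * (2 ^ (D * (2 * M)) * (C2 * (X w).ncard)) :=
                Nat.mul_le_mul_left _ (Nat.mul_le_mul_left _ ho)
            _ = C2 * (2 ^ (D * (N - (δ + c))) * (2 ^ (D * (2 * M)) * (X w).ncard)) := by ring
            _ ≤ C2 * (2 ^ (D * (N - (δ + c))) * (C0 * 2 ^ (D * (eA g w + eB g M w)))) :=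
                Nat.mul_le_mul_left _ (Nat.mul_le_mul_left _ hb)
            _ = C2 * C0 * (2 ^ (D * eA g w) * 2 ^ (D * (eB g M w + (N - (δ + c))))) := by
                rw [mul_add, mul_add, pow_add, pow_add]; ring
            _ ≤ C2 * C0 * (2 ^ (D * eA g w) * 2 ^ (D * (2 * M + E + uu g w))) :=
                Nat.mul_le_mul_left _ (Nat.mul_le_mul_left _
                  (Nat.pow_le_pow_right (by omega) (Nat.mul_le_mul_left _ hexp)))
            _ = C2 * C0 * 2 ^ (D * E) * 2 ^ (D * (2 * M + eA g w + uu g w)) := by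
                rw [mul_add, mul_add, mul_add, mul_add, pow_add, pow_add, pow_add, pow_add]; ring
            _ ≤ C * 2 ^ (D * E) * 2 ^ (D * (2 * M + eA g w + uu g w)) :=
                Nat.mul_le_mul_right _ (Nat.mul_le_mul_right _ hC20)
        exact Nat.le_of_mul_le_mul_right h8 (by positivity)
      have key : A * (P w).ncard * (2 * g * N + 1) ^ g ≤ C * 2 ^ (D * E) := by
        calc A * (P w).ncard * (2 * g * N + 1) ^ g = (P w).ncard * (A * (2 * g * N + 1) ^ g) := by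
              ring
          _ ≤ (P w).ncard * 2 ^ (N - (δ + c)) := Nat.mul_le_mul_left _ (hN₀ N hN)
          _ ≤ (P w).ncard * 2 ^ (D * (N - (δ + c))) := Nat.mul_le_mul_left _
              (Nat.pow_le_pow_right (by omega) (Nat.le_mul_of_pos_left _ hD1))
          _ ≤ C * 2 ^ (D * E) := h7
      have key' : (A : ℝ) * ((P w).ncard : ℝ) * ((2 * g * N + 1 : ℕ) : ℝ) ^ g ≤
          C * (2 : ℝ) ^ (D * E) := by
        exact_mod_cast key
      have h9 : (A : ℝ) * ((P w).ncard : ℝ) ≤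
          (C * 2 ^ (D * E) : ℝ) * (1 / ((2 * g * N + 1 : ℕ) : ℝ) ^ g) := by
        rw [mul_one_div, le_div_iff₀ (by positivity)]
        exact key'
      refine h9.trans (mul_le_mul_of_nonneg_left ?_ hE0)
      have : (0 : ℝ) ≤ ∏ i, (1 / 2 : ℝ) ^ idx w i := Finset.prod_nonneg fun i _ => by positivity
      linarith
  -- the sum
  have hs1 : ∑ w ∈ V, ∏ i, (1 / 2 : ℝ) ^ idx w i ≤ 2 ^ g := by
    have hVi : Set.InjOn (idx (g := g)) (V : Set _) := fun w hw w' hw' hww =>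
      hinj ((hVm w).1 (Finset.mem_coe.1 hw)) ((hVm w').1 (Finset.mem_coe.1 hw')) hww
    calc ∑ w ∈ V, ∏ i, (1 / 2 : ℝ) ^ idx w i =
        ∑ s ∈ V.image idx, ∏ i, (1 / 2 : ℝ) ^ s i := by rw [Finset.sum_image hVi]
      _ ≤ ∑ s ∈ Fintype.piFinset fun _ : Fin g => Finset.range (2 * g * N + 1),
          ∏ i, (1 / 2 : ℝ) ^ s i := by
        refine Finset.sum_le_sum_of_subset_of_nonneg ?_ fun s _ _ =>
          Finset.prod_nonneg fun i _ => by positivity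
        intro s hs
        rw [Finset.mem_image] at hs
        obtain ⟨w, hw, rfl⟩ := hs
        exact hidx w ((hVm w).1 hw)
      _ = ∏ i : Fin g, ∑ m ∈ Finset.range (2 * g * N + 1), (1 / 2 : ℝ) ^ m := by
        rw [Finset.prod_univ_sum]
      _ ≤ ∏ i : Fin g, (2 : ℝ) := Finset.prod_le_prod
          (fun i _ => Finset.sum_nonneg fun m _ => by positivity) fun i _ => geo _
      _ = 2 ^ g := by simp
  have hs2 : ∑ w ∈ V, 1 / ((2 * g * N + 1 : ℕ) : ℝ) ^ g ≤ 1 := by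
    have hcard : V.card ≤ (2 * g * N + 1) ^ g := by
      have h5 := Finset.card_le_card_of_injOn (s := V)
        (t := Fintype.piFinset fun _ : Fin g => Finset.range (2 * g * N + 1)) idx
        (fun w hw => hidx w ((hVm w).1 (Finset.mem_coe.1 hw)))
        (fun w hw w' hw' hww =>
          hinj ((hVm w).1 (Finset.mem_coe.1 hw)) ((hVm w').1 (Finset.mem_coe.1 hw')) hww)
      refine h5.trans_eq ?_
      rw [Fintype.card_piFinset]
      simp
    rw [Finset.sum_const, nsmul_eq_mul, mul_one_div, div_le_one (by positivity)]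
    exact_mod_cast hcard
  have hsum : (A : ℝ) * ({f : (𝓞 F)[X] | LBadQ g N c S 𝔮 P' f}.ncard : ℝ) ≤
      C * 2 ^ (g + 1) * (2 : ℝ) ^ (D * E) := by
    have h5 : ({f : (𝓞 F)[X] | LBadQ g N c S 𝔮 P' f}.ncard : ℝ) ≤
        ∑ w ∈ V, ((P w).ncard : ℝ) := by exact_mod_cast hle
    have h10 : (1 : ℝ) ≤ 2 ^ g := one_le_pow₀ (by norm_num)
    calc (A : ℝ) * ({f : (𝓞 F)[X] | LBadQ g N c S 𝔮 P' f}.ncard : ℝ) ≤
        A * ∑ w ∈ V, ((P w).ncard : ℝ) := mul_le_mul_of_nonneg_left h5 (Nat.cast_nonneg A)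
      _ = ∑ w ∈ V, (A : ℝ) * ((P w).ncard : ℝ) := Finset.mul_sum _ _ _
      _ ≤ ∑ w ∈ V, (C * 2 ^ (D * E) : ℝ) *
          (∏ i, (1 / 2 : ℝ) ^ idx w i + 1 / ((2 * g * N + 1 : ℕ) : ℝ) ^ g) :=
          Finset.sum_le_sum hterm
      _ = (C * 2 ^ (D * E) : ℝ) * (∑ w ∈ V, ∏ i, (1 / 2 : ℝ) ^ idx w i +
            ∑ w ∈ V, 1 / ((2 * g * N + 1 : ℕ) : ℝ) ^ g) := by
          rw [← Finset.mul_sum, Finset.sum_add_distrib]
      _ ≤ (C * 2 ^ (D * E) : ℝ) * (2 ^ g + 1) :=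
          mul_le_mul_of_nonneg_left (add_le_add hs1 hs2) (by positivity)
      _ ≤ (C * 2 ^ (D * E) : ℝ) * (2 ^ g + 2 ^ g) :=
          mul_le_mul_of_nonneg_left (by linarith) (by positivity)
      _ = _ := by ring
  have hsum' : A * {f : (𝓞 F)[X] | LBadQ g N c S 𝔮 P' f}.ncard ≤
      C * 2 ^ (g + 1) * 2 ^ (D * E) := by
    exact_mod_cast hsum
  refine ⟨hfin.subset hsub, ?_⟩
  rw [← hA]
  refine hsum'.trans (le_of_eq ?_)
  have hE8 : D * E = D * (2 * κ * dd g) + D * (2 * N * dd g) := by rw [hE, hM]; ring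
  rw [hE8, pow_add, hC]
  ring


/-- BADQ -/
theorem badq : S_BADQ := by
  intro F _ _ g hg
  obtain ⟨C₀, hC⟩ := Pool.Agent.N456.PF.pts Pool.Agent.N490.PF.pts F
  obtain ⟨κ, C2, hκ⟩ := orbQ Pool.Agent.N490.PF.pts F g
  obtain ⟨D, hD⟩ : ∃ D : ℕ, D = Module.finrank ℚ F := ⟨_, rfl⟩
  obtain ⟨β, hβ⟩ : ∃ β : ℕ, β = 2 * g * D + 1 + D * (dd g + 1) := ⟨_, rfl⟩
  obtain ⟨E, hE⟩ : ∃ E : ℕ, E = C2 * (2 * C₀ ^ (2 * dd g + 1)) := ⟨_, rfl⟩
  refine ⟨E + κ * β + D * (2 * κ * dd g) + (g + 1), β, 0, fun c W S 𝔮 h P _ hS => ?_⟩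
  have h1 := bad_aux F g c W hg (κ := κ)
    (C1 := C₀ ^ (2 * dd g + 1) * 2 ^ ((c + κ) * β))
    (C0 := C₀ ^ (2 * dd g + 1) * 2 ^ ((c + κ) * β)) (C2 := C2) hS
    (fun N w => hκ c S 𝔮 P N w)
    (fun N w hw hQ => by
      have h2 := pbQ (c := c + κ) hC Pool.Agent.N42.PF.cqa Pool.Agent.N42.PF.cqb hg hS hw hQ
      rw [← hD, ← hβ] at h2
      rw [← hD]
      exact h2)
    (fun N w => finQ hC) (fun N w => finQ hC)
    (fun N w hw => by
      have h2 := pb0Q (N := N) (c := c + κ) (S := S) (𝔮 := 𝔮) (P := P) hC hw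
      rw [← hD] at h2 ⊢
      refine h2.trans (Nat.mul_le_mul_right _ (Nat.mul_le_mul_left _ (Nat.pow_le_pow_right
        (by norm_num) (Nat.mul_le_mul_left _ ?_))))
      rw [hβ]
      omega)
  obtain ⟨N₀, hN₀⟩ := h1
  refine ⟨N₀, fun N hN => ⟨(hN₀ N hN).1, (hN₀ N hN).2.trans ?_⟩⟩
  rw [← hD]
  apply Nat.mul_le_mul_right
  calc C2 * (C₀ ^ (2 * dd g + 1) * 2 ^ ((c + κ) * β) + C₀ ^ (2 * dd g + 1) * 2 ^ ((c + κ) * β)) *
        2 ^ (D * (2 * κ * dd g)) * 2 ^ (g + 1)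
      = E * 2 ^ ((c + κ) * β) * 2 ^ (D * (2 * κ * dd g)) * 2 ^ (g + 1) := by rw [hE]; ring
    _ ≤ 2 ^ E * 2 ^ ((c + κ) * β) * 2 ^ (D * (2 * κ * dd g)) * 2 ^ (g + 1) := by
        have := (Nat.lt_two_pow_self (n := E)).le
        gcongr
    _ = 2 ^ (E + κ * β + D * (2 * κ * dd g) + (g + 1) + β * c) := by
        rw [← pow_add, ← pow_add, ← pow_add]
        congr 1
        ring

end Pool.Agent.H93PR
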