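import Pool.Agent.H93PR.Count
import Pool.Agent.H93PR.Exg
import Pool.Agent.H93PR.Badq3
import Pool.Agent.H68K.PR.LBQ
import Pool.Agent.N783.PF.Final

/-!
# Project PR, part COUNT: the count with all the parts of project PF inserted
-/

set_option autoImplicit false
set_option linter.all false

namespace Pool.Agent.H93PR

open Pool.Agent.H68K.PR (S_CORE2 S_CNTB)
open Pool.Agent.N783.PF (bad sqf int)

/-- COUNT from the core. -/
theorem cntb' (hK : S_CORE2) : S_CNTB :=
  cntb hK (Pool.Agent.H68K.PR.lbq Pool.Agent.N707.PF.MAJ.maj Pool.Agent.N482.PF.sq int) badq exg bad sqf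
    Pool.Agent.N352.PF.famT Pool.Agent.N667.PF.irr Pool.Agent.N667.PF.gen Pool.Agent.N490.PF.pts

end Pool.Agent.H93PR
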