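import Pool.Agent.H68K.PR.StmU
import Pool.Agent.H93PR.Count4

/-!
# Project PR, phase 3, part COUNT5: the law in balanced boxes, for all large `S` which are not too sparse,
with explicit constants
-/

set_option autoImplicit false
set_option linter.all false

open Polynomial IsDedekindDomain NumberField
open scoped Classical

namespace Pool.Agent.H93PR

open Pool.Agent.N783.PF
open Pool.Agent.H68K.PR
open Pool.Agent.N352.PJ (dd)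
open Pool.Agent.N874.PP (Ev Sq1 U0)

/-- The discriminant is prime to `W * ∏ q ∈ S, q`. -/
lemma okN {F : Type} [Field F] [NumberField F] (hdsc : S_DSC) {W : ℕ} {S : Finset ℕ}
    {𝔮 : ℕ → Ideal (𝓞 F)} {h P : ℕ → (𝓞 F)[X]} {f₁ : (𝓞 F)[X]} (hf₁ : GoodF 1 W f₁)
    (hS : GoodS 1 W S 𝔮 h P) {a b : 𝓞 F} (ha : a - f₁.coeff 1 ∈ sp F W)
    (hb : b - f₁.coeff 0 ∈ sp F W) (ha' : ∀ q ∈ S, a - (P q).coeff 1 ∈ sp F q)
    (hb' : ∀ q ∈ S, b - (P q).coeff 0 ∈ sp F q) : OkN (W * ∏ q ∈ S, q) a b := by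
  have hcub1 : Cub f₁ := ⟨hf₁.mon, hf₁.deg, hf₁.tr⟩
  refine ⟨Nat.mul_pos hf₁.pos (Finset.prod_pos fun q hq => (hS q hq).1.pos), fun 𝔭 hp hN => ?_⟩
  rw [Nat.cast_mul] at hN
  rcases hp.mem_or_mem hN with h1 | h1
  · have hp0 : 𝔭 ≠ ⊥ := by
      rintro rfl
      have : ((W : ℕ) : 𝓞 F) = 0 := by simpa using h1
      exact hf₁.pos.ne' (by exact_mod_cast this)
    have hcg : Cg 𝔭 (pl (a, b)) f₁ := by
      rw [cg_iff (cub_pl _) hcub1, pl1, pl0]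
      have hle : sp F W ≤ 𝔭 := by
        rw [Ideal.span_singleton_le_iff_mem]
        exact h1
      exact ⟨hle ha, hle hb⟩
    have := hdsc F 1 𝔭 (pl (a, b)) f₁ le_rfl hp hp0 (pl_mon _) (pl_nd _) hcg (hf₁.sep 𝔭 hp h1)
    rwa [dsc_cub (cub_pl _), pl1, pl0] at this
  · rw [Nat.cast_prod] at h1
    obtain ⟨q, hq, h2⟩ := Ideal.IsPrime.prod_mem_iff.1 h1
    exact (okS hdsc hS ha' hb' q hq).2.2.2.2 𝔭 hp h2

/-- COUNT5 -/
theorem bal5 (hLaw : S_LAW4) (hBin : S_BIN) (hCore : S_CORE3) (hL : S_LBT) (hBT : S_BADT)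
    (hfam : S_FAMU) (hscl : S_SCLS) (hbad : S_BAD) (hsqf : S_SQF) (hirr : S_IRR)
    (hgen : S_GEN) (hpts : S_PTS) (hdsc : S_DSC) : S_BAL5 := by
  intro F _ _
  obtain ⟨n, hn⟩ : ∃ n : ℕ, n = Module.finrank ℚ F := ⟨_, rfl⟩
  have hdd : dd 1 = 5 := rfl
  obtain ⟨κ, β, hlb⟩ := hL F
  obtain ⟨C, β', K, hbt⟩ := hBT F
  obtain ⟨κ₂, hsq⟩ := hsqf 1 F le_rfl
  obtain ⟨C₂, K₂, hbd⟩ := hbad F 1 κ₂ le_rfl
  obtain ⟨W, f₁, hKW, c, hc, hfamc⟩ := hfam F (max (max κ K) (max κ₂ K₂))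
  have hW1 : κ ≤ W := ((le_max_left _ _).trans (le_max_left _ _)).trans hKW
  have hW2 : K ≤ W := ((le_max_right _ _).trans (le_max_left _ _)).trans hKW
  have hW3 : κ₂ ≤ W := ((le_max_left _ _).trans (le_max_right _ _)).trans hKW
  have hW4 : K₂ ≤ W := ((le_max_right _ _).trans (le_max_right _ _)).trans hKW
  have hf₁u : ∀ u : (𝓞 F)ˣ, GoodF 1 W (scl u f₁) := fun u => (hfamc u).1
  have hscl1 : scl (1 : (𝓞 F)ˣ) f₁ = f₁ := by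
    ext j
    rw [scl, coeff_scaleRoots]
    simp
  have hf₁ : GoodF 1 W f₁ := by
    have := hf₁u 1
    rwa [hscl1] at this
  refine ⟨W, c / 2, hf₁.pos, by positivity, fun ε δ hε hδ => ?_⟩
  obtain ⟨A₀, hA₀⟩ : ∃ A₀ : ℕ, A₀ = C + β' * κ + (2 + κ) * (5 * n) := ⟨_, rfl⟩
  obtain ⟨D₁, hD₁⟩ : ∃ D₁ : ℕ, 2 ^ A₀ / (δ * c / 4) < (2 : ℝ) ^ D₁ :=
    pow_unbounded_of_one_lt _ (by norm_num)
  obtain ⟨m₀, hLaw⟩ := hLaw ε hε D₁
  refine ⟨m₀, fun m hm₀ => ?_⟩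
  obtain ⟨η, n₀, hη, hmn, hlaw⟩ := hLaw m hm₀
  obtain ⟨s₁, hks₁, hs₁⟩ := num3 (1 + A₀) (m + 3 * m * (β' * β + 1 + 2 * n + 5 * n * β))
    (max n₀ D₁) (ρ := η ^ 2 / 2) (τ := δ * c / 4) (by positivity) (by positivity)
  obtain ⟨s₂, hs₂⟩ := exists_nat_ge (2 * m / η)
  obtain ⟨s₃, hs₃⟩ : ∃ s₃ : ℕ, 2 ^ (C₂ + (2 + κ₂) * (5 * n)) / (c / 2) < (2 : ℝ) ^ s₃ :=
    pow_unbounded_of_one_lt _ (by norm_num)
  refine ⟨max s₁ (max s₂ s₃), fun S 𝔮 h P hS hcard hS3 => ?_⟩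
  have hc1 : s₁ ≤ S.card := (le_max_left _ _).trans hcard
  have hc2 : s₂ ≤ S.card := ((le_max_left _ _).trans (le_max_right _ _)).trans hcard
  have hc3 : s₃ ≤ S.card := ((le_max_right _ _).trans (le_max_right _ _)).trans hcard
  have hn0 : n₀ ≤ S.card := ((le_max_left _ _).trans hks₁).trans hc1
  have hD0 : D₁ ≤ S.card := ((le_max_right _ _).trans hks₁).trans hc1
  have hbig : 2 * m / η ≤ (S.card : ℝ) := hs₂.trans (by exact_mod_cast hc2)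
  have hnum := hs₁ S.card hc1
  have hq1 : ∀ q ∈ S, 1 ≤ q := fun q hq => (hS q hq).1.pos
  have hSp : ∀ q ∈ S, q.Prime := fun q hq => (hS q hq).1
  obtain ⟨Z₀, hZ₀, hZc⟩ := Finset.exists_subset_card_eq hD0
  obtain ⟨l, hl⟩ : ∃ l : ℕ, l = 3 * m * (Nat.log 2 S.card + 1) := ⟨_, rfl⟩
  have hml : m ≤ l := by
    rw [hl, mul_assoc, mul_left_comm]
    exact Nat.le_mul_of_pos_right _ (by positivity)
  have hprod : ∀ Q ⊆ S, Q.card ≤ m → ∏ q ∈ Q, q ≤ 2 ^ l := by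
    intro Q hQS hQm
    rw [hl]
    exact prod_small hQS hS3 hQm hq1
  have hcub1 : Cub f₁ := ⟨hf₁.mon, hf₁.deg, hf₁.tr⟩
  have hcubP : ∀ q ∈ S, Cub (P q) := by
    intro q hq
    obtain ⟨-, -, -, -, -, -, -, -, -, -, h11, h12, h13, -, -⟩ := hS q hq
    exact ⟨h11, h12, h13⟩
  have hWc : ∀ q ∈ S, Nat.Coprime W q := by
    intro q hq
    exact (Nat.coprime_of_lt_prime hf₁.pos.ne' (hS q hq).2.1 (hS q hq).1).symm
  obtain ⟨a, ha, ha'⟩ := crt W S hSp hWc (f₁.coeff 1) (fun q => (P q).coeff 1)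
  obtain ⟨b, hb, hb'⟩ := crt W S hSp hWc (f₁.coeff 0) (fun q => (P q).coeff 0)
  set Pn : ℕ := (∏ q ∈ S, q ^ 2) ^ n with hPn
  have hPn0 : (0 : ℝ) < Pn := by
    have : 0 < Pn := pow_pos (Finset.prod_pos fun q hq => pow_pos (hq1 q hq) _) _
    exact_mod_cast this
  refine ⟨a, b, okN hdsc hf₁ hS ha hb ha' hb', fun u => ?_⟩
  have hSu := hscl F W u S 𝔮 h P hS
  obtain ⟨Pu, hPu⟩ : ∃ Pu : ℕ → (𝓞 F)[X], Pu = fun q => scl u (P q) := ⟨_, rfl⟩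
  obtain ⟨hu, hhu⟩ : ∃ hu : ℕ → (𝓞 F)[X], hu = fun q => scl u (h q) := ⟨_, rfl⟩
  rw [← hPu, ← hhu] at hSu
  obtain ⟨N₂, hN₂⟩ := hbd W S 𝔮 hu Pu hW4 hSu
  obtain ⟨B₁₀, hB₁₀⟩ := (hfamc u).2 S 𝔮 hu Pu hSu
  obtain ⟨B₁, hB₁⟩ := few (n := n) (by rw [hn]; exact hbt) hW2 hSu (Finset.empty_subset _)
    (Z := Z₀) (U := ∅) (by rwa [Finset.sdiff_empty]) (Finset.empty_subset _)
    (Finset.disjoint_empty_right _) (l := 0) (by simp) (by simp) (κ + β * 0)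
  have hT2 : ∀ x : Finset ℕ × Finset ℕ, ∃ B₀ : ℕ, x ∈ TT S m η → ∀ B ≥ B₀, 1 ≤ B → ∃ N : ℕ,
      2 ^ (κ + β * l) * B ≤ 4 ^ N ∧
      {f : (𝓞 F)[X] | LBadT N (κ + β * l) (S \ x.1) ((S \ x.1) \ x.2) x.2 𝔮 Pu f}.Finite ∧
      2 ^ S.card * Pn *
          {f : (𝓞 F)[X] | LBadT N (κ + β * l) (S \ x.1) ((S \ x.1) \ x.2) x.2 𝔮 Pu f}.ncard ≤
        2 ^ (A₀ + l * (β' * β + 1 + 2 * n + 5 * n * β)) * B ^ (5 * n) := by
    intro x
    by_cases hx : x ∈ TT S m η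
    · rw [TT, Finset.mem_filter, Finset.mem_product, Finset.mem_filter, Finset.mem_filter,
        Finset.mem_powerset, Finset.mem_powerset] at hx
      obtain ⟨⟨⟨hx1, hx2⟩, -⟩, hx3⟩ := hx
      obtain ⟨B₀, hB₀⟩ := few (n := n) (by rw [hn]; exact hbt) hW2 hSu hx1
        (Z := (S \ x.1) \ x.2) (U := x.2) Finset.sdiff_subset hx3
        Finset.sdiff_disjoint (l := l) (hx2.trans hml) (hprod _ hx1 hx2) (κ + β * l)
      refine ⟨B₀, fun _ B hB hB1 => ?_⟩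
      obtain ⟨N, h1, h2, h3⟩ := hB₀ B hB hB1
      refine ⟨N, h1, h2, ?_⟩
      have e1 : ((S \ x.1) \ x.2).card + x.2.card + x.1.card = S.card := by
        rw [Finset.card_sdiff_add_card_eq_card hx3, Finset.card_sdiff_add_card_eq_card hx1]
      have e2 : C + β' * (κ + β * l) + l + 2 * l * n + (2 + (κ + β * l)) * (5 * n) =
          A₀ + l * (β' * β + 1 + 2 * n + 5 * n * β) := by
        rw [hA₀]
        ring
      rw [e1, e2, ← hPn] at h3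
      exact h3
    · exact ⟨0, fun h => absurd h hx⟩
  choose B₂ hB₂ using hT2
  refine ⟨max (max B₁₀ (4 ^ N₂)) (max (max B₁ ((TT S m η).sup B₂)) 1), fun B hB => ?_⟩
  have hb1 : 1 ≤ B := ((le_max_right _ _).trans (le_max_right _ _)).trans hB
  have hb2 : B₁₀ ≤ B := ((le_max_left _ _).trans (le_max_left _ _)).trans hB
  have hb3 : 4 ^ N₂ ≤ B := ((le_max_right _ _).trans (le_max_left _ _)).trans hB
  have hb4 : B₁ ≤ B := (((le_max_left _ _).trans (le_max_left _ _)).trans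
    (le_max_right _ _)).trans hB
  have hb5 : (TT S m η).sup B₂ ≤ B := (((le_max_right _ _).trans (le_max_left _ _)).trans
    (le_max_right _ _)).trans hB
  -- the sets
  obtain ⟨NZ, hNZ1, hNZ2⟩ := exN κ₂ B hb1
  obtain ⟨hbf2, hbc2⟩ := hN₂ NZ (exN_ge hNZ1 hb3)
  obtain ⟨N₁, hN₁, hT1f, hT1c⟩ := hB₁ B hb4 hb1
  have hT3 : ∀ x : Finset ℕ × Finset ℕ, ∃ N : ℕ, x ∈ TT S m η → 2 ^ (κ + β * l) * B ≤ 4 ^ N ∧
      {f : (𝓞 F)[X] | LBadT N (κ + β * l) (S \ x.1) ((S \ x.1) \ x.2) x.2 𝔮 Pu f}.Finite ∧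
      2 ^ S.card * Pn *
          {f : (𝓞 F)[X] | LBadT N (κ + β * l) (S \ x.1) ((S \ x.1) \ x.2) x.2 𝔮 Pu f}.ncard ≤
        2 ^ (A₀ + l * (β' * β + 1 + 2 * n + 5 * n * β)) * B ^ (5 * n) := by
    intro x
    by_cases hx : x ∈ TT S m η
    · obtain ⟨N, hN⟩ := hB₂ x hx B ((Finset.le_sup hx).trans hb5) hb1
      exact ⟨N, fun _ => hN⟩
    · exact ⟨0, fun h => absurd h hx⟩
  choose N₃ hN₃ using hT3
  obtain ⟨ZZ, hZZ⟩ : ∃ ZZ : Set ((𝓞 F)[X]), ZZ = {f : (𝓞 F)[X] | LBad 1 NZ κ₂ S 𝔮 Pu f} := ⟨_, rfl⟩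
  obtain ⟨T1, hT1⟩ : ∃ T1 : Set ((𝓞 F)[X]), T1 =
    {f : (𝓞 F)[X] | LBadT N₁ (κ + β * 0) (S \ ∅) Z₀ ∅ 𝔮 Pu f} := ⟨_, rfl⟩
  obtain ⟨X2, hX2⟩ : ∃ X2 : Finset ℕ × Finset ℕ → Set ((𝓞 F)[X]), X2 = fun x =>
    {f : (𝓞 F)[X] | LBadT (N₃ x) (κ + β * l) (S \ x.1) ((S \ x.1) \ x.2) x.2 𝔮 Pu f} := ⟨_, rfl⟩
  obtain ⟨T2, hT2⟩ : ∃ T2 : Set ((𝓞 F)[X]), T2 = ⋃ x ∈ TT S m η, X2 x := ⟨_, rfl⟩
  obtain ⟨M, hM⟩ : ∃ M : Set ((𝓞 F)[X]), M = {f | Mem B W (scl u f₁) S Pu f} := ⟨_, rfl⟩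
  obtain ⟨M', hM'⟩ : ∃ M' : Set ((𝓞 F)[X]), M' = {f | Mem B W (scl u f₁) S Pu f ∧
    ¬ LawQ S m₀ m ε (f.coeff 1, f.coeff 0)} := ⟨_, rfl⟩
  have hHtf : {f : (𝓞 F)[X] | Ht 1 B f}.Finite := by
    obtain ⟨-, Cq, hCq, -, hpt⟩ := hpts F
    exact (Pool.Agent.N99.PF.ht_card hCq hpt 1 B hb1).1
  have hMf : M.Finite := hHtf.subset fun f hf => by
    rw [hM] at hf
    exact hf.ht
  have hBp : (0 : ℝ) ≤ (B : ℝ) ^ (5 * n) := by positivity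
  -- the number of the members
  have hZb : (Pn : ℝ) * ZZ.ncard ≤ c / 2 * (B : ℝ) ^ (5 * n) := by
    rw [hdd, ← hn] at hbc2
    have h2 := bq_bound (t := S.card) (s := S.card) (u := 0) (l := 0) (P2 := 1) (R := C₂)
      (X := ZZ.ncard) (n := n) (N := NZ)
      (c' := κ₂) (B := B) (P1 := ∏ q ∈ S, q ^ (2 * 1)) rfl (Nat.zero_le _)
      (by simp) (by
        rw [hZZ]
        refine hbc2.trans (Nat.mul_le_mul_right _ ?_)
        exact (Nat.lt_two_pow_self).le) hNZ2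
    rw [mul_one] at h2
    have h3 : (2 : ℝ) ^ S.card * Pn * ZZ.ncard ≤
        2 ^ (C₂ + (2 + κ₂) * (5 * n)) * (B : ℝ) ^ (5 * n) := by
      have e : C₂ + 0 + 2 * 0 * n + (2 + κ₂) * (5 * n) = C₂ + (2 + κ₂) * (5 * n) := by ring
      rw [e] at h2
      exact_mod_cast h2
    have h4 : (2 : ℝ) ^ (C₂ + (2 + κ₂) * (5 * n)) ≤ (c / 2) * 2 ^ S.card := by
      rw [div_lt_iff₀ (by positivity)] at hs₃
      calc (2 : ℝ) ^ (C₂ + (2 + κ₂) * (5 * n)) ≤ 2 ^ s₃ * (c / 2) := hs₃.le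
        _ ≤ 2 ^ S.card * (c / 2) := by
            gcongr
            norm_num
        _ = (c / 2) * 2 ^ S.card := by ring
    have h5 : (2 : ℝ) ^ S.card * (Pn * ZZ.ncard) ≤
        2 ^ S.card * (c / 2 * (B : ℝ) ^ (5 * n)) := by
      calc (2 : ℝ) ^ S.card * (Pn * ZZ.ncard) = 2 ^ S.card * Pn * ZZ.ncard := by ring
        _ ≤ 2 ^ (C₂ + (2 + κ₂) * (5 * n)) * (B : ℝ) ^ (5 * n) := h3
        _ ≤ ((c / 2) * 2 ^ S.card) * (B : ℝ) ^ (5 * n) := mul_le_mul_of_nonneg_right h4 hBp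
        _ = 2 ^ S.card * (c / 2 * (B : ℝ) ^ (5 * n)) := by ring
    exact le_of_mul_le_mul_left h5 (by positivity)
  have hlow : c / 2 * (B : ℝ) ^ (5 * n) ≤ Pn * (M.ncard : ℝ) := by
    have h1 := hB₁₀ B hb2
    rw [← hn, mul_comm n 5] at h1
    have h2 : {f : (𝓞 F)[X] | Fam 1 B W (scl u f₁) S Pu f} \ ZZ ⊆ M := by
      rintro f ⟨hf, hfZ⟩
      have hf' : Fam 1 B W (scl u f₁) S Pu f := hf
      have hirr0 : Irreducible (fF f) :=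
        hirr F 1 W (scl u f₁) f (hf₁u u) hf'.one hf'.ht.mon hf'.ht.deg
      have hnZ : ¬ LBad 1 NZ κ₂ S 𝔮 Pu f := fun h0 => hfZ (by rw [hZZ]; exact h0)
      have hsq0 : SqF 1 f := hsq B NZ W (scl u f₁) S 𝔮 hu Pu f hW3 (hf₁u u) hSu hf' hirr0
        hNZ1 hb1 hnZ
      rw [hM]
      exact ⟨hf'.ht, hf'.one, hf'.con, hsq0⟩
    have h3 := Set.le_ncard_diff ZZ {f : (𝓞 F)[X] | Fam 1 B W (scl u f₁) S Pu f}
      (by rw [hZZ]; exact hbf2)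
    have h4 := Set.ncard_le_ncard h2 hMf
    have h5 : ({f : (𝓞 F)[X] | Fam 1 B W (scl u f₁) S Pu f}.ncard : ℝ) ≤ ZZ.ncard + M.ncard := by
      have : {f : (𝓞 F)[X] | Fam 1 B W (scl u f₁) S Pu f}.ncard ≤ ZZ.ncard + M.ncard := by omega
      exact_mod_cast this
    have h6 : c * (B : ℝ) ^ (5 * n) ≤ Pn * (ZZ.ncard + M.ncard : ℝ) :=
      h1.trans (mul_le_mul_of_nonneg_left h5 hPn0.le)
    linarith
  -- the exceptions
  have hsub : M' ⊆ T1 ∪ T2 := by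
    intro f hf
    rw [hM'] at hf
    rcases bad_of4 hlb hCore hgen hirr hη hlaw hW1 (hf₁u u) hSu hZ₀ hZc hn0 hbig hprod hN₁
      (N₂ := N₃) (fun x hx => (hN₃ x hx).1) hf.1 hf.2 with h1 | ⟨x, hx, h1⟩
    · left
      rw [hT1]
      exact h1
    · right
      rw [hT2]
      refine Set.mem_biUnion (x := x) hx ?_
      rw [hX2]
      exact h1
  have hT1b : (Pn : ℝ) * T1.ncard ≤ δ * c / 4 * (B : ℝ) ^ (5 * n) := by
    have h2 : (2 : ℝ) ^ D₁ * Pn * T1.ncard ≤ 2 ^ A₀ * (B : ℝ) ^ (5 * n) := by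
      have e1 : Z₀.card + (∅ : Finset ℕ).card + (∅ : Finset ℕ).card = D₁ := by
        simp [hZc]
      have e2 : C + β' * (κ + β * 0) + 0 + 2 * 0 * n + (2 + (κ + β * 0)) * (5 * n) = A₀ := by
        rw [hA₀]
        ring
      rw [e1, e2, ← hPn, ← hT1] at hT1c
      exact_mod_cast hT1c
    have h4 : (2 : ℝ) ^ A₀ ≤ (δ * c / 4) * 2 ^ D₁ := by
      rw [div_lt_iff₀ (by positivity)] at hD₁
      linarith
    have h5 : (2 : ℝ) ^ D₁ * (Pn * T1.ncard) ≤ 2 ^ D₁ * (δ * c / 4 * (B : ℝ) ^ (5 * n)) := by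
      calc (2 : ℝ) ^ D₁ * (Pn * T1.ncard) = 2 ^ D₁ * Pn * T1.ncard := by ring
        _ ≤ 2 ^ A₀ * (B : ℝ) ^ (5 * n) := h2
        _ ≤ ((δ * c / 4) * 2 ^ D₁) * (B : ℝ) ^ (5 * n) := mul_le_mul_of_nonneg_right h4 hBp
        _ = 2 ^ D₁ * (δ * c / 4 * (B : ℝ) ^ (5 * n)) := by ring
    exact le_of_mul_le_mul_left h5 (by positivity)
  have hT2b : (Pn : ℝ) * T2.ncard ≤ δ * c / 4 * (B : ℝ) ^ (5 * n) := by
    have h1 := union3 (TT S m η) X2 (2 ^ S.card * Pn)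
      (2 ^ (A₀ + l * (β' * β + 1 + 2 * n + 5 * n * β)) * (B : ℝ) ^ (5 * n)) _ (by positivity)
      (fun x hx => by
        have h2 := (hN₃ x hx).2.2
        rw [hX2]
        exact_mod_cast h2) (by positivity) (TT_card hBin S m hη)
    rw [← hT2] at h1
    have h5 : (2 : ℝ) ^ S.card * (Pn * T2.ncard) ≤
        2 ^ S.card * (δ * c / 4 * (B : ℝ) ^ (5 * n)) := by
      calc (2 : ℝ) ^ S.card * (Pn * T2.ncard) = 2 ^ S.card * Pn * T2.ncard := by ring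
        _ ≤ _ := h1
        _ = 2 ^ S.card * ((2 : ℝ) ^ (1 + A₀ + (m + 3 * m * (β' * β + 1 + 2 * n + 5 * n * β)) *
              (Nat.log 2 S.card + 1)) * Real.exp (-(η ^ 2 / 2 * S.card)) * (B : ℝ) ^ (5 * n)) := by
            have e : 1 + A₀ + (m + 3 * m * (β' * β + 1 + 2 * n + 5 * n * β)) *
              (Nat.log 2 S.card + 1) = m * (Nat.log 2 S.card + 1) + 1 +
                (A₀ + l * (β' * β + 1 + 2 * n + 5 * n * β)) := by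
              rw [hl]
              ring
            have e' : (2 : ℝ) ^ (1 + A₀ + (m + 3 * m * (β' * β + 1 + 2 * n + 5 * n * β)) *
              (Nat.log 2 S.card + 1)) = 2 ^ (m * (Nat.log 2 S.card + 1)) * 2 *
                2 ^ (A₀ + l * (β' * β + 1 + 2 * n + 5 * n * β)) := by
              rw [e, pow_add, pow_succ]
            rw [e']
            ring
        _ ≤ 2 ^ S.card * (δ * c / 4 * (B : ℝ) ^ (5 * n)) := by
            refine mul_le_mul_of_nonneg_left (mul_le_mul_of_nonneg_right hnum hBp) (by positivity)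
    exact le_of_mul_le_mul_left h5 (by positivity)
  have hT1f' : T1.Finite := by rw [hT1]; exact hT1f
  have hT2f : T2.Finite := by
    rw [hT2]
    refine Set.Finite.biUnion (Finset.finite_toSet _) fun x hx => ?_
    rw [hX2]
    exact (hN₃ x hx).2.1
  have hup : (Pn : ℝ) * M'.ncard ≤ δ * (c / 2 * (B : ℝ) ^ (5 * n)) := by
    have h1 : M'.ncard ≤ T1.ncard + T2.ncard :=
      (Set.ncard_le_ncard hsub (hT1f'.union hT2f)).trans (Set.ncard_union_le _ _)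
    have h2 : (M'.ncard : ℝ) ≤ T1.ncard + T2.ncard := by exact_mod_cast h1
    have h3 : (Pn : ℝ) * M'.ncard ≤ Pn * (T1.ncard + T2.ncard) :=
      mul_le_mul_of_nonneg_left h2 hPn0.le
    linarith
  -- from polynomials to pairs
  have hmi := mem_iff (B := B) hSp hWc hcub1 hcubP ha ha' hb hb' u
  rw [← hPu] at hmi
  have hset1 : {p : 𝓞 F × 𝓞 F | Bd (p.1 : F) ((B : ℝ) ^ 2) ∧ Bd (p.2 : F) ((B : ℝ) ^ 3) ∧
        InFam (W * ∏ q ∈ S, q) ((u : 𝓞 F) ^ 4 * a) ((u : 𝓞 F) ^ 6 * b) p} =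
      {p : 𝓞 F × 𝓞 F | pl p ∈ M} := by
    ext p
    rw [Set.mem_setOf_eq, hmi p, hM]
    rfl
  have hset2 : {p : 𝓞 F × 𝓞 F | Bd (p.1 : F) ((B : ℝ) ^ 2) ∧ Bd (p.2 : F) ((B : ℝ) ^ 3) ∧
        InFam (W * ∏ q ∈ S, q) ((u : 𝓞 F) ^ 4 * a) ((u : 𝓞 F) ^ 6 * b) p ∧ ¬ LawQ S m₀ m ε p} =
      {p : 𝓞 F × 𝓞 F | pl p ∈ M'} := by
    ext p
    have h1 := hmi p
    rw [Set.mem_setOf_eq, Set.mem_setOf_eq, hM', Set.mem_setOf_eq, pl1, pl0, ← h1]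
    tauto
  rw [hset1, hset2, ncard_pl (T := M) (fun f hf => by
      rw [hM] at hf
      exact (ht_iff.1 hf.ht).1), ncard_pl (T := M') (fun f hf => by
      rw [hM'] at hf
      exact (ht_iff.1 hf.1.ht).1), ← hn]
  exact ⟨hlow, hup⟩

end Pool.Agent.H93PR
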