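import Pool.Agent.H93PR.Primes
import Pool.Agent.N710.PF.Exs
import Pool.Agent.H68K.PR.StmU

/-!
# Project PR, phase 3, part EXW: many primes of nearly equal size, and squares in the same interval
-/

set_option autoImplicit false
set_option linter.all false

open scoped Classical

namespace Pool.Agent.H93PR

section num

open Finset Filter

theorem tp_div (M : ℕ) : ¬ Summable (fun n : ℕ => if TP M n then Real.log n / (n : ℝ) else 0) := by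
  intro h1
  apply ArithmeticFunction.vonMangoldt.not_summable_residueClass_prime_div (q := 8) (a := 1) isUnit_one
  refine (summable_congr_cofinite ?_).1 h1
  have h2 : ∀ᶠ n : ℕ in cofinite, M < n := by
    rw [Nat.cofinite_eq_atTop]
    exact eventually_gt_atTop M
  filter_upwards [h2] with n hn
  by_cases hp : n.Prime
  · rw [if_pos hp]
    unfold ArithmeticFunction.vonMangoldt.residueClass
    have h8 : n % 8 = 1 ↔ ((n : ℕ) : ZMod 8) = 1 := by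
      have h3 := ZMod.natCast_eq_natCast_iff' n 1 8
      rw [Nat.cast_one] at h3
      rw [h3]
    by_cases h3 : n % 8 = 1
    · rw [if_pos (show TP M n from ⟨hp, hn, h3⟩), Set.indicator_of_mem (by exact h8.1 h3),
        ArithmeticFunction.vonMangoldt_apply_prime hp]
    · have h4 : n ∉ {n : ℕ | ((n : ℕ) : ZMod 8) = 1} := fun h => h3 (h8.2 h)
      rw [if_neg (fun h : TP M n => h3 h.2.2), Set.indicator_of_notMem h4, zero_div]
  · rw [if_neg hp, if_neg (fun h : TP M n => hp h.1), zero_div]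

/-- the primes in the interval -/
noncomputable def NN (M : ℕ) (η : ℝ) (Q : ℕ) : Finset ℕ :=
  (Icc Q ⌊(1 + η) * Q⌋₊).filter (TP M)

theorem inner {η : ℝ} (h0 : 0 < η) (h1 : η ≤ 1) {q : ℕ} (hq : 1 ≤ q) :
    η / (1 + η) * (Real.log q / q) ≤
      ∑ Q ∈ Icc ⌈(q : ℝ) / (1 + η)⌉₊ q, Real.log (2 * Q) / (Q : ℝ) ^ 2 := by
  have hq' : (1 : ℝ) ≤ q := by exact_mod_cast hq
  have hlog : 0 ≤ Real.log q := Real.log_nonneg hq'
  have h2 : ∀ Q ∈ Icc ⌈(q : ℝ) / (1 + η)⌉₊ q,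
      Real.log q / (q : ℝ) ^ 2 ≤ Real.log (2 * Q) / (Q : ℝ) ^ 2 := by
    intro Q hQ
    rw [mem_Icc] at hQ
    have h3 : (q : ℝ) / (1 + η) ≤ Q := Nat.ceil_le.1 hQ.1
    have h4 : (Q : ℝ) ≤ q := by exact_mod_cast hQ.2
    have h5 : (q : ℝ) ≤ 2 * Q := by
      rw [div_le_iff₀ (by linarith)] at h3
      have h6 : (0 : ℝ) ≤ Q := Nat.cast_nonneg _
      nlinarith
    have h6 : (0 : ℝ) < Q := by linarith
    have h7 := Real.log_le_log (by linarith) h5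
    exact div_le_div₀ (hlog.trans h7) h7 (by positivity) (by gcongr)
  have hx0 : (0 : ℝ) ≤ (q : ℝ) / (1 + η) := by positivity
  have hx1 : (q : ℝ) / (1 + η) ≤ q := div_le_self (by linarith) (by linarith)
  have h3 := Finset.card_nsmul_le_sum (Icc ⌈(q : ℝ) / (1 + η)⌉₊ q) _ _ h2
  refine le_trans ?_ h3
  rw [Nat.card_Icc, nsmul_eq_mul, Nat.cast_sub ((Nat.ceil_le.2 hx1).trans (Nat.le_succ _))]
  have h4 : (q : ℝ) * (η / (1 + η)) ≤ ((q + 1 : ℕ) : ℝ) - (⌈(q : ℝ) / (1 + η)⌉₊ : ℝ) := by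
    have h5 := Nat.ceil_lt_add_one hx0
    have h6 : (q : ℝ) * (η / (1 + η)) = q - q / (1 + η) := by
      field_simp
      ring
    rw [h6]
    push_cast
    linarith
  calc η / (1 + η) * (Real.log q / q) = ((q : ℝ) * (η / (1 + η))) * (Real.log q / (q : ℝ) ^ 2) := by
        field_simp
    _ ≤ _ := mul_le_mul_of_nonneg_right h4 (by positivity)

theorem outer (M : ℕ) {η : ℝ} (h0 : 0 < η) (h1 : η ≤ 1) (X : ℕ) :
    ∑ q ∈ range X, (if TP M q then η / (1 + η) * (Real.log q / q) else 0) ≤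
      ∑ Q ∈ range X, ((NN M η Q).card : ℝ) * (Real.log (2 * Q) / (Q : ℝ) ^ 2) := by
  rw [← sum_filter]
  calc ∑ q ∈ (range X).filter (TP M), η / (1 + η) * (Real.log q / q) ≤
      ∑ q ∈ (range X).filter (TP M), ∑ Q ∈ Icc ⌈(q : ℝ) / (1 + η)⌉₊ q,
        Real.log (2 * Q) / (Q : ℝ) ^ 2 := by
        refine sum_le_sum fun q hq => inner h0 h1 ?_
        rw [mem_filter] at hq
        exact hq.2.1.one_lt.le
    _ = ∑ Q ∈ range X, ∑ q ∈ (NN M η Q).filter (· < X), Real.log (2 * Q) / (Q : ℝ) ^ 2 := by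
        refine Finset.sum_comm' fun q Q => ?_
        rw [mem_filter, mem_range, mem_Icc, mem_filter, NN, mem_filter, mem_Icc, mem_range,
          Nat.ceil_le, div_le_iff₀ (by linarith), Nat.le_floor_iff (by positivity),
          mul_comm (Q : ℝ)]
        constructor
        · rintro ⟨⟨a, b⟩, c, d⟩
          exact ⟨⟨⟨⟨d, c⟩, b⟩, a⟩, d.trans_lt a⟩
        · rintro ⟨⟨⟨⟨d, c⟩, b⟩, a⟩, -⟩
          exact ⟨⟨a, b⟩, c, d⟩
    _ ≤ _ := by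
        refine sum_le_sum fun Q _ => ?_
        rw [sum_const, nsmul_eq_mul]
        refine mul_le_mul_of_nonneg_right (by exact_mod_cast card_filter_le _ _) ?_
        rcases Nat.eq_zero_or_pos Q with h | h
        · subst h
          simp
        · have : (1 : ℝ) ≤ Q := by exact_mod_cast h
          exact div_nonneg (Real.log_nonneg (by linarith)) (by positivity)

theorem exists_Q (M : ℕ) {η : ℝ} (h0 : 0 < η) (h1 : η ≤ 1) :
    ∃ Q : ℕ, 1 ≤ Q ∧ (Q : ℝ) ^ (2 / 5 : ℝ) ≤ ((NN M η Q).card : ℝ) := by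
  by_contra hcon
  push Not at hcon
  have hs : Summable fun n : ℕ => 4 * (1 / ((n : ℕ) : ℝ) ^ (11 / 10 : ℝ)) :=
    (Real.summable_one_div_nat_rpow.2 (by norm_num)).mul_left 4
  have hb : ∀ X : ℕ, ∑ q ∈ range X, (if TP M q then η / (1 + η) * (Real.log q / q) else 0) ≤
      ∑' n : ℕ, 4 * (1 / ((n : ℕ) : ℝ) ^ (11 / 10 : ℝ)) := by
    intro X
    refine (outer M h0 h1 X).trans (le_trans (sum_le_sum fun Q _ => ?_)
      (hs.sum_le_tsum (range X) fun n _ => by positivity))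
    rcases Nat.eq_zero_or_pos Q with h | h
    · subst h
      simp
    · have hQ : (1 : ℝ) ≤ Q := by exact_mod_cast h
      have hQ0 : (0 : ℝ) < Q := by linarith
      have h2 := (hcon Q h).le
      have h3 : Real.log (2 * Q) ≤ 4 * (Q : ℝ) ^ (1 / 2 : ℝ) := by
        have h4 := log_le (x := 2 * (Q : ℝ)) (by positivity)
        rw [div_le_div_iff₀ (by positivity) (by positivity)] at h4
        have h5 : (2 * (Q : ℝ)) = (2 * Q) ^ (1 / 2 : ℝ) * (2 * Q) ^ (1 / 2 : ℝ) := by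
          rw [← Real.rpow_add (by positivity)]; norm_num
        have h6 : 0 < (2 * (Q : ℝ)) ^ (1 / 2 : ℝ) := by positivity
        have h7 : Real.log (2 * Q) ≤ 2 * (2 * (Q : ℝ)) ^ (1 / 2 : ℝ) := by
          refine le_of_mul_le_mul_right ?_ h6
          calc Real.log (2 * Q) * (2 * (Q : ℝ)) ^ (1 / 2 : ℝ) ≤ 2 * (2 * (Q : ℝ)) := h4
            _ = 2 * (2 * (Q : ℝ)) ^ (1 / 2 : ℝ) * (2 * (Q : ℝ)) ^ (1 / 2 : ℝ) := by
                rw [mul_assoc, ← h5]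
        refine h7.trans ?_
        rw [Real.mul_rpow (by norm_num) hQ0.le]
        have h8 : (2 : ℝ) ^ (1 / 2 : ℝ) ≤ 2 := by
          calc (2 : ℝ) ^ (1 / 2 : ℝ) ≤ 2 ^ (1 : ℝ) :=
                Real.rpow_le_rpow_of_exponent_le (by norm_num) (by norm_num)
            _ = 2 := Real.rpow_one 2
        have h9 : 0 ≤ (Q : ℝ) ^ (1 / 2 : ℝ) := by positivity
        nlinarith
      have h4 : (0 : ℝ) ≤ Real.log (2 * Q) := Real.log_nonneg (by linarith)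
      calc ((NN M η Q).card : ℝ) * (Real.log (2 * Q) / (Q : ℝ) ^ 2) ≤
          (Q : ℝ) ^ (2 / 5 : ℝ) * (4 * (Q : ℝ) ^ (1 / 2 : ℝ) / (Q : ℝ) ^ 2) := by
            gcongr
        _ = 4 * (1 / (Q : ℝ) ^ (11 / 10 : ℝ)) := by
            have e1 : (Q : ℝ) ^ 2 = (Q : ℝ) ^ (2 / 5 : ℝ) * (Q : ℝ) ^ (1 / 2 : ℝ) *
                (Q : ℝ) ^ (11 / 10 : ℝ) := by
              rw [← Real.rpow_add hQ0, ← Real.rpow_add hQ0, ← Real.rpow_natCast]
              norm_num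
            rw [e1]
            have e2 : 0 < (Q : ℝ) ^ (2 / 5 : ℝ) := by positivity
            have e3 : 0 < (Q : ℝ) ^ (1 / 2 : ℝ) := by positivity
            have e4 : 0 < (Q : ℝ) ^ (11 / 10 : ℝ) := by positivity
            field_simp
  have hsum := summable_of_sum_range_le (fun q => by
    split_ifs with h
    · have : (1 : ℝ) ≤ q := by exact_mod_cast h.1.one_lt.le
      have := Real.log_nonneg this
      positivity
    · exact le_rfl) hb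
  refine tp_div M ((hsum.mul_left ((1 + η) / η)).congr fun q => ?_)
  split_ifs
  · field_simp
  · rw [mul_zero]

/-- the parameters -/
theorem exists_SR (M i m : ℕ) {η : ℝ} (h0 : 0 < η) : ∃ (S R : Finset ℕ) (Q : ℕ),
    (∀ q ∈ S, TP M q) ∧ m ≤ S.card ∧ (∀ q ∈ S, q ≤ S.card ^ 3) ∧ 0 < Q ∧
    (∀ q ∈ S, Q ≤ q ∧ (q : ℝ) ≤ (1 + η) * Q) ∧
    (∀ s ∈ R, Q ≤ s ^ 2 ∧ (s : ℝ) ^ 2 ≤ (1 + η) * Q) ∧ S.card = i + (i + 1) * R.card := by
  obtain ⟨η', hη', hη'0, hη'1⟩ : ∃ η' : ℝ, η' ≤ η ∧ 0 < η' ∧ η' ≤ 1 :=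
    ⟨min η 1, min_le_left _ _, lt_min h0 one_pos, min_le_right _ _⟩
  -- large numbers
  have hev : ∀ᶠ x : ℝ in atTop, 1 ≤ x ∧ (4 * i + 3 : ℝ) ≤ x ^ (1 / 15 : ℝ) ∧
      15 / η' ≤ x ^ (1 / 6 : ℝ) ∧ (m : ℝ) ≤ x ^ (1 / 3 : ℝ) := by
    filter_upwards [eventually_ge_atTop (1 : ℝ),
      (tendsto_rpow_atTop (y := (1 / 15 : ℝ)) (by norm_num)).eventually_ge_atTop (4 * i + 3 : ℝ),
      (tendsto_rpow_atTop (y := (1 / 6 : ℝ)) (by norm_num)).eventually_ge_atTop (15 / η'),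
      (tendsto_rpow_atTop (y := (1 / 3 : ℝ)) (by norm_num)).eventually_ge_atTop (m : ℝ)]
      with x a b c d
    exact ⟨a, b, c, d⟩
  obtain ⟨x₀, hx₀⟩ := eventually_atTop.1 hev
  obtain ⟨Q₀, hQ₀⟩ := exists_nat_ge x₀
  obtain ⟨Q, hQ1, hQ⟩ := exists_Q (max M (2 * Q₀)) hη'0 hη'1
  have hQ1' : (1 : ℝ) ≤ Q := by exact_mod_cast hQ1
  have hQpos : (0 : ℝ) < Q := by linarith
  have hNN : ∀ q ∈ NN (max M (2 * Q₀)) η' Q, TP M q ∧ 2 * Q₀ < q ∧ Q ≤ q ∧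
      (q : ℝ) ≤ (1 + η') * Q := by
    intro q hq
    rw [NN, mem_filter, mem_Icc, Nat.le_floor_iff (by positivity)] at hq
    obtain ⟨⟨h1, h2⟩, h3, h4, h5⟩ := hq
    exact ⟨⟨h3, (le_max_left _ _).trans_lt h4, h5⟩, (le_max_right _ _).trans_lt h4, h1, h2⟩
  have hcard : 0 < (NN (max M (2 * Q₀)) η' Q).card := by
    have h1 : (1 : ℝ) ≤ (Q : ℝ) ^ (2 / 5 : ℝ) := Real.one_le_rpow hQ1' (by norm_num)
    have : (0 : ℝ) < (NN (max M (2 * Q₀)) η' Q).card := by linarith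
    exact_mod_cast this
  obtain ⟨q₁, hq₁⟩ := Finset.card_pos.1 hcard
  have hQQ : (Q₀ : ℝ) ≤ Q := by
    obtain ⟨-, h2, h3, h4⟩ := hNN q₁ hq₁
    have h5 : (2 * Q₀ : ℝ) < q₁ := by exact_mod_cast h2
    nlinarith
  obtain ⟨-, hc1, hc2, hc3⟩ := hx₀ Q (hQ₀.trans hQQ)
  -- the number of the squares
  obtain ⟨k, hk⟩ : ∃ k : ℕ, k = ⌈(2 * (Q : ℝ)) ^ (1 / 3 : ℝ)⌉₊ := ⟨_, rfl⟩
  have hk1 : (2 * (Q : ℝ)) ^ (1 / 3 : ℝ) ≤ k := by rw [hk]; exact Nat.le_ceil _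
  have hy1 : (1 : ℝ) ≤ (Q : ℝ) ^ (1 / 3 : ℝ) := Real.one_le_rpow hQ1' (by norm_num)
  have hk2 : (k : ℝ) ≤ 3 * (Q : ℝ) ^ (1 / 3 : ℝ) := by
    have h1 : (k : ℝ) < (2 * (Q : ℝ)) ^ (1 / 3 : ℝ) + 1 := by
      rw [hk]; exact Nat.ceil_lt_add_one (by positivity)
    rw [Real.mul_rpow (by norm_num) hQpos.le] at h1
    have h8 : (2 : ℝ) ^ (1 / 3 : ℝ) ≤ 2 := by
      calc (2 : ℝ) ^ (1 / 3 : ℝ) ≤ 2 ^ (1 : ℝ) :=
            Real.rpow_le_rpow_of_exponent_le (by norm_num) (by norm_num)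
        _ = 2 := Real.rpow_one 2
    nlinarith
  have hkQ : 2 * Q ≤ k ^ 3 := by
    have h1 : ((2 * (Q : ℝ)) ^ (1 / 3 : ℝ)) ^ 3 = 2 * Q := by
      rw [← Real.rpow_natCast, ← Real.rpow_mul (by positivity)]
      norm_num
    have h2 : (2 * (Q : ℝ)) ≤ (k : ℝ) ^ 3 := by
      rw [← h1]
      exact pow_le_pow_left₀ (by positivity) hk1 3
    exact_mod_cast h2
  have hmk : m ≤ k := by
    have h1 : (m : ℝ) ≤ k := by
      refine hc3.trans (le_trans ?_ hk1)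
      exact Real.rpow_le_rpow hQpos.le (by linarith) (by norm_num)
    exact_mod_cast h1
  have hle : i + (i + 1) * k ≤ (NN (max M (2 * Q₀)) η' Q).card := by
    have h1 : ((i + (i + 1) * k : ℕ) : ℝ) ≤ (Q : ℝ) ^ (2 / 5 : ℝ) := by
      have e1 : (Q : ℝ) ^ (2 / 5 : ℝ) = (Q : ℝ) ^ (1 / 15 : ℝ) * (Q : ℝ) ^ (1 / 3 : ℝ) := by
        rw [← Real.rpow_add hQpos]
        norm_num
      rw [e1]
      push_cast
      have hi0 : (0 : ℝ) ≤ i := Nat.cast_nonneg _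
      calc (i : ℝ) + (i + 1) * k ≤ i * (Q : ℝ) ^ (1 / 3 : ℝ) +
            (i + 1) * (3 * (Q : ℝ) ^ (1 / 3 : ℝ)) := by
            gcongr
            nlinarith
        _ = (4 * i + 3) * (Q : ℝ) ^ (1 / 3 : ℝ) := by ring
        _ ≤ _ := by gcongr
    exact_mod_cast h1.trans hQ
  obtain ⟨S, hS, hSc⟩ := Finset.exists_subset_card_eq hle
  refine ⟨S, Ico (Nat.sqrt Q + 1) (Nat.sqrt Q + 1 + k), Q, fun q hq => (hNN q (hS hq)).1, ?_, ?_,
    hQ1, fun q hq => ⟨(hNN q (hS hq)).2.2.1, (hNN q (hS hq)).2.2.2.trans (by gcongr)⟩, ?_, ?_⟩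
  · rw [hSc]
    nlinarith
  · intro q hq
    have h1 : (q : ℝ) ≤ 2 * Q := (hNN q (hS hq)).2.2.2.trans (by nlinarith)
    have h2 : q ≤ 2 * Q := by exact_mod_cast h1
    have h3 : k ≤ S.card := by
      rw [hSc]
      nlinarith
    exact (h2.trans hkQ).trans (Nat.pow_le_pow_left h3 3)
  · intro s hs
    rw [mem_Ico] at hs
    constructor
    · have h1 : Q < (Nat.sqrt Q + 1) ^ 2 := Nat.lt_succ_sqrt' Q
      exact h1.le.trans (Nat.pow_le_pow_left hs.1 2)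
    · have h1 : (s : ℝ) ≤ Nat.sqrt Q + k := by
        have : s ≤ Nat.sqrt Q + k := by omega
        exact_mod_cast this
      have h2 : (Nat.sqrt Q : ℝ) ≤ (Q : ℝ) ^ (1 / 2 : ℝ) := by
        rw [← Real.sqrt_eq_rpow]
        exact Real.nat_sqrt_le_real_sqrt
      have h3 : (s : ℝ) ≤ (Q : ℝ) ^ (1 / 2 : ℝ) + 3 * (Q : ℝ) ^ (1 / 3 : ℝ) := by linarith
      have e1 : ((Q : ℝ) ^ (1 / 2 : ℝ)) ^ 2 = Q := by
        rw [← Real.rpow_natCast, ← Real.rpow_mul (by positivity)]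
        norm_num
      have e2 : (Q : ℝ) ^ (1 / 2 : ℝ) * (Q : ℝ) ^ (1 / 3 : ℝ) = (Q : ℝ) ^ (5 / 6 : ℝ) := by
        rw [← Real.rpow_add hQpos]
        norm_num
      have e3 : ((Q : ℝ) ^ (1 / 3 : ℝ)) ^ 2 ≤ (Q : ℝ) ^ (5 / 6 : ℝ) := by
        rw [← Real.rpow_natCast, ← Real.rpow_mul (by positivity)]
        exact Real.rpow_le_rpow_of_exponent_le hQ1' (by norm_num)
      have e4 : (Q : ℝ) = (Q : ℝ) ^ (5 / 6 : ℝ) * (Q : ℝ) ^ (1 / 6 : ℝ) := by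
        rw [← Real.rpow_add hQpos]
        norm_num
      have h4 : 15 * (Q : ℝ) ^ (5 / 6 : ℝ) ≤ η' * Q := by
        rw [div_le_iff₀ hη'0] at hc2
        have h5 : 0 ≤ (Q : ℝ) ^ (5 / 6 : ℝ) := by positivity
        calc 15 * (Q : ℝ) ^ (5 / 6 : ℝ) ≤ ((Q : ℝ) ^ (1 / 6 : ℝ) * η') * (Q : ℝ) ^ (5 / 6 : ℝ) :=
              mul_le_mul_of_nonneg_right hc2 h5
          _ = η' * ((Q : ℝ) ^ (5 / 6 : ℝ) * (Q : ℝ) ^ (1 / 6 : ℝ)) := by ring
          _ = η' * Q := by rw [← e4]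
      calc (s : ℝ) ^ 2 ≤ ((Q : ℝ) ^ (1 / 2 : ℝ) + 3 * (Q : ℝ) ^ (1 / 3 : ℝ)) ^ 2 :=
            pow_le_pow_left₀ (Nat.cast_nonneg _) h3 2
        _ = ((Q : ℝ) ^ (1 / 2 : ℝ)) ^ 2 + 6 * ((Q : ℝ) ^ (1 / 2 : ℝ) * (Q : ℝ) ^ (1 / 3 : ℝ)) +
            9 * ((Q : ℝ) ^ (1 / 3 : ℝ)) ^ 2 := by ring
        _ ≤ Q + 6 * (Q : ℝ) ^ (5 / 6 : ℝ) + 9 * (Q : ℝ) ^ (5 / 6 : ℝ) := by
            rw [e1, e2]
            linarith
        _ ≤ (1 + η') * Q := by linarith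
        _ ≤ (1 + η) * Q := by gcongr
  · rw [hSc, Nat.card_Ico]
    congr 2
    omega

end num

open Polynomial NumberField
open Pool.Agent.N783.PF
open Pool.Agent.H68K.PR (S_EXW)

/-- EXW -/
theorem exw : S_EXW := by
  intro F _ _ W i m η hη
  obtain ⟨S, R, Q, hS2, hm, h3, hQ, h4, h5, h6⟩ :=
    exists_SR (W + (2 * 1 + 1) + (discr F).natAbs) i m hη
  have hdata : ∀ q : ℕ, ∃ (𝔮 : Ideal (𝓞 F)) (h A : (𝓞 F)[X]), q ∈ S →
    (∀ 𝔭 : Ideal (𝓞 F), 𝔭.IsPrime → (q : 𝓞 F) ∉ 𝔭 ^ 2) ∧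
    𝔮.IsPrime ∧ (q : 𝓞 F) ∈ 𝔮 ∧
    h.Monic ∧ h.natDegree = 2 * 1 ∧ Irreducible (rd 𝔮 h) ∧
    A.Monic ∧ A.natDegree = 2 * 1 + 1 ∧ A.coeff (2 * 1) = 0 ∧
    Cg 𝔮 A (X * h) ∧
    ∀ 𝔭 : Ideal (𝓞 F), 𝔭.IsPrime → (q : 𝓞 F) ∈ 𝔭 → 𝔭 ≠ 𝔮 → Irreducible (rd 𝔭 A) := by
    intro q
    by_cases hq : q ∈ S
    · obtain ⟨h1, h2, h3⟩ := hS2 q hq
      obtain ⟨𝔮, h, A, hh⟩ := Pool.Agent.N710.PF.exists_data F 1 q le_rfl h1 (by omega) (by omega)
      exact ⟨𝔮, h, A, fun _ => hh⟩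
    · exact ⟨⊥, 0, 0, fun h => absurd h hq⟩
  choose 𝔮 h A hh using hdata
  refine ⟨S, 𝔮, h, A, R, Q, fun q hq => ?_, hm, h3, hQ, h4, h5, h6⟩
  obtain ⟨h1, h2, h3⟩ := hS2 q hq
  exact ⟨h1, by omega, by omega, h3, hh q hq⟩

end Pool.Agent.H93PR
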