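import Pool.Agent.H93PR.QR2

/-!
# Project PR (helper93): the large families over `ℚ` in terms of integers, and the ranks, III
-/

set_option autoImplicit false

open NumberField IsDedekindDomain
open Pool.Agent.H68K.PR (pr2 HW Gd)
open Pool.Agent.N874.PP (sW)
open Pool.Agent.TH115.GD (Pt)

namespace Pool.Agent.H93PR.QR

lemma gd_disc {c : ℤ × ℤ} {n : ℕ} (h : Gd n (io c)) :
    4 * (((io c).1 : 𝓞 ℚ) : ℚ) ^ 3 + 27 * (((io c).2 : 𝓞 ℚ) : ℚ) ^ 2 ≠ 0 :=
  Pool.Agent.H68K.PR.disc_ne h.1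

/-- the rank for a given decision procedure for the equality -/
noncomputable def frk (W : WeierstrassCurve ℚ) (d : DecidableEq ℚ) : ℕ :=
  letI := d
  Module.finrank ℤ W.toAffine.Point

lemma frk_dec (W : WeierstrassCurve ℚ) (d d' : DecidableEq ℚ) : frk W d = frk W d' := by
  rw [Subsingleton.elim d d']

theorem rank_le {c : ℤ × ℤ} {k : ℕ} (h : Gd (2 ^ k) (io c)) :
    Module.finrank ℤ (E c).toAffine.Point ≤ k := by
  have h1 := Pool.Agent.H68K.PR.selP_of Pool.Agent.H42PR.coc h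
  have h2 := Pool.Agent.H68K.PR.rank_le_sel (gd_disc h) h1
  have h3 : frk ((sW (((io c).1 : 𝓞 ℚ) : ℚ) (((io c).2 : 𝓞 ℚ) : ℚ)).baseChange ℚ)
      (fun a b => Classical.propDecidable (a = b)) ≤ k := h2
  rw [base_eq, frk_dec _ _ instDecidableEqRat] at h3
  exact h3

theorem fin_odd {c : ℤ × ℤ} (h : Gd (2 ^ 0) (io c)) :
    Finite (E c).toAffine.Point ∧ Odd (Nat.card (E c).toAffine.Point) := by
  have h1 := Pool.Agent.H68K.PR.selP_of Pool.Agent.H42PR.coc h
  have hd := gd_disc h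
  have h2 := (Pool.Agent.H68K.PR.selc_iff _).1 (h1.trans (pow_zero 2))
  have h3 := (Pool.Agent.N713.QM.gfc ℚ _ _ hd h2).1
  have h4 := Pool.Agent.N459.QM.finc ℚ _ _ hd h3
  have h5 : ∀ W : WeierstrassCurve ℚ, W = E c →
      Finite W.toAffine.Point ∧ Odd (Nat.card W.toAffine.Point) →
      Finite (E c).toAffine.Point ∧ Odd (Nat.card (E c).toAffine.Point) := by
    rintro W rfl h4
    exact h4
  exact h5 _ (base_eq c) h4

end Pool.Agent.H93PR.QR
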