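import Mathlib

/-!
# Project PR, stub COMB: maximal isotropic subspaces of an orthogonal sum of hyperbolic planes over the
# field with two elements. Linear algebra.

The elements are pairs `(x, y)` of vectors, the quadratic form is `∑ x_q y_q`. `W Λ I` is the
intersection of `Λ` with `{(x, y) | y = 0 on I, x = 0 off I}`. We assume that `W Λ ∅ = {(0, y) ∈ Λ}`
has the largest number of elements among all `W Λ I`.
-/

set_option autoImplicit false

namespace Pool.Agent.H93PR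

open Finset Module

variable {ι : Type} [Fintype ι] [DecidableEq ι]

/-- pairs of vectors over the field with two elements -/
abbrev VV (ι : Type) := (ι → ZMod 2) × (ι → ZMod 2)

/-- the quadratic form -/
def Q (l : VV ι) : ZMod 2 := ∑ q, l.1 q * l.2 q

/-- its polar form -/
def B (l l' : VV ι) : ZMod 2 := ∑ q, (l.1 q * l'.2 q + l'.1 q * l.2 q)

omit [DecidableEq ι] in
theorem Q_add (l l' : VV ι) : Q (l + l') = Q l + Q l' + B l l' := by
  unfold Q B
  rw [← sum_add_distrib, ← sum_add_distrib]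
  refine sum_congr rfl fun q _ => ?_
  simp only [Prod.fst_add, Prod.snd_add, Pi.add_apply]
  ring

/-- the vectors `y` with `(0, y) ∈ Λ` -/
def KK (Λ : Submodule (ZMod 2) (VV ι)) : Submodule (ZMod 2) (ι → ZMod 2) :=
  Λ.comap (LinearMap.inr (ZMod 2) _ _)

omit [Fintype ι] [DecidableEq ι] in
theorem mem_KK {Λ : Submodule (ZMod 2) (VV ι)} {y : ι → ZMod 2} : y ∈ KK Λ ↔ ((0, y) : VV ι) ∈ Λ :=
  Iff.rfl

/-- intersection with `{(x, y) | y = 0 on I, x = 0 off I}` -/
def W (Λ : Submodule (ZMod 2) (VV ι)) (I : Finset ι) : Submodule (ZMod 2) (VV ι) where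
  carrier := {l | l ∈ Λ ∧ (∀ q ∈ I, l.2 q = 0) ∧ ∀ q ∉ I, l.1 q = 0}
  add_mem' := by
    rintro a b ⟨h1, h2, h3⟩ ⟨h4, h5, h6⟩
    refine ⟨Λ.add_mem h1 h4, fun q hq => ?_, fun q hq => ?_⟩
    · rw [Prod.snd_add, Pi.add_apply, h2 q hq, h5 q hq, add_zero]
    · rw [Prod.fst_add, Pi.add_apply, h3 q hq, h6 q hq, add_zero]
  zero_mem' := ⟨Λ.zero_mem, fun _ _ => rfl, fun _ _ => rfl⟩
  smul_mem' := by
    rintro c a ⟨h1, h2, h3⟩
    refine ⟨Λ.smul_mem c h1, fun q hq => ?_, fun q hq => ?_⟩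
    · rw [Prod.smul_snd, Pi.smul_apply, h2 q hq, smul_zero]
    · rw [Prod.smul_fst, Pi.smul_apply, h3 q hq, smul_zero]

omit [Fintype ι] [DecidableEq ι] in
theorem mem_W {Λ : Submodule (ZMod 2) (VV ι)} {I : Finset ι} {l : VV ι} :
    l ∈ W Λ I ↔ l ∈ Λ ∧ (∀ q ∈ I, l.2 q = 0) ∧ ∀ q ∉ I, l.1 q = 0 :=
  Iff.rfl

/-- maximal isotropic, and the intersection with `x = 0` is the largest one -/
structure Lag (Λ : Submodule (ZMod 2) (VV ι)) : Prop where
  iso : ∀ l ∈ Λ, Q l = 0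
  big : Fintype.card ι ≤ finrank (ZMod 2) Λ
  max : ∀ I : Finset ι, Nat.card (W Λ I) ≤ Nat.card (KK Λ)

variable {Λ : Submodule (ZMod 2) (VV ι)}

omit [DecidableEq ι] in
theorem Lag.bil (h : ∀ l ∈ Λ, Q l = 0) {l l' : VV ι} (hl : l ∈ Λ) (hl' : l' ∈ Λ) : B l l' = 0 := by
  have h1 := Q_add l l'
  rw [h _ (Λ.add_mem hl hl'), h _ hl, h _ hl', add_zero, zero_add] at h1
  exact h1.symm

theorem z2 (a : ZMod 2) : a = 0 ∨ a = 1 := by
  revert a; decide

theorem z2_add (a : ZMod 2) : a + a = 0 := by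
  revert a; decide

theorem z2_mul (a : ZMod 2) : a * a = a := by
  revert a; decide

theorem eq_one {a : ZMod 2} (h : a ≠ 0) : a = 1 := (z2 a).resolve_left h

/-! ### First parts -/

theorem exists_snd (h : ∀ l ∈ Λ, Q l = 0) (hb : Fintype.card ι ≤ finrank (ZMod 2) Λ)
    {x : ι → ZMod 2} (hx : ∀ y ∈ KK Λ, ∑ q, x q * y q = 0) :
    ∃ y, ((x, y) : VV ι) ∈ Λ := by
  obtain ⟨Bf, hBf⟩ : ∃ Bf : LinearMap.BilinForm (ZMod 2) (ι → ZMod 2), Bf = Matrix.toBilin' 1 :=
    ⟨_, rfl⟩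
  have hv : ∀ a b, Bf a b = ∑ q, a q * b q := by
    intro a b
    rw [hBf, Matrix.toBilin'_apply', Matrix.one_mulVec]
    rfl
  have hnd : Bf.Nondegenerate := by
    rw [hBf, LinearMap.BilinForm.nondegenerate_toBilin'_iff_det_ne_zero, Matrix.det_one]
    exact one_ne_zero
  have h1 := LinearMap.BilinForm.finrank_orthogonal hnd (KK Λ)
  rw [finrank_fintype_fun_eq_card] at h1
  -- the projection
  obtain ⟨π, hπ⟩ : ∃ π : Λ →ₗ[ZMod 2] (ι → ZMod 2), π = (LinearMap.fst (ZMod 2) _ _).comp Λ.subtype :=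
    ⟨_, rfl⟩
  have hπ' : ∀ l : Λ, π l = l.1.1 := by
    intro l; rw [hπ]; rfl
  have hle : LinearMap.range π ≤ Bf.orthogonal (KK Λ) := by
    rintro _ ⟨l, rfl⟩
    rw [LinearMap.BilinForm.mem_orthogonal_iff]
    intro y hy
    have h2 := Lag.bil h l.2 (mem_KK.1 hy)
    unfold B at h2
    simp only [Pi.zero_apply, zero_mul, add_zero] at h2
    rw [hv, ← h2, hπ']
    exact sum_congr rfl fun q _ => mul_comm _ _
  have hker : finrank (ZMod 2) (LinearMap.ker π) ≤ finrank (ZMod 2) (KK Λ) := by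
    obtain ⟨φ, hφ⟩ : ∃ φ : LinearMap.ker π →ₗ[ZMod 2] (ι → ZMod 2),
        φ = (LinearMap.snd (ZMod 2) _ _).comp (Λ.subtype.comp (LinearMap.ker π).subtype) := ⟨_, rfl⟩
    have h3 : ∀ l : LinearMap.ker π, (l : Λ).1.1 = 0 := by
      intro l
      have := l.2
      rw [LinearMap.mem_ker, hπ'] at this
      exact this
    have h4 : ∀ l : LinearMap.ker π, φ l = (l : Λ).1.2 := by
      intro l; rw [hφ]; rfl
    have h5 : ∀ l : LinearMap.ker π, φ l ∈ KK Λ := by
      intro l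
      rw [mem_KK, h4, ← h3 l]
      exact l.1.2
    have h6 : Function.Injective (LinearMap.codRestrict (KK Λ) φ h5) := by
      intro a b hab
      have h7 := congrArg Subtype.val hab
      rw [LinearMap.codRestrict_apply, LinearMap.codRestrict_apply, h4, h4] at h7
      apply Subtype.ext
      apply Subtype.ext
      exact Prod.ext ((h3 a).trans (h3 b).symm) h7
    exact LinearMap.finrank_le_finrank_of_injective h6
  have h2 := LinearMap.finrank_range_add_finrank_ker π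
  have h3 : finrank (ZMod 2) (Bf.orthogonal (KK Λ)) ≤ finrank (ZMod 2) (LinearMap.range π) := by
    omega
  have h4 := Submodule.eq_of_le_of_finrank_le hle h3
  have h5 : x ∈ LinearMap.range π := by
    rw [h4, LinearMap.BilinForm.mem_orthogonal_iff]
    intro y hy
    rw [hv, ← hx y hy]
    exact sum_congr rfl fun q _ => mul_comm _ _
  obtain ⟨l, hl⟩ := h5
  refine ⟨l.1.2, ?_⟩
  have h6 : l.1.1 = x := by rw [← hl, hπ']
  rw [← h6]
  exact l.2

/-! ### Many elements of `W Λ I` -/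

omit [DecidableEq ι] in
theorem W_ge {n : ℕ} {I : Finset ι} (Z : Fin n → VV ι) (hZ : ∀ j, Z j ∈ W Λ I)
    (hind : ∀ c : Fin n → ZMod 2, ∑ j, c j • (Z j).1 = 0 → c = 0)
    (K' : Submodule (ZMod 2) (ι → ZMod 2)) (hK' : K' ≤ KK Λ) (hI : ∀ y ∈ K', ∀ q ∈ I, y q = 0) :
    2 ^ n * Nat.card K' ≤ Nat.card (W Λ I) := by
  have h0 : ∀ y ∈ K', ((0, y) : VV ι) ∈ W Λ I := fun y hy =>
    mem_W.2 ⟨hK' hy, hI y hy, fun _ _ => rfl⟩
  have h1 : Nat.card ((Fin n → ZMod 2) × K') = 2 ^ n * Nat.card K' := by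
    rw [Nat.card_prod, Nat.card_fun]
    simp
  rw [← h1]
  refine Nat.card_le_card_of_injective (fun p : (Fin n → ZMod 2) × K' =>
    (⟨∑ j, p.1 j • Z j + (0, (p.2 : ι → ZMod 2)),
      (W Λ I).add_mem ((W Λ I).sum_mem fun j _ => (W Λ I).smul_mem _ (hZ j)) (h0 _ p.2.2)⟩ :
      W Λ I)) ?_
  rintro ⟨c, y⟩ ⟨c', y'⟩ hcc
  have h2 : (∑ j, c j • Z j + (0, (y : ι → ZMod 2)) : VV ι) = ∑ j, c' j • Z j + (0, (y' : ι → ZMod 2)) :=
    congrArg Subtype.val hcc
  have h3 : ∑ j, c j • (Z j).1 = ∑ j, c' j • (Z j).1 := by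
    have := congrArg Prod.fst h2
    simpa [Prod.fst_sum] using this
  have h4 : c = c' := by
    have h5 := hind (c - c') (by
      simp only [Pi.sub_apply, sub_smul, sum_sub_distrib, h3, sub_self])
    exact sub_eq_zero.1 h5
  subst h4
  have h5 : (y : ι → ZMod 2) = y' := by
    have := congrArg Prod.snd h2
    simpa using this
  rw [Subtype.ext h5]

/-- elements of `K'` which vanish at `i` -/
def Kv (K' : Submodule (ZMod 2) (ι → ZMod 2)) (i : ι) : Submodule (ZMod 2) (ι → ZMod 2) :=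
  K' ⊓ LinearMap.ker (LinearMap.proj (R := ZMod 2) (φ := fun _ : ι => ZMod 2) i)

omit [Fintype ι] [DecidableEq ι] in
theorem mem_Kv {K' : Submodule (ZMod 2) (ι → ZMod 2)} {i : ι} {y : ι → ZMod 2} :
    y ∈ Kv K' i ↔ y ∈ K' ∧ y i = 0 := Iff.rfl

omit [DecidableEq ι] in
theorem card_Kv (K' : Submodule (ZMod 2) (ι → ZMod 2)) (i : ι) :
    Nat.card K' ≤ 2 * Nat.card (Kv K' i) := by
  by_cases h : ∃ y ∈ K', y i = 1
  · obtain ⟨k, hk, hki⟩ := h
    have h1 : Nat.card (ZMod 2 × Kv K' i) = 2 * Nat.card (Kv K' i) := by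
      rw [Nat.card_prod]
      simp
    rw [← h1]
    refine Nat.card_le_card_of_injective (fun y : K' =>
      ((y.1 i, ⟨y.1 - y.1 i • k, mem_Kv.2 ⟨K'.sub_mem y.2 (K'.smul_mem _ hk), ?_⟩⟩) :
        ZMod 2 × Kv K' i)) ?_
    · rw [Pi.sub_apply, Pi.smul_apply, hki, smul_eq_mul, mul_one, sub_self]
    · intro a b hab
      have h2 : a.1 i = b.1 i := congrArg Prod.fst hab
      have h3 : a.1 - a.1 i • k = b.1 - b.1 i • k := congrArg (fun p => (Prod.snd p).1) hab
      rw [h2, sub_left_inj] at h3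
      exact Subtype.ext h3
  · push Not at h
    have h1 : Kv K' i = K' := by
      ext y
      rw [mem_Kv]
      exact ⟨fun h => h.1, fun hy => ⟨hy, (z2 _).resolve_right (h y hy)⟩⟩
    rw [h1]
    omega

omit [DecidableEq ι] in
theorem card_pos (K' : Submodule (ZMod 2) (ι → ZMod 2)) : 0 < Nat.card K' := Nat.card_pos

/-! ### P1: the coordinates on `K` are not zero -/

theorem p1 (h : Lag Λ) (q : ι) : ∃ y ∈ KK Λ, y q = 1 := by
  by_contra hcon
  push Not at hcon
  have h0 : ∀ y ∈ KK Λ, y q = 0 := fun y hy => (z2 _).resolve_right (hcon y hy)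
  obtain ⟨y, hy⟩ := exists_snd h.iso h.big (x := Pi.single q 1) (by
    intro y hy
    rw [Finset.sum_eq_single q]
    · rw [h0 y hy, mul_zero]
    · intro b _ hb
      rw [Pi.single_eq_of_ne hb, zero_mul]
    · simp)
  have h1 : y q = 0 := by
    have h2 := h.iso _ hy
    unfold Q at h2
    rw [Finset.sum_eq_single q] at h2
    · simpa using h2
    · intro b _ hb
      simp only [Pi.single_eq_of_ne hb, zero_mul]
    · simp
  have h2 : ((Pi.single q 1, y) : VV ι) ∈ W Λ {q} := by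
    refine mem_W.2 ⟨hy, fun b hb => ?_, fun b hb => ?_⟩
    · rw [Finset.mem_singleton] at hb
      rw [hb]; exact h1
    · rw [Finset.mem_singleton] at hb
      exact Pi.single_eq_of_ne hb _
  have h3 := W_ge (n := 1) (I := {q}) (fun _ => ((Pi.single q 1, y) : VV ι)) (fun _ => h2) (by
    intro c hc
    rw [Fin.sum_univ_one] at hc
    have h4 := congrFun hc q
    simp only [Pi.smul_apply, Pi.single_eq_same, smul_eq_mul, mul_one, Pi.zero_apply] at h4
    funext j
    rw [Fin.eq_zero j]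
    exact h4) (KK Λ) le_rfl (by
      intro y hy b hb
      rw [Finset.mem_singleton] at hb
      rw [hb]; exact h0 y hy)
  have h4 := h.max {q}
  have h5 := card_pos (KK Λ)
  omega

/-! ### P2, P3: classes -/

/-- the same coordinate function on `K` -/
def Same (Λ : Submodule (ZMod 2) (VV ι)) (i j : ι) : Prop := ∀ y ∈ KK Λ, y i = y j

/-- `e_i + e_j` -/
def ee (i j : ι) : ι → ZMod 2 := Pi.single i 1 + Pi.single j 1

omit [Fintype ι] in
theorem ee_left {i j : ι} (h : i ≠ j) : ee i j i = 1 := by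
  unfold ee
  rw [Pi.add_apply, Pi.single_eq_same, Pi.single_eq_of_ne h, add_zero]

omit [Fintype ι] in
theorem ee_right {i j : ι} (h : i ≠ j) : ee i j j = 1 := by
  unfold ee
  rw [Pi.add_apply, Pi.single_eq_same, Pi.single_eq_of_ne h.symm, zero_add]

omit [Fintype ι] in
theorem ee_of_ne {i j l : ι} (h : l ≠ i) (h' : l ≠ j) : ee i j l = 0 := by
  unfold ee
  rw [Pi.add_apply, Pi.single_eq_of_ne h, Pi.single_eq_of_ne h', add_zero]

theorem sum_ee (i j : ι) (y : ι → ZMod 2) : ∑ q, ee i j q * y q = y i + y j := by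
  unfold ee
  simp only [Pi.add_apply, add_mul, sum_add_distrib]
  congr 1
  · rw [Finset.sum_eq_single i]
    · rw [Pi.single_eq_same, one_mul]
    · intro b _ hb
      rw [Pi.single_eq_of_ne hb, zero_mul]
    · simp
  · rw [Finset.sum_eq_single j]
    · rw [Pi.single_eq_same, one_mul]
    · intro b _ hb
      rw [Pi.single_eq_of_ne hb, zero_mul]
    · simp

theorem p2 (h : Lag Λ) {i j : ι} (hs : Same Λ i j) :
    ∃ y, ((ee i j, y) : VV ι) ∈ Λ ∧ y i = 1 ∧ y j = 1 := by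
  obtain ⟨y, hy⟩ := exists_snd h.iso h.big (x := ee i j) (by
    intro y hy
    rw [sum_ee, hs y hy, z2_add])
  have h1 : y i = y j := by
    have h2 := h.iso _ hy
    unfold Q at h2
    rw [sum_ee] at h2
    exact CharTwo.add_eq_zero.1 h2
  rcases z2 (y i) with h2 | h2
  · obtain ⟨k, hk, hki⟩ := p1 h i
    refine ⟨y + k, ?_, ?_, ?_⟩
    · have h3 := Λ.add_mem hy (mem_KK.1 hk)
      rw [Prod.mk_add_mk, add_zero] at h3
      exact h3
    · rw [Pi.add_apply, h2, hki, zero_add]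
    · rw [Pi.add_apply, ← h1, h2, ← hs k hk, hki, zero_add]
  · exact ⟨y, hy, h2, h1 ▸ h2⟩

theorem B_ee (i j a b : ι) (y z : ι → ZMod 2) :
    B ((ee i j, y) : VV ι) (ee a b, z) = (z i + z j) + (y a + y b) := by
  unfold B
  rw [sum_add_distrib]
  simp only [sum_ee]

theorem p3 (h : Lag Λ) {i j l : ι} (hij : i ≠ j) (hil : i ≠ l) (hjl : j ≠ l) (hs : Same Λ i j)
    (hs' : Same Λ j l) {y : ι → ZMod 2} (hy : ((ee i j, y) : VV ι) ∈ Λ) (hyi : y i = 1)
    (hyj : y j = 1) : y l = 0 := by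
  by_contra hcon
  have hyl : y l = 1 := eq_one hcon
  obtain ⟨k, hk, hki⟩ := p1 h i
  have hkj : k j = 1 := by rw [← hs k hk]; exact hki
  have hkl : k l = 1 := by rw [← hs' k hk]; exact hkj
  obtain ⟨w, hw, hwj, hwl⟩ := p2 h hs'
  have hz1 : ((ee i j, y + k) : VV ι) ∈ Λ := by
    have h3 := Λ.add_mem hy (mem_KK.1 hk)
    rw [Prod.mk_add_mk, add_zero] at h3
    exact h3
  have hz2 : ((ee j l, w + k) : VV ι) ∈ Λ := by
    have h3 := Λ.add_mem hw (mem_KK.1 hk)
    rw [Prod.mk_add_mk, add_zero] at h3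
    exact h3
  have h11 : (1 : ZMod 2) + 1 = 0 := by decide
  have hB := Lag.bil h.iso hz1 hz2
  rw [B_ee] at hB
  have hwi : (w + k) i = 0 := by
    simp only [Pi.add_apply, hyj, hkj, hyl, hkl, hwj, h11, add_zero] at hB ⊢
    exact hB
  obtain ⟨I, hI⟩ : ∃ I : Finset ι, I = {i, j, l} := ⟨_, rfl⟩
  have hmI : ∀ q, q ∈ I ↔ q = i ∨ q = j ∨ q = l := by
    intro q; rw [hI]; simp
  have hm1 : ((ee i j, y + k) : VV ι) ∈ W Λ I := by
    refine mem_W.2 ⟨hz1, fun q hq => ?_, fun q hq => ?_⟩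
    · rcases (hmI q).1 hq with rfl | rfl | rfl
      · simp only [Pi.add_apply, hyi, hki, h11]
      · simp only [Pi.add_apply, hyj, hkj, h11]
      · simp only [Pi.add_apply, hyl, hkl, h11]
    · rw [hmI] at hq
      push Not at hq
      exact ee_of_ne hq.1 hq.2.1
  have hm2 : ((ee j l, w + k) : VV ι) ∈ W Λ I := by
    refine mem_W.2 ⟨hz2, fun q hq => ?_, fun q hq => ?_⟩
    · rcases (hmI q).1 hq with rfl | rfl | rfl
      · exact hwi
      · simp only [Pi.add_apply, hwj, hkj, h11]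
      · simp only [Pi.add_apply, hwl, hkl, h11]
    · rw [hmI] at hq
      push Not at hq
      exact ee_of_ne hq.2.1 hq.2.2
  have h3 := W_ge (n := 2) (I := I) (![((ee i j, y + k) : VV ι), ((ee j l, w + k) : VV ι)])
    (by
      intro t
      fin_cases t
      · exact hm1
      · exact hm2) (by
    intro c hc
    rw [Fin.sum_univ_two] at hc
    have h4 := congrFun hc i
    have h5 := congrFun hc l
    simp only [Matrix.cons_val_zero, Matrix.cons_val_one, Pi.add_apply, Pi.smul_apply,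
      ee_left hij, ee_of_ne hij hil, ee_of_ne hil.symm hjl.symm, ee_right hjl, smul_eq_mul, mul_one,
      mul_zero, add_zero, zero_add, Pi.zero_apply] at h4 h5
    funext t
    fin_cases t
    · exact h4
    · exact h5) (Kv (KK Λ) i) (fun y hy => (mem_Kv.1 hy).1) (by
      intro y hy q hq
      obtain ⟨hy1, hy2⟩ := mem_Kv.1 hy
      rcases (hmI q).1 hq with rfl | rfl | rfl
      · exact hy2
      · rw [← hs y hy1]; exact hy2
      · rw [← hs' y hy1, ← hs y hy1]; exact hy2)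
  have h4 := h.max I
  have h5 := card_Kv (KK Λ) i
  have h6 := card_pos (Kv (KK Λ) i)
  omega

end Pool.Agent.H93PR
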