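import Pool.Agent.H93PR.Pat

/-!
# Project PR, stub COMB: counting
-/

set_option autoImplicit false
set_option linter.all false

namespace Pool.Agent.H93PR

open Finset Module
open scoped Classical

variable {ι : Type} [Fintype ι] {Λ : Submodule (ZMod 2) (VV ι)}

/-- the rows of a class -/
structure Rows (Λ : Submodule (ZMod 2) (VV ι)) (i0 : ι) (C : Finset ι) (y : ι → ι → ZMod 2) : Prop where
  ne : ∀ i ∈ C, i ≠ i0
  same : ∀ i ∈ C, Same Λ i i0
  mem : ∀ i ∈ C, ((ee i i0, y i) : VV ι) ∈ Λ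
  one : ∀ i ∈ C, y i i = 1
  one' : ∀ i ∈ C, y i i0 = 1

theorem card_small2 (R : Finset ι) : (R.powerset.filter fun s => s.card ≤ 2).card ≤ (R.card + 1) ^ 2 := by
  have h1 : (R.powerset.filter fun s => s.card ≤ 2) ⊆
      R.powersetCard 0 ∪ (R.powersetCard 1 ∪ R.powersetCard 2) := by
    intro s hs
    rw [mem_filter, mem_powerset] at hs
    simp only [mem_union, mem_powersetCard]
    have : s.card = 0 ∨ s.card = 1 ∨ s.card = 2 := by omega
    rcases this with h | h | h
    · exact Or.inl ⟨hs.1, h⟩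
    · exact Or.inr (Or.inl ⟨hs.1, h⟩)
    · exact Or.inr (Or.inr ⟨hs.1, h⟩)
  have h2 := card_le_card h1
  have h3 := card_union_le (R.powersetCard 0) (R.powersetCard 1 ∪ R.powersetCard 2)
  have h4 := card_union_le (R.powersetCard 1) (R.powersetCard 2)
  rw [card_powersetCard, card_powersetCard] at h4
  rw [card_powersetCard] at h3
  have h5 : R.card.choose 2 ≤ R.card ^ 2 := Nat.choose_le_pow _ _
  have h6 : R.card.choose 0 = 1 := Nat.choose_zero_right _
  have h7 : R.card.choose 1 = R.card := Nat.choose_one_right _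
  nlinarith

theorem ex3 : ∀ j : Fin 3, ∃ i : Fin 3, j ≠ i := by decide

/-- at most `(n + 1) ^ 2` patterns -/
theorem patterns (h : Lag Λ) {i0 l0 : ι} {C : Finset ι} {y : ι → ι → ZMod 2} (hR : Rows Λ i0 C y)
    (hne : ¬ Same Λ i0 l0) {R : Finset ι} (hRl : ∀ b ∈ R, Same Λ b l0) :
    (C.image fun i => R.filter fun b => y i b + y i l0 = 1).card ≤ (R.card + 1) ^ 2 := by
  obtain ⟨𝒜, h𝒜⟩ : ∃ 𝒜 : Finset (Finset ι), 𝒜 = C.image fun i => R.filter fun b => y i b + y i l0 = 1 :=
    ⟨_, rfl⟩
  rw [← h𝒜]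
  have hmem : ∀ u ∈ 𝒜, ∃ i ∈ C, ∀ b, b ∈ u ↔ b ∈ R ∧ y i b + y i l0 = 1 := by
    intro u hu
    rw [h𝒜, mem_image] at hu
    obtain ⟨i, hi, rfl⟩ := hu
    exact ⟨i, hi, fun b => mem_filter⟩
  refine (card_le_card_shatterer 𝒜).trans ((card_le_card ?_).trans (card_small2 R))
  intro s hs
  rw [mem_shatterer] at hs
  rw [mem_filter, mem_powerset]
  constructor
  · obtain ⟨u, hu, hsu⟩ := hs.exists_superset
    obtain ⟨i, -, hi⟩ := hmem u hu
    intro b hb
    exact ((hi b).1 (hsu hb)).1
  · by_contra hcon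
    obtain ⟨t, hts, ht3⟩ := exists_subset_card_eq (show 3 ≤ s.card by omega)
    obtain ⟨e⟩ : Nonempty (Fin 3 ≃ t) := ⟨(Fintype.equivFinOfCardEq (by
      rw [Fintype.card_coe, ht3])).symm⟩
    have hst := hs.mono_right hts
    have hsel : ∀ i : Fin 3, ∃ ri ∈ C, ∀ j : Fin 3, ((e j : ι) ∈ R ∧ y ri (e j) + y ri l0 = 1) ↔ j ≠ i := by
      intro i
      obtain ⟨u, hu, hu'⟩ := hst (t := t.filter fun b => b ≠ e i) (filter_subset _ _)
      obtain ⟨ri, hri, hri'⟩ := hmem u hu
      refine ⟨ri, hri, fun j => ?_⟩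
      rw [← hri']
      have h0 : ∀ x : ι, x ∈ t ∩ u ↔ x ∈ t.filter (fun b : ι => b ≠ (e i : ι)) := by
        intro x; rw [hu']
      have h1 := h0 (e j : ι)
      rw [mem_inter, mem_filter] at h1
      have h2 : (e j : ι) ∈ t := (e j).2
      have h3 : (e j : ι) ≠ e i ↔ j ≠ i := by
        rw [Ne, Ne, Subtype.coe_inj, e.injective.eq_iff]
      rw [h3] at h1
      tauto
    choose r hrC hr using hsel
    have hbR : ∀ j, (e j : ι) ∈ R := by
      intro j
      obtain ⟨i, hi⟩ := ex3 j
      exact ((hr i j).2 hi).1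
    have hval : ∀ i j, y (r i) (e j) + y (r i) l0 = MM i j := by
      intro i j
      unfold MM
      have h1 := hr i j
      split_ifs with hij
      · rcases z2 (y (r i) (e j) + y (r i) l0) with h2 | h2
        · exact h2
        · exact absurd hij.symm (h1.1 ⟨hbR j, h2⟩)
      · exact (h1.2 (Ne.symm hij)).2
    have hinj : Function.Injective r := by
      intro a b hab
      by_contra hne'
      have h1 := (hr a b).2 (Ne.symm hne')
      rw [hab] at h1
      exact (hr b b).1 h1 rfl
    have hbl : ∀ j, (e j : ι) ≠ l0 := by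
      intro j hj
      obtain ⟨i, hi⟩ := ex3 j
      have h1 := ((hr i j).2 hi).2
      rw [hj, z2_add] at h1
      exact absurd h1 (by decide)
    exact p4 h (r := r) (b := fun j => (e j : ι)) (y := fun j => y (r j)) hinj (fun j => hR.ne _ (hrC j))
      (fun j => hR.same _ (hrC j)) (fun a b hab => e.injective (Subtype.ext hab)) hbl
      (fun j => hRl _ (hbR j)) hne (fun j => hR.mem _ (hrC j)) (fun j => hR.one _ (hrC j))
      (fun j => hR.one' _ (hrC j)) hval

/-- at most `2 (n + 1) ^ 2` restrictions to a class -/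
theorem restrictions (h : Lag Λ) {i0 : ι} {C : Finset ι} {y : ι → ι → ZMod 2} (hR : Rows Λ i0 C y)
    {R : Finset ι} (hRR : ∀ b ∈ R, ∀ b' ∈ R, Same Λ b b') (hR0 : ∀ b ∈ R, ¬ Same Λ b i0) :
    (C.image fun i => fun b => if b ∈ R then y i b else 0).card ≤ 2 * (R.card + 1) ^ 2 := by
  rcases R.eq_empty_or_nonempty with rfl | ⟨l0, hl0⟩
  · have h1 : (C.image fun i => fun b => if b ∈ (∅ : Finset ι) then y i b else 0) ⊆ {0} := by
      intro f hf
      rw [mem_image] at hf
      obtain ⟨i, -, rfl⟩ := hf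
      rw [mem_singleton]
      funext b
      simp
    have h2 := card_le_card h1
    rw [card_singleton] at h2
    refine h2.trans ?_
    norm_num
  · have hne : ¬ Same Λ i0 l0 := fun h' => hR0 l0 hl0 h'.symm'
    have h1 := patterns h hR hne (R := R) (fun b hb => hRR b hb l0 hl0)
    obtain ⟨𝒜, h𝒜⟩ : ∃ 𝒜 : Finset (Finset ι),
      𝒜 = C.image fun i => R.filter fun b => y i b + y i l0 = 1 := ⟨_, rfl⟩
    rw [← h𝒜] at h1
    have h2 : (C.image fun i => fun b => if b ∈ R then y i b else 0) ⊆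
        (𝒜 ×ˢ (univ : Finset (ZMod 2))).image fun p => fun b => if b ∈ R then
          (if b ∈ p.1 then 1 + p.2 else p.2) else 0 := by
      intro f hf
      rw [mem_image] at hf
      obtain ⟨i, hi, rfl⟩ := hf
      rw [mem_image]
      refine ⟨(R.filter fun b => y i b + y i l0 = 1, y i l0), ?_, ?_⟩
      · rw [mem_product]
        exact ⟨h𝒜 ▸ mem_image_of_mem _ hi, mem_univ _⟩
      · funext b
        by_cases hb : b ∈ R
        · simp only [hb, if_true, mem_filter, true_and]
          rcases z2 (y i b) with h3 | h3 <;> rcases z2 (y i l0) with h4 | h4 <;>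
            rw [h3, h4] <;> decide
        · simp only [hb, if_false]
    refine (card_le_card h2).trans (card_image_le.trans ?_)
    rw [card_product, card_univ, ZMod.card, mul_comm]
    exact Nat.mul_le_mul_left 2 h1

/-- the coordinate as a functional on `K` -/
noncomputable def kap (Λ : Submodule (ZMod 2) (VV ι)) (q : ι) : Dual (ZMod 2) (KK Λ) :=
  (LinearMap.proj (R := ZMod 2) (φ := fun _ : ι => ZMod 2) q).comp (KK Λ).subtype

theorem kap_eq {i j : ι} : kap Λ i = kap Λ j ↔ Same Λ i j := by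
  constructor
  · intro h y hy
    exact congrArg (fun f : Dual (ZMod 2) (KK Λ) => f ⟨y, hy⟩) h
  · intro h
    apply LinearMap.ext
    intro y
    exact h y.1 y.2

theorem card_dual : Nat.card (Dual (ZMod 2) (KK Λ)) = Nat.card (KK Λ) := by
  rw [Module.natCard_eq_pow_finrank (K := ZMod 2), Module.natCard_eq_pow_finrank (K := ZMod 2) (V := KK Λ),
    Subspace.dual_finrank_eq]

/-- a class with few separating columns is small -/
theorem class_le (h : Lag Λ) {i0 : ι} {C : Finset ι} {y : ι → ι → ZMod 2} (hR : Rows Λ i0 C y)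
    {R : Finset ι} (hR0 : ∀ b ∈ R, ¬ Same Λ b i0)
    (hsep : ∀ i ∈ C, ∀ i' ∈ C, i ≠ i' → ∃ b ∈ R, y i b ≠ y i' b) :
    C.card ≤ (2 * (R.card + 1) ^ 2) ^ Nat.card (KK Λ) := by
  have : Finite (Dual (ZMod 2) (KK Λ)) := Module.finite_of_finite (ZMod 2)
  letI : Fintype (Dual (ZMod 2) (KK Λ)) := Fintype.ofFinite _
  obtain ⟨g, hg⟩ : ∃ g : Dual (ZMod 2) (KK Λ) → ι → ι → ZMod 2, ∀ τ i b,
      g τ i b = if b ∈ R.filter (fun b => kap Λ b = τ) then y i b else 0 := ⟨_, fun _ _ _ => rfl⟩
  have hcard : ∀ τ, (C.image (g τ)).card ≤ 2 * (R.card + 1) ^ 2 := by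
    intro τ
    have h1 := restrictions h hR (R := R.filter (fun b => kap Λ b = τ)) (by
      intro b hb b' hb'
      rw [mem_filter] at hb hb'
      exact kap_eq.1 (hb.2.trans hb'.2.symm)) (fun b hb => hR0 b (mem_filter.1 hb).1)
    have h2 : g τ = fun i => fun b => if b ∈ R.filter (fun b => kap Λ b = τ) then y i b else 0 := by
      funext i b
      exact hg τ i b
    rw [h2]
    refine h1.trans ?_
    have h3 := card_filter_le R (fun b => kap Λ b = τ)
    gcongr
  have h1 : C.card ≤ (Fintype.piFinset fun τ => C.image (g τ)).card := by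
    refine card_le_card_of_injOn (fun i τ => g τ i) ?_ ?_
    · intro i hi
      rw [Finset.mem_coe, Fintype.mem_piFinset]
      exact fun τ => mem_image_of_mem _ hi
    · intro i hi i' hi' hii
      by_contra hne
      obtain ⟨b, hb, hb'⟩ := hsep i hi i' hi' hne
      apply hb'
      have h2 := congrFun (congrFun hii (kap Λ b)) b
      simp only [hg, mem_filter, hb, true_and, if_true] at h2
      exact h2
  rw [Fintype.card_piFinset] at h1
  refine h1.trans ?_
  rw [← card_dual, Nat.card_eq_fintype_card, ← card_univ, ← prod_const]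
  exact prod_le_prod' fun τ _ => hcard τ

/-- random columns -/
theorem hit {α β : Type} [Fintype α] (S : Finset β) (G : β → Finset α) (s n : ℕ)
    (hs : ∀ p ∈ S, s ≤ (G p).card)
    (h : S.card * (Fintype.card α - s) ^ n < Fintype.card α ^ n) :
    ∃ c : Fin n → α, ∀ p ∈ S, ∃ t, c t ∈ G p := by
  by_contra hcon
  push Not at hcon
  have h1 : (univ : Finset (Fin n → α)) ⊆ S.biUnion fun p => Fintype.piFinset fun _ => (G p)ᶜ := by
    intro c _
    obtain ⟨p, hp, hc⟩ := hcon c
    rw [mem_biUnion]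
    refine ⟨p, hp, ?_⟩
    rw [Fintype.mem_piFinset]
    intro t
    rw [mem_compl]
    exact hc t
  have h2 := card_le_card h1
  rw [card_univ, Fintype.card_fun, Fintype.card_fin] at h2
  have h3 : (S.biUnion fun p => Fintype.piFinset fun _ : Fin n => (G p)ᶜ).card ≤
      S.card * (Fintype.card α - s) ^ n := by
    refine card_biUnion_le_card_mul _ _ _ fun p hp => ?_
    rw [Fintype.card_piFinset_const, card_compl]
    exact Nat.pow_le_pow_left (Nat.sub_le_sub_left (hs p hp) _) _
  omega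

end Pool.Agent.H93PR
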