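import Pool.Agent.H68K.PR.StmV
import Pool.Agent.H93PR.Count5

/-!
# Project PR, phase 4, part COUNT6: linear algebra
-/

set_option autoImplicit false
set_option linter.all false

open Polynomial IsDedekindDomain NumberField
open scoped Classical

namespace Pool.Agent.H93PR

open Pool.Agent.N783.PF
open Pool.Agent.H68K.PR

section lin

variable {ι κ : Type} [Fintype ι] [Fintype κ]

/-- The elements of `Λ` which satisfy the conditions of `ρ` outside the image of `ι`. -/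
def LC (j : ι ↪ κ) (Λ : AddSubgroup (κ → ZMod 2 × ZMod 2)) (ρ : Finset κ) :
    AddSubgroup (κ → ZMod 2 × ZMod 2) where
  carrier := {l | l ∈ Λ ∧ ∀ q, q ∉ Set.range j → (q ∈ ρ → (l q).2 = 0) ∧ (q ∉ ρ → (l q).1 = 0)}
  zero_mem' := ⟨Λ.zero_mem, fun _ _ => ⟨fun _ => rfl, fun _ => rfl⟩⟩
  add_mem' := by
    rintro l l' ⟨h1, h2⟩ ⟨h1', h2'⟩
    refine ⟨Λ.add_mem h1 h1', fun q hq => ⟨fun h => ?_, fun h => ?_⟩⟩
    · rw [Pi.add_apply, Prod.snd_add, (h2 q hq).1 h, (h2' q hq).1 h, add_zero]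
    · rw [Pi.add_apply, Prod.fst_add, (h2 q hq).2 h, (h2' q hq).2 h, add_zero]
  neg_mem' := by
    rintro l ⟨h1, h2⟩
    refine ⟨Λ.neg_mem h1, fun q hq => ⟨fun h => ?_, fun h => ?_⟩⟩
    · rw [Pi.neg_apply, Prod.snd_neg, (h2 q hq).1 h, neg_zero]
    · rw [Pi.neg_apply, Prod.fst_neg, (h2 q hq).2 h, neg_zero]

/-- Restriction to `ι`. -/
def res (j : ι ↪ κ) : (κ → ZMod 2 × ZMod 2) →+ (ι → ZMod 2 × ZMod 2) where
  toFun l := fun i => l (j i)
  map_zero' := rfl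
  map_add' _ _ := rfl

/-- The reduction. -/
def LR (j : ι ↪ κ) (Λ : AddSubgroup (κ → ZMod 2 × ZMod 2)) (ρ : Finset κ) :
    AddSubgroup (ι → ZMod 2 × ZMod 2) := (LC j Λ ρ).map (res j)

lemma mem_LR {j : ι ↪ κ} {Λ : AddSubgroup (κ → ZMod 2 × ZMod 2)} {ρ : Finset κ}
    {x : ι → ZMod 2 × ZMod 2} : x ∈ LR j Λ ρ ↔ ∃ l ∈ LC j Λ ρ, ∀ i, l (j i) = x i := by
  unfold LR
  rw [AddSubgroup.mem_map]
  constructor
  · rintro ⟨l, hl, rfl⟩
    exact ⟨l, hl, fun i => rfl⟩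
  · rintro ⟨l, hl, h⟩
    exact ⟨l, hl, funext h⟩

lemma iso_LR {j : ι ↪ κ} {Λ : AddSubgroup (κ → ZMod 2 × ZMod 2)} {ρ : Finset κ}
    (h : ∀ l ∈ Λ, ∑ q, (l q).1 * (l q).2 = 0) :
    ∀ x ∈ LR j Λ ρ, ∑ i, (x i).1 * (x i).2 = 0 := by
  intro x hx
  obtain ⟨l, hl, hlx⟩ := mem_LR.1 hx
  rw [← h l hl.1]
  refine Fintype.sum_of_injective j j.injective _ _ (fun q hq => ?_) (fun i => by rw [hlx])
  by_cases hqρ : q ∈ ρ
  · rw [(hl.2 q hq).1 hqρ, mul_zero]
  · rw [(hl.2 q hq).2 hqρ, zero_mul]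

/-- No nonzero element of `LJ Λ ρ` vanishes on `ι`. -/
def Inj (j : ι ↪ κ) (Λ : AddSubgroup (κ → ZMod 2 × ZMod 2)) (ρ : Finset κ) : Prop :=
  ∀ l ∈ LJ Λ ρ, (∀ i, l (j i) = 0) → l = 0

lemma inj_LC {j : ι ↪ κ} {Λ : AddSubgroup (κ → ZMod 2 × ZMod 2)} {ρ : Finset κ}
    (h : Inj j Λ ρ) {l l' : κ → ZMod 2 × ZMod 2} (hl : l ∈ LC j Λ ρ) (hl' : l' ∈ LC j Λ ρ)
    (he : ∀ i, l (j i) = l' (j i)) : l = l' := by
  have h1 := (LC j Λ ρ).sub_mem hl hl'
  have h2 : l - l' = 0 := by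
    refine h _ ⟨h1.1, fun q hq => ?_, fun q hq => ?_⟩ (fun i => by
      rw [Pi.sub_apply, he i, sub_self])
    · by_cases hr : q ∈ Set.range j
      · obtain ⟨i, rfl⟩ := hr
        rw [Pi.sub_apply, he i, sub_self]
        rfl
      · exact (h1.2 q hr).1 hq
    · by_cases hr : q ∈ Set.range j
      · obtain ⟨i, rfl⟩ := hr
        rw [Pi.sub_apply, he i, sub_self]
        rfl
      · exact (h1.2 q hr).2 hq
  exact sub_eq_zero.1 h2

/-- The values at the lines outside `ι`. -/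
noncomputable def val (j : ι ↪ κ) (ρ : Finset κ) :
    (κ → ZMod 2 × ZMod 2) →+ ({q : κ // q ∉ Set.range j} → ZMod 2) where
  toFun l := fun q => if (q : κ) ∈ ρ then (l q).2 else (l q).1
  map_zero' := by
    funext q
    simp
  map_add' l l' := by
    funext q
    simp only [Pi.add_apply, Prod.snd_add, Prod.fst_add]
    split_ifs <;> rfl

lemma card_LR {j : ι ↪ κ} {Λ : AddSubgroup (κ → ZMod 2 × ZMod 2)} {ρ : Finset κ}
    (h : Inj j Λ ρ) (hc : 2 ^ Fintype.card κ ≤ Nat.card Λ) :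
    2 ^ Fintype.card ι ≤ Nat.card (LR j Λ ρ) := by
  obtain ⟨φ, hφ⟩ : ∃ φ : Λ →+ ({q : κ // q ∉ Set.range j} → ZMod 2),
      φ = (val j ρ).comp Λ.subtype := ⟨_, rfl⟩
  have h1 : Nat.card Λ = Nat.card (Λ ⧸ φ.ker) * Nat.card φ.ker :=
    AddSubgroup.card_eq_card_quotient_mul_card_addSubgroup φ.ker
  have h2 : Nat.card (Λ ⧸ φ.ker) ≤ Nat.card ({q : κ // q ∉ Set.range j} → ZMod 2) :=
    Nat.card_le_card_of_injective _ (QuotientAddGroup.kerLift_injective φ)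
  have h3 : Nat.card ({q : κ // q ∉ Set.range j} → ZMod 2) =
      2 ^ Fintype.card {q : κ // q ∉ Set.range j} := by
    rw [Nat.card_fun, Nat.card_zmod, Nat.card_eq_fintype_card]
  have h4 : Fintype.card {q : κ // q ∉ Set.range j} + Fintype.card ι = Fintype.card κ := by
    have e1 := Fintype.card_subtype_compl (fun q : κ => q ∈ Set.range j)
    have e2 : Fintype.card {q : κ // q ∈ Set.range j} = Fintype.card ι :=
      (Fintype.card_congr (Equiv.ofInjective j j.injective)).symm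
    have e3 : Fintype.card {q : κ // q ∈ Set.range j} ≤ Fintype.card κ :=
      Fintype.card_subtype_le _
    omega
  have hφl : ∀ l : Λ, φ l = val j ρ (l : κ → ZMod 2 × ZMod 2) := by
    intro l
    rw [hφ]
    rfl
  have hmem : ∀ x : φ.ker, ((x : Λ) : κ → ZMod 2 × ZMod 2) ∈ LC j Λ ρ := by
    intro x
    refine ⟨(x : Λ).2, fun q hq => ?_⟩
    have hx := x.2
    rw [AddMonoidHom.mem_ker, hφl] at hx
    have hx2 := congrFun hx ⟨q, hq⟩
    have hx3 : (if q ∈ ρ then (((x : Λ) : κ → ZMod 2 × ZMod 2) q).2 else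
      (((x : Λ) : κ → ZMod 2 × ZMod 2) q).1) = 0 := hx2
    constructor
    · intro hqρ
      rwa [if_pos hqρ] at hx3
    · intro hqρ
      rwa [if_neg hqρ] at hx3
  have h5 : Nat.card φ.ker ≤ Nat.card (LR j Λ ρ) := by
    refine Nat.card_le_card_of_injective (fun x : φ.ker => (⟨res j ((x : Λ) : κ → ZMod 2 × ZMod 2),
      AddSubgroup.mem_map_of_mem _ (hmem x)⟩ : LR j Λ ρ)) ?_
    intro x y hxy
    have h6 : res j ((x : Λ) : κ → ZMod 2 × ZMod 2) = res j ((y : Λ) : κ → ZMod 2 × ZMod 2) :=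
      congrArg Subtype.val hxy
    exact Subtype.ext (Subtype.ext (inj_LC h (hmem x) (hmem y) (fun i => congrFun h6 i)))
  have h6 : 2 ^ Fintype.card κ ≤ 2 ^ Fintype.card {q : κ // q ∉ Set.range j} *
      Nat.card (LR j Λ ρ) := by
    calc 2 ^ Fintype.card κ ≤ Nat.card Λ := hc
      _ = Nat.card (Λ ⧸ φ.ker) * Nat.card φ.ker := h1
      _ ≤ _ := Nat.mul_le_mul (h2.trans h3.le) h5
  rw [← h4, pow_add] at h6
  exact Nat.le_of_mul_le_mul_left h6 (by positivity)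

/-- The lines of the reduction. -/
lemma LJ_LR [DecidableEq κ] {j : ι ↪ κ} {Λ : AddSubgroup (κ → ZMod 2 × ZMod 2)} {ρ : Finset κ}
    (hρ : ∀ i, j i ∉ ρ) (J : Finset ι) {x : ι → ZMod 2 × ZMod 2} :
    x ∈ LJ (LR j Λ ρ) J ↔ ∃ l ∈ LJ Λ (J.map j ∪ ρ), ∀ i, l (j i) = x i := by
  have hm : ∀ i, j i ∈ J.map j ∪ ρ ↔ i ∈ J := by
    intro i
    rw [Finset.mem_union, Finset.mem_map']
    simp [hρ i]
  constructor
  · rintro ⟨h1, h2, h3⟩
    obtain ⟨l, hl, hlx⟩ := mem_LR.1 h1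
    refine ⟨l, ⟨hl.1, fun q hq => ?_, fun q hq => ?_⟩, hlx⟩
    · by_cases hr : q ∈ Set.range j
      · obtain ⟨i, rfl⟩ := hr
        rw [hlx]
        exact h2 i ((hm i).1 hq)
      · rcases Finset.mem_union.1 hq with h | h
        · rw [Finset.mem_map] at h
          obtain ⟨i, -, rfl⟩ := h
          exact absurd ⟨i, rfl⟩ hr
        · exact (hl.2 q hr).1 h
    · by_cases hr : q ∈ Set.range j
      · obtain ⟨i, rfl⟩ := hr
        rw [hlx]
        exact h3 i (fun h => hq ((hm i).2 h))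
      · exact (hl.2 q hr).2 (fun h => hq (Finset.mem_union_right _ h))
  · rintro ⟨l, ⟨h1, h2, h3⟩, hlx⟩
    refine ⟨mem_LR.2 ⟨l, ⟨h1, fun q hq => ⟨fun h => h2 q (Finset.mem_union_right _ h),
      fun h => h3 q fun h' => ?_⟩⟩, hlx⟩, fun i hi => ?_, fun i hi => ?_⟩
    · rcases Finset.mem_union.1 h' with h4 | h4
      · rw [Finset.mem_map] at h4
        obtain ⟨i, -, rfl⟩ := h4
        exact hq ⟨i, rfl⟩
      · exact h h4
    · rw [← hlx]
      exact h2 _ ((hm i).2 hi)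
    · rw [← hlx]
      exact h3 _ (fun h => hi ((hm i).1 h))

lemma card_LJ_LR [DecidableEq κ] {j : ι ↪ κ} {Λ : AddSubgroup (κ → ZMod 2 × ZMod 2)} {ρ : Finset κ}
    (hρ : ∀ i, j i ∉ ρ) (h : Inj j Λ ρ) (J : Finset ι) :
    Nat.card (LJ (LR j Λ ρ) J) = Nat.card (LJ Λ (J.map j ∪ ρ)) := by
  symm
  refine Nat.card_eq_of_bijective (fun l : LJ Λ (J.map j ∪ ρ) =>
    (⟨fun i => (l : κ → ZMod 2 × ZMod 2) (j i), (LJ_LR hρ J).2 ⟨l, l.2, fun i => rfl⟩⟩ :
      LJ (LR j Λ ρ) J)) ⟨?_, ?_⟩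
  · intro l l' hll
    have hC : ∀ l : LJ Λ (J.map j ∪ ρ), (l : κ → ZMod 2 × ZMod 2) ∈ LC j Λ ρ := by
      intro l
      refine ⟨l.2.1, fun q hq => ⟨fun h => l.2.2.1 q (Finset.mem_union_right _ h),
        fun h => l.2.2.2 q fun h' => ?_⟩⟩
      rcases Finset.mem_union.1 h' with h4 | h4
      · rw [Finset.mem_map] at h4
        obtain ⟨i, -, rfl⟩ := h4
        exact hq ⟨i, rfl⟩
      · exact h h4
    refine Subtype.ext (inj_LC h (hC l) (hC l') fun i => ?_)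
    exact congrFun (congrArg Subtype.val hll) i
  · intro x
    obtain ⟨l, hl, hlx⟩ := (LJ_LR hρ J).1 x.2
    exact ⟨⟨l, hl⟩, Subtype.ext (funext hlx)⟩

end lin

/-! ### The law for the twists -/

section law

variable {S R : Finset ℕ}

/-- The inclusion. -/
def jS (S R : Finset ℕ) : S ↪ (S ∪ R : Finset ℕ) :=
  ⟨fun x => ⟨x, Finset.mem_union_left _ x.2⟩, fun x y h => by
    have := congrArg Subtype.val h
    exact Subtype.ext this⟩

lemma jS_val (i : S) : ((jS S R i : (S ∪ R : Finset ℕ)) : ℕ) = i := rfl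

lemma cnt {Λ : AddSubgroup ((S ∪ R : Finset ℕ) → ZMod 2 × ZMod 2)}
    {ρ : Finset (S ∪ R : Finset ℕ)} (hρ : ∀ i : S, jS S R i ∉ ρ) (hinj : Inj (jS S R) Λ ρ)
    {d : Finset (S ∪ R : Finset ℕ) → ℕ} (hd : ∀ J, Nat.card (LJ Λ J) = 2 ^ d J)
    (g : Finset ℕ → Finset ℕ)
    (hg : ∀ J : Finset S, (g (J.map (Function.Embedding.subtype _))).subtype (· ∈ S ∪ R) =
      J.map (jS S R) ∪ ρ) (i k : ℕ) :
    ((S.powersetCard i).filter fun J => d ((g J).subtype (· ∈ S ∪ R)) = k).card =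
      (Finset.univ.filter fun J : Finset S =>
        J.card = i ∧ Nat.card (LJ (LR (jS S R) Λ ρ) J) = 2 ^ k).card := by
  symm
  refine Finset.card_bij (fun J _ => J.map (Function.Embedding.subtype _)) ?_ ?_ ?_
  · intro J hJ
    rw [Finset.mem_filter] at hJ
    rw [Finset.mem_filter, Finset.mem_powersetCard]
    refine ⟨⟨?_, by rw [Finset.card_map]; exact hJ.2.1⟩, ?_⟩
    · intro x hx
      rw [Finset.mem_map] at hx
      obtain ⟨y, -, rfl⟩ := hx
      exact y.2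
    · rw [hg]
      have h4 := hJ.2.2
      rw [card_LJ_LR hρ hinj, hd] at h4
      exact Nat.pow_right_injective le_rfl h4
  · intro J _ J' _ h
    exact Finset.map_injective _ h
  · intro J hJ
    rw [Finset.mem_filter, Finset.mem_powersetCard] at hJ
    have h3 : (J.subtype (· ∈ S)).map (Function.Embedding.subtype _) = J := by
      rw [Finset.subtype_map, Finset.filter_true_of_mem fun x hx => hJ.1.1 hx]
    refine ⟨J.subtype (· ∈ S), ?_, h3⟩
    rw [Finset.mem_filter]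
    refine ⟨Finset.mem_univ _, ?_, ?_⟩
    · have h5 := congrArg Finset.card h3
      rw [Finset.card_map] at h5
      rw [h5]
      exact hJ.1.2
    · have h6 := hg (J.subtype (· ∈ S))
      rw [h3] at h6
      rw [card_LJ_LR hρ hinj, ← h6, hd, hJ.2]

lemma law2_of {F : Type} [Field F] [NumberField F] {m₀ m : ℕ} {ε : ℝ} (hSR : Disjoint S R)
    (Λ : AddSubgroup ((S ∪ R : Finset ℕ) → ZMod 2 × ZMod 2)) {p : 𝓞 F × 𝓞 F}
    (hG : ∀ J : Finset (S ∪ R : Finset ℕ),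
      Gd (Nat.card (LJ Λ J)) (twp (J.map (Function.Embedding.subtype _)) p))
    {d : Finset (S ∪ R : Finset ℕ) → ℕ} (hd : ∀ J, Nat.card (LJ Λ J) = 2 ^ d J)
    (hstep : ∀ J, ∀ q ∉ J, d (insert q J) = d J + 1 ∨ d (insert q J) + 1 = d J)
    (hinj : ∀ ρ : Finset (S ∪ R : Finset ℕ), ρ.card ≤ 1 → (∀ i : S, jS S R i ∉ ρ) →
      Inj (jS S R) Λ ρ)
    (hl : ∀ ρ : Finset (S ∪ R : Finset ℕ), ρ.card ≤ 1 → (∀ i : S, jS S R i ∉ ρ) →
      ∃ t : ℕ, Nat.card (LJ (LR (jS S R) Λ ρ) ∅) = 2 ^ t ∧ ∀ i, m₀ ≤ i → i ≤ m → ∀ k : ℕ,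
      |((Finset.univ.filter fun J : Finset S =>
          J.card = i ∧ Nat.card (LJ (LR (jS S R) Λ ρ) J) = 2 ^ k).card : ℝ) /
        ((Fintype.card S).choose i : ℝ) - pr2par (t + i) k| ≤ ε) : Law2 S R m₀ m ε p := by
  -- the general form
  have key : ∀ ρ : Finset (S ∪ R : Finset ℕ), ρ.card ≤ 1 → (∀ i : S, jS S R i ∉ ρ) →
      ∀ g : Finset ℕ → Finset ℕ,
      (∀ J : Finset S, (g (J.map (Function.Embedding.subtype _))).subtype (· ∈ S ∪ R) =
        J.map (jS S R) ∪ ρ) → ∀ i, m₀ ≤ i → i ≤ m → ∀ k : ℕ,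
      |(((S.powersetCard i).filter fun J => d ((g J).subtype (· ∈ S ∪ R)) = k).card : ℝ) /
        (S.card.choose i : ℝ) - pr2par (d ρ + i) k| ≤ ε := by
    intro ρ hρ1 hρ g hg i hi1 hi2 k
    obtain ⟨t, ht, h1⟩ := hl ρ hρ1 hρ
    have h2 : d ρ = t := by
      have h3 := card_LJ_LR hρ (hinj ρ hρ1 hρ) ∅
      rw [Finset.map_empty, Finset.empty_union, ht, hd] at h3
      exact (Nat.pow_right_injective le_rfl h3).symm
    have h3 := h1 i hi1 hi2 k
    rw [Fintype.card_coe] at h3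
    rw [cnt hρ (hinj ρ hρ1 hρ) hd g hg i k, h2]
    exact h3
  have he0 : ((∅ : Finset ℕ).subtype (· ∈ S ∪ R)) = (∅ : Finset (S ∪ R : Finset ℕ)) := by
    ext x
    simp
  refine ⟨fun J => d (J.subtype (· ∈ S ∪ R)), fun J hJ => ?_, fun i hi1 hi2 k => ⟨?_, ?_⟩⟩
  · have h1 := hG (J.subtype (· ∈ S ∪ R))
    rw [hd, Finset.subtype_map, Finset.filter_true_of_mem fun x hx => hJ hx] at h1
    exact h1
  · have h1 := key ∅ (by simp) (fun i => Finset.notMem_empty _) (fun J => J) (fun J => by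
      ext x
      rw [Finset.mem_subtype, Finset.union_empty, Finset.mem_map, Finset.mem_map]
      constructor
      · rintro ⟨y, hy, hyx⟩
        exact ⟨y, hy, Subtype.ext hyx⟩
      · rintro ⟨y, hy, rfl⟩
        exact ⟨y, hy, rfl⟩) i hi1 hi2 k
    simp only [he0]
    exact h1
  · intro r hr
    have hrT : r ∈ S ∪ R := Finset.mem_union_right _ hr
    have hρ : ∀ i : S, jS S R i ∉ ({⟨r, hrT⟩} : Finset (S ∪ R : Finset ℕ)) := by
      intro i h
      rw [Finset.mem_singleton] at h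
      have h1 : ((jS S R i : (S ∪ R : Finset ℕ)) : ℕ) = r := congrArg Subtype.val h
      rw [jS_val] at h1
      exact Finset.disjoint_left.1 hSR i.2 (h1 ▸ hr)
    have h1 := key {⟨r, hrT⟩} (by simp) hρ (fun J => insert r J) (fun J => by
      ext x
      rw [Finset.mem_subtype, Finset.mem_insert, Finset.mem_union, Finset.mem_map, Finset.mem_map,
        Finset.mem_singleton]
      constructor
      · rintro (h | ⟨y, hy, hyx⟩)
        · exact Or.inr (Subtype.ext h)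
        · exact Or.inl ⟨y, hy, Subtype.ext hyx⟩
      · rintro (⟨y, hy, rfl⟩ | h)
        · exact Or.inr ⟨y, hy, rfl⟩
        · exact Or.inl (congrArg Subtype.val h)) i hi1 hi2 k
    have h2 : pr2par (d {⟨r, hrT⟩} + i) k = pr2par (d ∅ + 1 + i) k := by
      have h3 := hstep ∅ ⟨r, hrT⟩ (Finset.notMem_empty _)
      rw [insert_empty_eq] at h3
      unfold pr2par
      have h4 : Even (d {⟨r, hrT⟩} + i + k) ↔ Even (d ∅ + 1 + i + k) := by
        rw [Nat.even_iff, Nat.even_iff]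
        omega
      simp only [h4]
    simp only [he0]
    rw [← h2]
    exact h1

end law

end Pool.Agent.H93PR
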