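import Pool.Agent.H10PR.Eul
import Pool.Agent.H68K.PR.StmX

/-!
# Project PR (helper93): the tails of the law of Poonen and Rains
-/

set_option autoImplicit false

open Finset Filter
open Pool.Agent.H68K.PR (pr2)

namespace Pool.Agent.H93PR

/-- the tail `∑_{j ≥ k} C_{2,j}` -/
noncomputable def tl (k : ℕ) : ℝ := 1 - ∑ j ∈ range k, pr2 j

lemma pr2_succ (k : ℕ) : pr2 (k + 1) = pr2 k * (2 / ((2 : ℝ) ^ (k + 1) - 1)) := by
  rw [pr2, pr2, prod_range_succ, mul_assoc]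

lemma tl_succ (k : ℕ) : tl (k + 1) = tl k - pr2 k := by
  rw [tl, tl, sum_range_succ]
  ring

lemma hasSum_tl (k : ℕ) : HasSum (fun j => pr2 (j + k)) (tl k) :=
  (hasSum_nat_add_iff' k).2 Pool.Agent.H10PR.eul.2.1

lemma tl_tsum (k : ℕ) : (∑' j : {j : ℕ | k ≤ j}, pr2 j) = tl k := by
  have h := Pool.Agent.H10PR.eul.2.1
  have h1 := Summable.sum_add_tsum_compl (f := pr2) (s := range k) h.summable
  rw [h.tsum_eq] at h1
  have h2 : ((↑(range k) : Set ℕ)ᶜ : Set ℕ) = {j : ℕ | k ≤ j} := by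
    ext j
    simp
  rw [h2] at h1
  rw [tl]
  linarith

lemma tl_step (k : ℕ) : tl (k + 1) ≤ 2 / ((2 : ℝ) ^ (k + 1) - 1) * tl k := by
  have h1 : HasSum (fun j => pr2 (j + (k + 1))) (tl (k + 1)) := hasSum_tl (k + 1)
  have h2 := (hasSum_tl k).mul_left (2 / ((2 : ℝ) ^ (k + 1) - 1))
  refine hasSum_le (fun j => ?_) h1 h2
  rw [← add_assoc, pr2_succ, mul_comm]
  refine mul_le_mul_of_nonneg_right ?_ (Pool.Agent.H10PR.eul.1 _).le
  have h3 : (2 : ℝ) ≤ 2 ^ (k + 1) := by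
    calc (2 : ℝ) = 2 ^ 1 := (pow_one _).symm
      _ ≤ 2 ^ (k + 1) := pow_le_pow_right₀ (by norm_num) (by omega)
  refine div_le_div_of_nonneg_left (by norm_num) (by linarith) ?_
  have h4 : (2 : ℝ) ^ (k + 1) ≤ 2 ^ (j + k + 1) := pow_le_pow_right₀ (by norm_num) (by omega)
  linarith

lemma c0_le : (∏' j : ℕ, (1 + (2 : ℝ)⁻¹ ^ j)⁻¹) ≤ 64 / 270 := by
  have h := Pool.Agent.H10PR.eul.2.2
  have ha : Antitone (fun n : ℕ => ∏ j ∈ range n, (1 + (2 : ℝ)⁻¹ ^ j)⁻¹) := by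
    refine antitone_nat_of_succ_le fun n => ?_
    rw [prod_range_succ]
    have h1 : (0 : ℝ) ≤ ∏ j ∈ range n, (1 + (2 : ℝ)⁻¹ ^ j)⁻¹ :=
      prod_nonneg fun j _ => by positivity
    have h2 : (1 + (2 : ℝ)⁻¹ ^ n)⁻¹ ≤ 1 := inv_le_one_of_one_le₀ (by
      have : (0 : ℝ) ≤ (2 : ℝ)⁻¹ ^ n := by positivity
      linarith)
    exact mul_le_of_le_one_right h1 h2
  refine (ha.le_of_tendsto h 4).trans (le_of_eq ?_)
  norm_num [prod_range_succ]

lemma pr2_zero : pr2 0 = ∏' j : ℕ, (1 + (2 : ℝ)⁻¹ ^ j)⁻¹ := by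
  rw [pr2, range_zero, prod_empty, mul_one]

lemma tl_three : tl 3 ≤ 7 / 8 * (1 / 8) := by
  have h0 := c0_le
  rw [← pr2_zero] at h0
  have h1 : pr2 3 = pr2 0 * (8 / 21) := by
    rw [pr2_succ, pr2_succ, pr2_succ]
    ring
  have h2 := tl_succ 3
  have h3 := tl_step 3
  norm_num at h3
  norm_num at h2
  linarith

lemma tl_le (k : ℕ) (hk : 3 ≤ k) : tl k ≤ (1 - (2 : ℝ)⁻¹ ^ k) * (2 : ℝ)⁻¹ ^ (k * (k - 1) / 2) := by
  induction k, hk using Nat.le_induction with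
  | base =>
    refine tl_three.trans (le_of_eq ?_)
    norm_num
  | succ k hk ih =>
    rw [Nat.triangle_succ, pow_add (2 : ℝ)⁻¹ (k * (k - 1) / 2) k]
    refine (tl_step k).trans ?_
    set x : ℝ := (2 : ℝ)⁻¹ ^ k with hx
    have hx0 : 0 < x := by positivity
    have hx1 : x ≤ 1 := pow_le_one₀ (by norm_num) (by norm_num)
    have e1 : (2 : ℝ) / ((2 : ℝ) ^ (k + 1) - 1) = x / (1 - x / 2) := by
      have e2 : (2 : ℝ) ^ (k + 1) = 2 / x := by
        rw [hx, inv_pow, div_inv_eq_mul, pow_succ]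
        ring
      rw [e2]
      have h3 : (2 : ℝ) / x - 1 ≠ 0 := by
        have : (2 : ℝ) ≤ 2 / x := by
          rw [le_div_iff₀ hx0]
          linarith
        linarith
      have h4 : 1 - x / 2 ≠ 0 := by linarith
      field_simp
    have e3 : (2 : ℝ)⁻¹ ^ (k + 1) = x / 2 := by
      rw [pow_succ, ← hx]
      ring
    rw [e1, e3]
    have hp : (0 : ℝ) < (2 : ℝ)⁻¹ ^ (k * (k - 1) / 2) := by positivity
    have h5 : 0 < 1 - x / 2 := by linarith
    calc x / (1 - x / 2) * tl k ≤ x / (1 - x / 2) * ((1 - x) * (2 : ℝ)⁻¹ ^ (k * (k - 1) / 2)) :=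
          mul_le_mul_of_nonneg_left ih (by positivity)
      _ = (1 - x) / (1 - x / 2) * ((2 : ℝ)⁻¹ ^ (k * (k - 1) / 2) * x) := by ring
      _ ≤ (1 - x / 2) * ((2 : ℝ)⁻¹ ^ (k * (k - 1) / 2) * x) := by
          refine mul_le_mul_of_nonneg_right ?_ (by positivity)
          rw [div_le_iff₀ h5]
          nlinarith

/-- the tails decay as `2 ^ (- k (k - 1) / 2)` -/
theorem tl_lt (k : ℕ) (hk : 1 ≤ k) : tl k < (2 : ℝ)⁻¹ ^ (k * (k - 1) / 2) := by
  rcases Nat.lt_or_ge k 3 with h | h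
  · have h0 := c0_le
    rw [← pr2_zero] at h0
    have hp := Pool.Agent.H10PR.eul.1 0
    have h2 := tl_succ 2
    norm_num at h2
    have h3 := tl_three
    have h4 : pr2 2 = pr2 0 * (4 / 3) := by
      rw [pr2_succ, pr2_succ]
      ring
    interval_cases k
    · norm_num [tl]
      exact hp
    · norm_num
      linarith
  · refine (tl_le k h).trans_lt ?_
    have hp : (0 : ℝ) < (2 : ℝ)⁻¹ ^ (k * (k - 1) / 2) := by positivity
    have hq : (0 : ℝ) < (2 : ℝ)⁻¹ ^ k := by positivity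
    nlinarith

theorem cst2 : Pool.Agent.H68K.PR.S_CST2 := fun k hk => by
  rw [tl_tsum]
  exact tl_lt k hk

end Pool.Agent.H93PR
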