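import Mathlib
import Pool.Agent.H93PR.QR3

/-!
# Large families of elliptic curves over `ℚ` with superexponentially small proportions of large ranks

(Superseded by `Pool/Agent/Results/MP_6073f3_nt/NearEveryCurve.lean`.)

The elliptic curves over `ℚ`, ordered by the naive height, are the curves `y² = x³ + A x + B` where
`(A, B)` runs through the minimal pairs. A large family is a set of minimal pairs which is given by
congruences modulo some `M` and by the condition that `4 A³ + 27 B²` is not divisible by the square of a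
prime which does not divide `M`, and which has positive lower density in the set of all minimal pairs.

The constants of Poonen and Rains are
`C_{2,k} = ∏_{j ≥ 0} (1 + 2^{-j})^{-1} ∏_{1 ≤ i ≤ k} 2 / (2^i - 1)`; their sum over `k ≥ 0` is one.

**Theorem.** For all `ε > 0` and `K` there is a large family in which, ordered by height:
* for all `k`, the proportion of the curves of rank at least `k` is at most `∑_{j ≥ k} C_{2,j} + ε`;
* for `1 ≤ k ≤ K`, the proportion of the curves of rank at least `k` is at most `2^{-k(k-1)/2}`;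
* the proportion of the curves whose group of rational points is finite (of odd order) is at least
  `C_{2,0} - ε`, where `C_{2,0} = 0.2097...`.

The average orders of the `n`-Selmer groups, `n ≤ 5` (Bhargava-Shankar), give the bound `5 / (5^k - 1)`
for the proportion of the rank at least `k`, which decreases only exponentially. The bounds here are
smaller for `k ≥ 5`, and decrease superexponentially.

The proof combines the law of Poonen and Rains up to `ε` in total variation for the `2`-Selmer groups in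
large families, from project PR (`Pool/Agent/H68K/PR/FinalV.lean`; its idea is explained in
`Pool/Agent/Results/MP_8cb858_nt/LargeFamilyLaw.lean`), with the bound of the rank by the dimension of
the `2`-Selmer group, and an estimate of the tails of the law of Poonen and Rains.

Built on project PF of the starting library (helper783 and the seats named there) and on project PR
(helper10, helper18, helper33, helper42, helper64, helper68, helper71, helper72 and helper93).
-/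

set_option autoImplicit false

namespace Pool.Agent.H93PR.LargeFamiliesOfSmallRank

/-- the elliptic curve `y² = x³ + A x + B` over `ℚ`, where `c = (A, B)` -/
def E (c : ℤ × ℤ) : WeierstrassCurve ℚ := ⟨0, 0, 0, (c.1 : ℚ), (c.2 : ℚ)⟩

/-- the rank of the group of the rational points -/
noncomputable def rank (c : ℤ × ℤ) : ℕ := Module.finrank ℤ (E c).toAffine.Point

/-- `4 A³ + 27 B²` -/
def disc (c : ℤ × ℤ) : ℤ := 4 * c.1 ^ 3 + 27 * c.2 ^ 2

/-- The minimal pairs: the pairs `(A, B)` of integers with `4 A³ + 27 B² ≠ 0` and no prime `p` with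
`p⁴ ∣ A` and `p⁶ ∣ B`. Each elliptic curve over `ℚ` is isomorphic to exactly one such curve. -/
def Curves : Set (ℤ × ℤ) :=
  {c | disc c ≠ 0 ∧ ∀ p : ℕ, p.Prime → ¬ ((p : ℤ) ^ 4 ∣ c.1 ∧ (p : ℤ) ^ 6 ∣ c.2)}

/-- the height `max (4 |A|³) (27 B²)` -/
def height (c : ℤ × ℤ) : ℕ := max (4 * c.1.natAbs ^ 3) (27 * c.2.natAbs ^ 2)

/-- the curves of height at most `X` -/
def UpTo (X : ℝ) : Set (ℤ × ℤ) := {c | c ∈ Curves ∧ (height c : ℝ) ≤ X}

/-- `R` is a union of residue classes modulo `M` -/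
def Periodic (M : ℕ) (R : Set (ℤ × ℤ)) : Prop :=
  ∀ c c' : ℤ × ℤ, c ∈ R → (M : ℤ) ∣ c'.1 - c.1 → (M : ℤ) ∣ c'.2 - c.2 → c' ∈ R

/-- The family given by `M` and `R`: the pairs in `R` with `4 A³ + 27 B² ≠ 0` such that `4 A³ + 27 B²` is
not divisible by the square of a prime which does not divide `M`. -/
def Family (M : ℕ) (R : Set (ℤ × ℤ)) : Set (ℤ × ℤ) :=
  {c | c ∈ R ∧ disc c ≠ 0 ∧ ∀ q : ℕ, q.Prime → ¬ q ∣ M → ¬ (q : ℤ) ^ 2 ∣ disc c}

/-- `G` consists of minimal pairs, and has positive lower density among them. -/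
def Large (G : Set (ℤ × ℤ)) : Prop :=
  G ⊆ Curves ∧ ∃ c X₀ : ℝ, 0 < c ∧ ∀ X : ℝ, X₀ ≤ X →
    0 < (UpTo X).ncard ∧ c * ((UpTo X).ncard : ℝ) ≤ ((UpTo X ∩ G).ncard : ℝ)

/-- The constant `C_{2,k}` of Poonen and Rains. -/
noncomputable def poonenRains (k : ℕ) : ℝ :=
  (∏' j : ℕ, (1 + (2 : ℝ)⁻¹ ^ j)⁻¹) * ∏ i ∈ Finset.range k, (2 / ((2 : ℝ) ^ (i + 1) - 1))

/-- `1 - ∑_{j < k} C_{2,j}`, that is, `∑_{j ≥ k} C_{2,j}` -/
noncomputable def tail (k : ℕ) : ℝ := 1 - ∑ j ∈ Finset.range k, poonenRains j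

theorem tail_eq (k : ℕ) : tail k = Pool.Agent.H93PR.tl k := rfl

theorem exists_gap (K : ℕ) : ∃ δ : ℝ, 0 < δ ∧ ∀ k : ℕ, 1 ≤ k → k ≤ K →
    tail k + δ ≤ (2 : ℝ)⁻¹ ^ (k * (k - 1) / 2) := by
  induction K with
  | zero => exact ⟨1, one_pos, fun k h1 h2 => by omega⟩
  | succ K ih =>
    obtain ⟨δ, hδ, h⟩ := ih
    have h1 := Pool.Agent.H93PR.tl_lt (K + 1) (by omega)
    refine ⟨min δ ((2 : ℝ)⁻¹ ^ ((K + 1) * (K + 1 - 1) / 2) - Pool.Agent.H93PR.tl (K + 1)),
      lt_min hδ (by linarith), fun k hk1 hk2 => ?_⟩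
    rcases Nat.lt_or_ge k (K + 1) with h2 | h2
    · have h3 := h k hk1 (by omega)
      have h4 := min_le_left δ ((2 : ℝ)⁻¹ ^ ((K + 1) * (K + 1 - 1) / 2) - Pool.Agent.H93PR.tl (K + 1))
      linarith
    · have h3 : k = K + 1 := by omega
      subst h3
      have h4 := min_le_right δ ((2 : ℝ)⁻¹ ^ ((K + 1) * (K + 1 - 1) / 2) - Pool.Agent.H93PR.tl (K + 1))
      rw [tail_eq]
      linarith

/-- **Theorem.** For all `ε > 0` and `K` there is a family of minimal pairs, given by congruences modulo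
`M` and the squarefreeness of `4 A³ + 27 B²` outside `M`, of positive lower density, such that for all
large `X`, among its members of height at most `X`: the proportion of the curves of rank at least `k` is
at most `∑_{j ≥ k} C_{2,j} + ε`, for all `k`; it is at most `2^{-k(k-1)/2}` for `1 ≤ k ≤ K`; and the
proportion of the curves whose group of rational points is finite and of odd order is at least
`C_{2,0} - ε`. -/
theorem result (ε : ℝ) (hε : 0 < ε) (K : ℕ) :
    ∃ (M : ℕ) (R : Set (ℤ × ℤ)), 0 < M ∧ Periodic M R ∧ Large (Family M R) ∧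
      ∃ X₀ : ℝ, ∀ X : ℝ, X₀ ≤ X →
        (∀ k : ℕ, ({c ∈ UpTo X ∩ Family M R | k ≤ rank c}.ncard : ℝ) ≤
          (tail k + ε) * ((UpTo X ∩ Family M R).ncard : ℝ)) ∧
        (∀ k : ℕ, 1 ≤ k → k ≤ K → ({c ∈ UpTo X ∩ Family M R | k ≤ rank c}.ncard : ℝ) ≤
          (2 : ℝ)⁻¹ ^ (k * (k - 1) / 2) * ((UpTo X ∩ Family M R).ncard : ℝ)) ∧
        (poonenRains 0 - ε) * ((UpTo X ∩ Family M R).ncard : ℝ) ≤
          ({c ∈ UpTo X ∩ Family M R | Finite (E c).toAffine.Point ∧
            Odd (Nat.card (E c).toAffine.Point)}.ncard : ℝ) := by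
  obtain ⟨δ, hδ, hgap⟩ := exists_gap K
  obtain ⟨M, R, hM, hR, hmin, c₀, X₀, hc₀, hX₀, h⟩ :=
    Pool.Agent.H93PR.QR.fam (min ε δ) (lt_min hε hδ)
  have hFm : Pool.Agent.H93PR.QR.Fm M R = Family M R := rfl
  rw [hFm] at hmin h
  have hsub : Family M R ⊆ Curves := fun c hc => ⟨hc.2.1, hmin c hc⟩
  have hfin : ∀ X : ℝ, {c : ℤ × ℤ | (Pool.Agent.H93PR.QR.height c : ℝ) ≤ X}.Finite :=
    Pool.Agent.H93PR.QR.height_finite
  have hset : ∀ X : ℝ, UpTo X ∩ Family M R =
      {c : ℤ × ℤ | (Pool.Agent.H93PR.QR.height c : ℝ) ≤ X ∧ c ∈ Family M R} := by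
    intro X
    ext c
    constructor
    · rintro ⟨h1, h2⟩
      exact ⟨h1.2, h2⟩
    · rintro ⟨h1, h2⟩
      exact ⟨⟨hsub h2, h1⟩, h2⟩
  refine ⟨M, R, hM, hR, ⟨hsub, c₀, X₀, hc₀, fun X hX => ?_⟩, X₀, fun X hX => ?_⟩
  · obtain ⟨h1, h2, -⟩ := h X hX
    have h3 : (UpTo X).ncard ≤ {c : ℤ × ℤ | (Pool.Agent.H93PR.QR.height c : ℝ) ≤ X ∧
        Pool.Agent.H93PR.QR.dsc c ≠ 0}.ncard := by
      apply Set.ncard_le_ncard
      · intro c hc
        exact ⟨hc.2, hc.1.1⟩
      · exact (hfin X).subset fun c hc => hc.1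
    have h4 : (UpTo X ∩ Family M R).ncard ≤ (UpTo X).ncard :=
      Set.ncard_le_ncard Set.inter_subset_left ((hfin X).subset fun c hc => hc.2)
    rw [hset X] at h4 ⊢
    have h5 : (0 : ℝ) < ({c : ℤ × ℤ | (Pool.Agent.H93PR.QR.height c : ℝ) ≤ X ∧
        Pool.Agent.H93PR.QR.dsc c ≠ 0}.ncard : ℝ) := by exact_mod_cast h1
    have h6 : (0 : ℝ) < ({c : ℤ × ℤ | (Pool.Agent.H93PR.QR.height c : ℝ) ≤ X ∧
        c ∈ Family M R}.ncard : ℝ) := lt_of_lt_of_le (mul_pos hc₀ h5) h2
    refine ⟨?_, ?_⟩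
    · have h7 : 0 < {c : ℤ × ℤ | (Pool.Agent.H93PR.QR.height c : ℝ) ≤ X ∧
        c ∈ Family M R}.ncard := by exact_mod_cast h6
      omega
    · refine le_trans (mul_le_mul_of_nonneg_left ?_ hc₀.le) h2
      exact_mod_cast h3
  · obtain ⟨-, -, h3⟩ := h X hX
    rw [hset X]
    obtain ⟨n, hn⟩ : ∃ n : ℝ, n = ({c : ℤ × ℤ | (Pool.Agent.H93PR.QR.height c : ℝ) ≤ X ∧
        c ∈ Family M R}.ncard : ℝ) := ⟨_, rfl⟩
    have hn0 : 0 ≤ n := by rw [hn]; exact Nat.cast_nonneg _
    rw [← hn] at h3 ⊢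
    have hfinG : {c : ℤ × ℤ | (Pool.Agent.H93PR.QR.height c : ℝ) ≤ X ∧ c ∈ Family M R}.Finite :=
      (hfin X).subset fun c hc => hc.1
    -- the ranks
    have key : ∀ k : ℕ, ({c ∈ {c : ℤ × ℤ | (Pool.Agent.H93PR.QR.height c : ℝ) ≤ X ∧ c ∈ Family M R} |
        k ≤ rank c}.ncard : ℝ) ≤ (tail k + min ε δ) * n := by
      intro k
      have h4 := (abs_le.1 (h3 (↑(Finset.range k) : Set ℕ))).1
      have e1 : (∑' j : (↑(Finset.range k) : Set ℕ), Pool.Agent.H68K.PR.pr2 j) =
          ∑ j ∈ Finset.range k, poonenRains j :=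
        Finset.tsum_subtype' (Finset.range k) Pool.Agent.H68K.PR.pr2
      rw [e1] at h4
      have h5 : ({c ∈ {c : ℤ × ℤ | (Pool.Agent.H93PR.QR.height c : ℝ) ≤ X ∧ c ∈ Family M R} |
          k ≤ rank c}.ncard) + {c : ℤ × ℤ | (Pool.Agent.H93PR.QR.height c : ℝ) ≤ X ∧
          c ∈ Family M R ∧ ∃ j ∈ (↑(Finset.range k) : Set ℕ),
          Pool.Agent.H68K.PR.Gd (2 ^ j) (Pool.Agent.H93PR.QR.io c)}.ncard ≤
          {c : ℤ × ℤ | (Pool.Agent.H93PR.QR.height c : ℝ) ≤ X ∧ c ∈ Family M R}.ncard := by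
        rw [← Set.ncard_union_eq ?_ (hfinG.subset fun c hc => hc.1)
          (hfinG.subset fun c hc => ⟨hc.1, hc.2.1⟩)]
        · apply Set.ncard_le_ncard _ hfinG
          rintro c (hc | hc)
          · exact hc.1
          · exact ⟨hc.1, hc.2.1⟩
        · rw [Set.disjoint_left]
          rintro c ⟨-, hc⟩ ⟨-, -, j, hj, hG⟩
          have h6 := Pool.Agent.H93PR.QR.rank_le hG
          have h7 : j < k := by simpa using hj
          have h8 : rank c ≤ j := h6
          have h9 : k ≤ rank c := hc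
          omega
      have h6 : ((({c ∈ {c : ℤ × ℤ | (Pool.Agent.H93PR.QR.height c : ℝ) ≤ X ∧ c ∈ Family M R} |
          k ≤ rank c}.ncard) + {c : ℤ × ℤ | (Pool.Agent.H93PR.QR.height c : ℝ) ≤ X ∧
          c ∈ Family M R ∧ ∃ j ∈ (↑(Finset.range k) : Set ℕ),
          Pool.Agent.H68K.PR.Gd (2 ^ j) (Pool.Agent.H93PR.QR.io c)}.ncard : ℕ) : ℝ) ≤ n := by
        rw [hn]
        exact_mod_cast h5
      rw [Nat.cast_add] at h6
      unfold tail
      linarith
    refine ⟨fun k => (key k).trans (mul_le_mul_of_nonneg_right ?_ hn0),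
      fun k hk1 hk2 => (key k).trans (mul_le_mul_of_nonneg_right ?_ hn0), ?_⟩
    · have := min_le_left ε δ
      linarith
    · have h4 := hgap k hk1 hk2
      have := min_le_right ε δ
      linarith
    · have h4 := (abs_le.1 (h3 {0})).1
      have e1 : (∑' j : ({0} : Set ℕ), Pool.Agent.H68K.PR.pr2 j) = poonenRains 0 := by
        rw [tsum_singleton]
        rfl
      rw [e1] at h4
      have h5 : {c : ℤ × ℤ | (Pool.Agent.H93PR.QR.height c : ℝ) ≤ X ∧
          c ∈ Family M R ∧ ∃ j ∈ ({0} : Set ℕ),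
          Pool.Agent.H68K.PR.Gd (2 ^ j) (Pool.Agent.H93PR.QR.io c)}.ncard ≤
          {c ∈ {c : ℤ × ℤ | (Pool.Agent.H93PR.QR.height c : ℝ) ≤ X ∧ c ∈ Family M R} |
            Finite (E c).toAffine.Point ∧ Odd (Nat.card (E c).toAffine.Point)}.ncard := by
        apply Set.ncard_le_ncard
        · rintro c ⟨h6, h7, j, rfl, h8⟩
          exact ⟨⟨h6, h7⟩, Pool.Agent.H93PR.QR.fin_odd h8⟩
        · exact hfinG.subset fun c hc => hc.1
      have h6 : ({c : ℤ × ℤ | (Pool.Agent.H93PR.QR.height c : ℝ) ≤ X ∧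
          c ∈ Family M R ∧ ∃ j ∈ ({0} : Set ℕ),
          Pool.Agent.H68K.PR.Gd (2 ^ j) (Pool.Agent.H93PR.QR.io c)}.ncard : ℝ) ≤
          ({c ∈ {c : ℤ × ℤ | (Pool.Agent.H93PR.QR.height c : ℝ) ≤ X ∧ c ∈ Family M R} |
            Finite (E c).toAffine.Point ∧ Odd (Nat.card (E c).toAffine.Point)}.ncard : ℝ) := by
        exact_mod_cast h5
      have h7 : min ε δ * n ≤ ε * n := mul_le_mul_of_nonneg_right (min_le_left _ _) hn0
      rw [sub_mul]
      linarith

end Pool.Agent.H93PR.LargeFamiliesOfSmallRank
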