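import Pool.Agent.H93PR.CombC

/-!
# Project PR, stub COMB: numbers, and the main inequality
-/

set_option autoImplicit false
set_option linter.all false

namespace Pool.Agent.H93PR

open Finset Module
open scoped Classical

theorem num1 {k : ℕ} (hl : 1 ≤ Nat.log 2 k) (hk : 4 * Nat.log 2 k ^ 2 ≤ k) :
    k ^ 2 * (k - k / (2 * Nat.log 2 k ^ 2)) ^ (16 * Nat.log 2 k ^ 3) < k ^ (16 * Nat.log 2 k ^ 3) := by
  obtain ⟨L, hL⟩ : ∃ L, L = Nat.log 2 k := ⟨_, rfl⟩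
  rw [← hL] at hl hk ⊢
  obtain ⟨s, hs⟩ : ∃ s, s = k / (2 * L ^ 2) := ⟨_, rfl⟩
  rw [← hs]
  have hk0 : 0 < k := by
    have : 0 < L ^ 2 := by positivity
    omega
  have hL2 : 0 < 2 * L ^ 2 := by positivity
  have hs1 : s * (2 * L ^ 2) ≤ k := by rw [hs]; exact Nat.div_mul_le_self _ _
  have hs2 : k < (s + 1) * (2 * L ^ 2) := by
    rw [hs, mul_comm]
    exact Nat.lt_mul_div_succ _ hL2
  have hsk : s ≤ k := by
    rw [hs]; exact Nat.div_le_self _ _
  have hLr : (1 : ℝ) ≤ L := by exact_mod_cast hl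
  have hkr : (0 : ℝ) < k := by exact_mod_cast hk0
  have hkr4 : (4 : ℝ) * (L : ℝ) ^ 2 ≤ k := by exact_mod_cast hk
  have hs2r : (k : ℝ) < (s + 1) * (2 * (L : ℝ) ^ 2) := by exact_mod_cast hs2
  have hL2r : (0 : ℝ) < (L : ℝ) ^ 2 := by positivity
  -- `s / k ≥ 1 / (4 L ^ 2)`
  have h1 : (k : ℝ) / (4 * (L : ℝ) ^ 2) ≤ s := by
    rw [div_le_iff₀ (by positivity)]
    nlinarith
  have h2 : ((k - s : ℕ) : ℝ) ≤ k * Real.exp (-(1 / (4 * (L : ℝ) ^ 2))) := by
    rw [Nat.cast_sub hsk]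
    have h3 := Real.add_one_le_exp (-(1 / (4 * (L : ℝ) ^ 2)))
    have h4 : (k : ℝ) * (-(1 / (4 * (L : ℝ) ^ 2)) + 1) ≤ k * Real.exp (-(1 / (4 * (L : ℝ) ^ 2))) :=
      mul_le_mul_of_nonneg_left h3 hkr.le
    have h5 : (k : ℝ) * (-(1 / (4 * (L : ℝ) ^ 2)) + 1) = k - k / (4 * (L : ℝ) ^ 2) := by ring
    linarith
  have h3 : ((k - s : ℕ) : ℝ) ^ (16 * L ^ 3) ≤ (k : ℝ) ^ (16 * L ^ 3) * Real.exp (-(4 * (L : ℝ))) := by
    calc ((k - s : ℕ) : ℝ) ^ (16 * L ^ 3) ≤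
        (k * Real.exp (-(1 / (4 * (L : ℝ) ^ 2)))) ^ (16 * L ^ 3) :=
          pow_le_pow_left₀ (Nat.cast_nonneg _) h2 _
      _ = (k : ℝ) ^ (16 * L ^ 3) * Real.exp (-(4 * (L : ℝ))) := by
          rw [mul_pow, ← Real.exp_nat_mul]
          congr 2
          push_cast
          field_simp
          ring
  have h4 : (k : ℝ) ^ 2 < Real.exp (4 * (L : ℝ)) := by
    have h5 : k < 2 ^ (L + 1) := by
      rw [hL]; exact Nat.lt_pow_succ_log_self (by norm_num) _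
    have h6 : k ^ 2 < 16 ^ L := by
      calc k ^ 2 < (2 ^ (L + 1)) ^ 2 := Nat.pow_lt_pow_left h5 (by norm_num)
        _ = 4 ^ (L + 1) := by rw [← pow_mul, mul_comm, pow_mul]; norm_num
        _ ≤ 4 ^ (2 * L) := Nat.pow_le_pow_right (by norm_num) (by omega)
        _ = 16 ^ L := by rw [pow_mul]; norm_num
    have h7 : (k : ℝ) ^ 2 < 16 ^ L := by exact_mod_cast h6
    refine h7.trans_le ?_
    rw [mul_comm, Real.exp_nat_mul]
    apply pow_le_pow_left₀ (by norm_num)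
    have h8 : Real.exp 4 = Real.exp 1 ^ 4 := by
      rw [← Real.exp_nat_mul]; norm_num
    rw [h8]
    have h9 : (2 : ℝ) ≤ Real.exp 1 := by
      have := Real.add_one_le_exp (1 : ℝ)
      linarith
    calc (16 : ℝ) = 2 ^ 4 := by norm_num
      _ ≤ Real.exp 1 ^ 4 := pow_le_pow_left₀ (by norm_num) h9 _
  have h5 : (k : ℝ) ^ 2 * ((k - s : ℕ) : ℝ) ^ (16 * L ^ 3) < (k : ℝ) ^ (16 * L ^ 3) := by
    have hp : (0 : ℝ) < (k : ℝ) ^ (16 * L ^ 3) := by positivity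
    calc (k : ℝ) ^ 2 * ((k - s : ℕ) : ℝ) ^ (16 * L ^ 3)
        ≤ (k : ℝ) ^ 2 * ((k : ℝ) ^ (16 * L ^ 3) * Real.exp (-(4 * (L : ℝ)))) :=
          mul_le_mul_of_nonneg_left h3 (by positivity)
      _ < Real.exp (4 * (L : ℝ)) * ((k : ℝ) ^ (16 * L ^ 3) * Real.exp (-(4 * (L : ℝ)))) :=
          mul_lt_mul_of_pos_right h4 (by positivity)
      _ = (k : ℝ) ^ (16 * L ^ 3) * (Real.exp (4 * (L : ℝ)) * Real.exp (-(4 * (L : ℝ)))) := by ring
      _ = (k : ℝ) ^ (16 * L ^ 3) := by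
          rw [← Real.exp_add, add_neg_cancel, Real.exp_zero, mul_one]
  exact_mod_cast h5

theorem poly_lt (p : ℕ) (C : ℕ) : ∃ L₀ : ℕ, ∀ L : ℕ, L₀ ≤ L → C * L ^ p < 2 ^ L := by
  have h1 := tendsto_pow_const_div_const_pow_of_one_lt p (r := 2) (by norm_num)
  have h2 : ∀ᶠ n : ℕ in Filter.atTop, (n : ℝ) ^ p / 2 ^ n < 1 / (C + 1) :=
    h1.eventually (gt_mem_nhds (by positivity))
  obtain ⟨L₀, hL₀⟩ := Filter.eventually_atTop.1 h2
  refine ⟨L₀, fun L hL => ?_⟩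
  have h3 := hL₀ L hL
  rw [div_lt_div_iff₀ (by positivity) (by positivity), one_mul] at h3
  have h4 : L ^ p * (C + 1) < 2 ^ L := by exact_mod_cast h3
  have h5 : C * L ^ p ≤ L ^ p * (C + 1) := by ring_nf; omega
  omega

theorem num2 (M : ℕ) : ∃ k₂ : ℕ, ∀ k, k₂ ≤ k → 1 ≤ Nat.log 2 k ∧ 4 * Nat.log 2 k ^ 2 ≤ k ∧
    ∀ r, r ≤ 16 * Nat.log 2 k ^ 3 → M * ((2 * (r + 1) ^ 2) ^ M + 1) < k := by
  obtain ⟨L₁, hL₁⟩ := poly_lt (6 * M) (2 * M * 578 ^ M)
  obtain ⟨L₂, hL₂⟩ := poly_lt 2 4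
  refine ⟨2 ^ (max 1 (max L₁ L₂)), fun k hk => ?_⟩
  have hk0 : k ≠ 0 := by
    have : 0 < 2 ^ (max 1 (max L₁ L₂)) := by positivity
    omega
  have h1 : max 1 (max L₁ L₂) ≤ Nat.log 2 k := (Nat.le_log_iff_pow_le (by norm_num) hk0).2 hk
  have h2 : 2 ^ Nat.log 2 k ≤ k := Nat.pow_log_le_self 2 hk0
  obtain ⟨L, hL⟩ : ∃ L, L = Nat.log 2 k := ⟨_, rfl⟩
  rw [← hL] at h1 h2 ⊢
  have hl1 : 1 ≤ L := (le_max_left _ _).trans h1
  have hl2 : L₁ ≤ L := (le_max_left _ _).trans ((le_max_right _ _).trans h1)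
  have hl3 : L₂ ≤ L := (le_max_right _ _).trans ((le_max_right _ _).trans h1)
  refine ⟨hl1, ?_, fun r hr => ?_⟩
  · exact ((hL₂ L hl3).trans_le h2).le
  · have h3 := (hL₁ L hl2).trans_le h2
    refine lt_of_le_of_lt ?_ h3
    have hL3 : 1 ≤ L ^ 3 := Nat.one_le_pow _ _ hl1
    have h4 : r + 1 ≤ 17 * L ^ 3 := by omega
    have h5 : 2 * (r + 1) ^ 2 ≤ 578 * L ^ 6 := by
      calc 2 * (r + 1) ^ 2 ≤ 2 * (17 * L ^ 3) ^ 2 := by gcongr
        _ = 578 * L ^ 6 := by ring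
    have h6 : (2 * (r + 1) ^ 2) ^ M ≤ 578 ^ M * L ^ (6 * M) := by
      calc (2 * (r + 1) ^ 2) ^ M ≤ (578 * L ^ 6) ^ M := Nat.pow_le_pow_left h5 _
        _ = 578 ^ M * L ^ (6 * M) := by rw [mul_pow, ← pow_mul]
    have h7 : 1 ≤ 578 ^ M * L ^ (6 * M) :=
      Nat.one_le_iff_ne_zero.2 (by positivity)
    calc M * ((2 * (r + 1) ^ 2) ^ M + 1) ≤ M * (578 ^ M * L ^ (6 * M) + 578 ^ M * L ^ (6 * M)) := by
          gcongr
      _ = 2 * M * 578 ^ M * L ^ (6 * M) := by ring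

/-- the weight -/
noncomputable def wt {ι : Type} [Fintype ι] (l : VV ι) : ℕ :=
  (univ.filter fun q => l.1 q ≠ 0 ∨ l.2 q ≠ 0).card

/-- **The main inequality**: if all weights are large, `K` is not small. -/
theorem core (M : ℕ) : ∃ k₀ : ℕ, ∀ (ι : Type) [Fintype ι] (Λ : Submodule (ZMod 2) (VV ι)),
    k₀ ≤ Fintype.card ι → Lag Λ → Nat.card (KK Λ) ≤ M →
    (∀ l ∈ Λ, l ≠ 0 → Fintype.card ι ≤ Nat.log 2 (Fintype.card ι) ^ 2 * wt l) → False := by
  obtain ⟨k₂, hk₂⟩ := num2 M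
  refine ⟨k₂, fun ι _ Λ hk h hM hw => ?_⟩
  obtain ⟨k, hkk⟩ : ∃ k, k = Fintype.card ι := ⟨_, rfl⟩
  rw [← hkk] at hk hw
  obtain ⟨hl, hk4, hbig⟩ := hk₂ k hk
  have h1 := num1 hl hk4
  obtain ⟨L, hL⟩ : ∃ L, L = Nat.log 2 k := ⟨_, rfl⟩
  rw [← hL] at hl hk4 hbig h1 hw
  have hL2 : 0 < L ^ 2 := by positivity
  have hk0 : 0 < k := by omega
  -- a large class
  have : Finite (Dual (ZMod 2) (KK Λ)) := Module.finite_of_finite (ZMod 2)
  letI : Fintype (Dual (ZMod 2) (KK Λ)) := Fintype.ofFinite _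
  have hcd : Fintype.card (Dual (ZMod 2) (KK Λ)) ≤ M := by
    rw [← Nat.card_eq_fintype_card, card_dual]; exact hM
  obtain ⟨τ, hτ⟩ : ∃ τ, k ≤ M * (univ.filter fun q => kap Λ q = τ).card := by
    by_contra hcon
    push Not at hcon
    have h2 : ∑ τ, (univ.filter fun q => kap Λ q = τ).card = k := by
      rw [hkk, ← card_univ]
      exact (card_eq_sum_card_fiberwise fun _ _ => mem_coe.2 (mem_univ _)).symm
    have hM0 : 0 < Fintype.card (Dual (ZMod 2) (KK Λ)) := Fintype.card_pos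
    have h3 : ∑ τ : Dual (ZMod 2) (KK Λ), M * (univ.filter fun q => kap Λ q = τ).card <
        ∑ τ : Dual (ZMod 2) (KK Λ), k :=
      sum_lt_sum_of_nonempty ⟨0, mem_univ _⟩ fun τ _ => hcon τ
    rw [← mul_sum, h2, sum_const, card_univ, smul_eq_mul] at h3
    have h4 := Nat.mul_le_mul_right k hcd
    omega
  have hne : (univ.filter fun q => kap Λ q = τ).Nonempty := by
    rw [← Finset.card_pos]
    by_contra hcon
    have : (univ.filter fun q => kap Λ q = τ).card = 0 := by omega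
    rw [this] at hτ
    omega
  obtain ⟨i0, hi0⟩ := hne
  obtain ⟨C, hC⟩ : ∃ C, C = (univ.filter fun q => kap Λ q = τ).erase i0 := ⟨_, rfl⟩
  have hCc : C.card + 1 = (univ.filter fun q => kap Λ q = τ).card := by
    rw [hC]; exact card_erase_add_one hi0
  rw [mem_filter] at hi0
  have hCm : ∀ i, i ∈ C ↔ i ≠ i0 ∧ Same Λ i i0 := by
    intro i
    rw [hC, mem_erase, mem_filter, ← hi0.2, kap_eq]
    simp
  -- the rows
  have hy : ∀ i, ∃ y : ι → ZMod 2, i ∈ C → ((ee i i0, y) : VV ι) ∈ Λ ∧ y i = 1 ∧ y i0 = 1 := by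
    intro i
    by_cases hi : i ∈ C
    · obtain ⟨y, hy⟩ := p2 h ((hCm i).1 hi).2
      exact ⟨y, fun _ => hy⟩
    · exact ⟨0, fun h' => absurd h' hi⟩
  choose y hy using hy
  have hR : Rows Λ i0 C y := ⟨fun i hi => ((hCm i).1 hi).1, fun i hi => ((hCm i).1 hi).2,
    fun i hi => (hy i hi).1, fun i hi => (hy i hi).2.1, fun i hi => (hy i hi).2.2⟩
  obtain ⟨G, hG⟩ : ∃ G : ι × ι → Finset ι, ∀ p q, q ∈ G p ↔ ¬ Same Λ q i0 ∧ y p.1 q ≠ y p.2 q :=
    ⟨fun p => univ.filter fun q => ¬ Same Λ q i0 ∧ y p.1 q ≠ y p.2 q, fun p q => by simp⟩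
  obtain ⟨S, hS⟩ : ∃ S : Finset (ι × ι), S = (C ×ˢ C).filter fun p => p.1 ≠ p.2 := ⟨_, rfl⟩
  have hSm : ∀ p, p ∈ S ↔ (p.1 ∈ C ∧ p.2 ∈ C) ∧ p.1 ≠ p.2 := by
    intro p; rw [hS, mem_filter, mem_product]
  have hsep : ∀ p ∈ S, k / (2 * L ^ 2) ≤ (G p).card := by
    intro p hp
    obtain ⟨⟨hp1, hp2⟩, hp3⟩ := (hSm p).1 hp
    have h2 : (ee p.1 i0, y p.1) + (ee p.2 i0, y p.2) ∈ Λ := Λ.add_mem (hR.mem _ hp1) (hR.mem _ hp2)
    have h3 : ((ee p.1 i0, y p.1) + (ee p.2 i0, y p.2) : VV ι) ≠ 0 := by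
      intro h'
      have h4 := congrFun (congrArg Prod.fst h') p.1
      rw [Prod.fst_add, Pi.add_apply] at h4
      simp only at h4
      rw [ee_left (hR.ne _ hp1), ee_of_ne hp3 (hR.ne _ hp1), add_zero] at h4
      exact one_ne_zero h4
    have h4 := hw _ h2 h3
    have h5 : wt ((ee p.1 i0, y p.1) + (ee p.2 i0, y p.2) : VV ι) ≤ 2 + (G p).card := by
      have h6 : (univ.filter fun q => ((ee p.1 i0, y p.1) + (ee p.2 i0, y p.2) : VV ι).1 q ≠ 0 ∨
          ((ee p.1 i0, y p.1) + (ee p.2 i0, y p.2) : VV ι).2 q ≠ 0) ⊆ {p.1, p.2} ∪ G p := by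
        intro q hq
        rw [mem_filter] at hq
        rw [mem_union, mem_insert, mem_singleton, hG]
        by_contra hcon
        push Not at hcon
        obtain ⟨⟨hq1, hq2⟩, hq3⟩ := hcon
        by_cases hs : Same Λ q i0
        · by_cases hq0 : q = i0
          · rcases hq.2 with h7 | h7
            · apply h7
              rw [Prod.fst_add, Pi.add_apply]
              simp only
              rw [hq0, ee_right (hR.ne _ hp1), ee_right (hR.ne _ hp2), z2_add]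
            · apply h7
              rw [Prod.snd_add, Pi.add_apply]
              simp only
              rw [hq0, hR.one' _ hp1, hR.one' _ hp2, z2_add]
          · rcases hq.2 with h7 | h7
            · apply h7
              rw [Prod.fst_add, Pi.add_apply]
              simp only
              rw [ee_of_ne hq1 hq0, ee_of_ne hq2 hq0, add_zero]
            · apply h7
              rw [Prod.snd_add, Pi.add_apply]
              simp only
              rw [p3 h (hR.ne _ hp1) (Ne.symm hq1) (Ne.symm hq0) (hR.same _ hp1) hs.symm'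
                (hR.mem _ hp1) (hR.one _ hp1) (hR.one' _ hp1),
                p3 h (hR.ne _ hp2) (Ne.symm hq2) (Ne.symm hq0) (hR.same _ hp2) hs.symm'
                (hR.mem _ hp2) (hR.one _ hp2) (hR.one' _ hp2), add_zero]
        · have h8 := hq3 hs
          have h9 : q ≠ i0 := by
            rintro rfl
            exact hs fun _ _ => rfl
          rcases hq.2 with h7 | h7
          · apply h7
            rw [Prod.fst_add, Pi.add_apply]
            simp only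
            rw [ee_of_ne hq1 h9, ee_of_ne hq2 h9, add_zero]
          · apply h7
            rw [Prod.snd_add, Pi.add_apply]
            simp only
            rw [h8, z2_add]
      have h7 := card_le_card h6
      have h8 := card_union_le {p.1, p.2} (G p)
      have h9 : ({p.1, p.2} : Finset ι).card ≤ 2 := card_le_two
      unfold wt
      omega
    have h6 : k ≤ L ^ 2 * (2 + (G p).card) := h4.trans (Nat.mul_le_mul_left _ h5)
    have h7 : k ≤ (2 * L ^ 2) * (G p).card := by nlinarith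
    exact Nat.div_le_of_le_mul h7
  have hScard : S.card ≤ k ^ 2 := by
    have h2 : S.card ≤ (C ×ˢ C).card := by
      rw [hS]; exact card_filter_le _ _
    rw [card_product] at h2
    have h3 : C.card ≤ k := by rw [hkk]; exact card_le_univ _
    nlinarith
  obtain ⟨c, hc⟩ := hit S G (k / (2 * L ^ 2)) (16 * L ^ 3) hsep (by
    rw [← hkk]
    exact lt_of_le_of_lt (Nat.mul_le_mul_right _ hScard) h1)
  obtain ⟨R, hRd⟩ : ∃ R, R = (univ.image c).filter fun q => ¬ Same Λ q i0 := ⟨_, rfl⟩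
  have hRc : R.card ≤ 16 * L ^ 3 := by
    rw [hRd]
    refine (card_filter_le _ _).trans (card_image_le.trans ?_)
    rw [card_univ, Fintype.card_fin]
  have h2 := class_le h hR (R := R) (fun b hb => by
    rw [hRd, mem_filter] at hb
    exact hb.2) (by
    intro i hi i' hi' hii
    obtain ⟨t, ht⟩ := hc (i, i') ((hSm _).2 ⟨⟨hi, hi'⟩, hii⟩)
    rw [hG] at ht
    exact ⟨c t, by rw [hRd, mem_filter]; exact ⟨mem_image_of_mem _ (mem_univ _), ht.1⟩, ht.2⟩)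
  have h3 := hbig R.card hRc
  have h4 : (2 * (R.card + 1) ^ 2) ^ Nat.card (KK Λ) ≤ (2 * (R.card + 1) ^ 2) ^ M :=
    Nat.pow_le_pow_right (by positivity) hM
  have h5 : M * (univ.filter fun q => kap Λ q = τ).card ≤ M * ((2 * (R.card + 1) ^ 2) ^ M + 1) := by
    apply Nat.mul_le_mul_left
    omega
  omega

end Pool.Agent.H93PR
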