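import Pool.Agent.H93PR.Basic

/-!
# Project PR, stub COMB: the pattern
-/

set_option autoImplicit false

namespace Pool.Agent.H93PR

open Finset Module

variable {ι : Type} [Fintype ι] [DecidableEq ι] {Λ : Submodule (ZMod 2) (VV ι)}

/-- the pattern with rows `(0, 1, 1)`, `(1, 0, 1)`, `(1, 1, 0)` -/
def MM (i j : Fin 3) : ZMod 2 := if i = j then 0 else 1

theorem MM_sum (j : Fin 3) : ∑ i, MM i j = 0 := by
  revert j; decide

theorem MM_prod (j j' : Fin 3) : (if j' = j then 1 else 0) + ∑ i, MM i j * MM i j' + 1 = 0 := by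
  revert j j'; decide

omit [Fintype ι] [DecidableEq ι] in
theorem Same.symm' {i j : ι} (h : Same Λ i j) : Same Λ j i := fun y hy => (h y hy).symm

omit [Fintype ι] [DecidableEq ι] in
theorem Same.trans' {i j l : ι} (h : Same Λ i j) (h' : Same Λ j l) : Same Λ i l :=
  fun y hy => (h y hy).trans (h' y hy)

theorem indep (h : Lag Λ) {i l : ι} (hne : ¬ Same Λ i l) : ∃ k ∈ KK Λ, k i = 0 ∧ k l = 1 := by
  unfold Same at hne
  push Not at hne
  obtain ⟨y, hy, hy1⟩ := hne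
  rcases z2 (y i) with h1 | h1
  · rw [h1] at hy1
    exact ⟨y, hy, h1, eq_one (Ne.symm hy1)⟩
  · have h2 : y l = 0 := by
      rcases z2 (y l) with h2 | h2
      · exact h2
      · exact absurd (h1.trans h2.symm) hy1
    obtain ⟨k, hk, hkl⟩ := p1 h l
    rcases z2 (k i) with h3 | h3
    · exact ⟨k, hk, h3, hkl⟩
    · refine ⟨y + k, (KK Λ).add_mem hy hk, ?_, ?_⟩
      · rw [Pi.add_apply, h1, h3]; decide
      · rw [Pi.add_apply, h2, hkl, zero_add]

theorem p4 (h : Lag Λ) {i0 l0 : ι} {r b : Fin 3 → ι} (hr : Function.Injective r)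
    (hr0 : ∀ j, r j ≠ i0) (hrs : ∀ j, Same Λ (r j) i0) (hb : Function.Injective b)
    (hb0 : ∀ j, b j ≠ l0) (hbs : ∀ j, Same Λ (b j) l0) (hne : ¬ Same Λ i0 l0)
    {y : Fin 3 → ι → ZMod 2} (hy : ∀ j, ((ee (r j) i0, y j) : VV ι) ∈ Λ)
    (hy1 : ∀ j, y j (r j) = 1) (hy2 : ∀ j, y j i0 = 1)
    (hM : ∀ i j, y i (b j) + y i l0 = MM i j) : False := by
  have h11 : (1 : ZMod 2) + 1 = 0 := by decide
  obtain ⟨k', hk', hk'0, hk'1⟩ := indep h hne
  obtain ⟨k'', hk'', hk''0, hk''1⟩ := indep h (fun h' => hne h'.symm')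
  -- normalisation
  obtain ⟨y', hy'⟩ : ∃ y' : Fin 3 → ι → ZMod 2, ∀ i, y' i = y i + y i l0 • k' :=
    ⟨fun i => y i + y i l0 • k', fun _ => rfl⟩
  have hyΛ : ∀ j, ((ee (r j) i0, y' j) : VV ι) ∈ Λ := by
    intro j
    have h3 := Λ.add_mem (hy j) (Λ.smul_mem (y j l0) (mem_KK.1 hk'))
    rw [Prod.smul_mk, smul_zero, Prod.mk_add_mk, add_zero] at h3
    rw [hy']
    exact h3
  have hyr : ∀ i j, y' i (r j) = y i (r j) := by
    intro i j
    rw [hy', Pi.add_apply, Pi.smul_apply, hrs j k' hk', hk'0, smul_zero, add_zero]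
  have hyi0 : ∀ i, y' i i0 = 1 := by
    intro i
    rw [hy', Pi.add_apply, Pi.smul_apply, hk'0, smul_zero, add_zero, hy2]
  have hyl0 : ∀ i, y' i l0 = 0 := by
    intro i
    rw [hy', Pi.add_apply, Pi.smul_apply, hk'1, smul_eq_mul, mul_one, z2_add]
  have hyb : ∀ i j, y' i (b j) = MM i j := by
    intro i j
    rw [hy', Pi.add_apply, Pi.smul_apply, hbs j k' hk', hk'1, smul_eq_mul, mul_one, hM]
  have hyrr : ∀ i j, y' i (r j) = if i = j then 1 else 0 := by
    intro i j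
    split_ifs with hij
    · rw [← hij, hyr, hy1]
    · exact p3 h (hr0 i) (fun h' => hij (hr h')) (hr0 j).symm (hrs i) (hrs j).symm' (hyΛ i)
        (by rw [hyr, hy1]) (hyi0 i)
  -- the vectors `v`
  have hv : ∀ j, ∃ z, ((ee (b j) l0, z) : VV ι) ∈ Λ ∧ z (b j) = 1 ∧ z l0 = 1 := fun j => p2 h (hbs j)
  choose z hz hzb hzl using hv
  have hzbb : ∀ j j', z j (b j') = if j' = j then 1 else 0 := by
    intro j j'
    split_ifs with hij
    · rw [hij, hzb]
    · exact p3 h (hb0 j) (fun h' => hij (hb h').symm) (hb0 j').symm (hbs j) (hbs j').symm' (hz j)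
        (hzb j) (hzl j)
  have hzr : ∀ j i, z j (r i) = z j i0 + MM i j := by
    intro j i
    have h3 := Lag.bil h.iso (hz j) (hyΛ i)
    rw [B_ee, hyb, hyl0, add_zero] at h3
    have h4 : z j (r i) + z j i0 = MM i j := by
      rw [← CharTwo.add_eq_zero, add_comm]; exact h3
    rw [← h4, add_comm (z j (r i)), ← add_assoc, z2_add, zero_add]
  -- the correction
  obtain ⟨kk, hkk⟩ : ∃ kk : Fin 3 → ι → ZMod 2, ∀ j, kk j = k' + z j i0 • k'' :=
    ⟨fun j => k' + z j i0 • k'', fun _ => rfl⟩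
  have hkK : ∀ j, kk j ∈ KK Λ := fun j => by
    rw [hkk]
    exact (KK Λ).add_mem hk' ((KK Λ).smul_mem _ hk'')
  have hki : ∀ j, kk j i0 = z j i0 := by
    intro j
    rw [hkk, Pi.add_apply, Pi.smul_apply, hk'0, hk''1, zero_add, smul_eq_mul, mul_one]
  have hkl : ∀ j, kk j l0 = 1 := by
    intro j
    rw [hkk, Pi.add_apply, Pi.smul_apply, hk'1, hk''0, smul_zero, add_zero]
  -- the vectors `Z`
  obtain ⟨Z, hZ⟩ : ∃ Z : Fin 3 → VV ι, ∀ j, Z j = (ee (b j) l0, z j) +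
      ∑ i, MM i j • ((ee (r i) i0, y' i) : VV ι) + (0, kk j) := ⟨_, fun _ => rfl⟩
  have hZΛ : ∀ j, Z j ∈ Λ := by
    intro j
    rw [hZ]
    exact Λ.add_mem (Λ.add_mem (hz j) (Λ.sum_mem fun i _ => Λ.smul_mem _ (hyΛ i))) (mem_KK.1 (hkK j))
  have hZ1 : ∀ j q, (Z j).1 q = ee (b j) l0 q + ∑ i, MM i j * ee (r i) i0 q := by
    intro j q
    rw [hZ]
    simp only [Prod.fst_add, Prod.fst_sum, Prod.smul_fst, Pi.add_apply, Finset.sum_apply,
      Pi.smul_apply, smul_eq_mul, Pi.zero_apply, add_zero]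
  have hZ2 : ∀ j q, (Z j).2 q = z j q + ∑ i, MM i j * y' i q + kk j q := by
    intro j q
    rw [hZ]
    simp only [Prod.snd_add, Prod.snd_sum, Prod.smul_snd, Pi.add_apply, Finset.sum_apply,
      Pi.smul_apply, smul_eq_mul]
  have hrb : ∀ i j, b j ≠ r i := by
    intro i j h'
    apply hne
    have h3 := hbs j
    rw [h'] at h3
    exact (hrs i).symm'.trans' h3
  have hib : ∀ j, b j ≠ i0 := by
    intro j h'
    apply hne
    have h3 := hbs j
    rw [h'] at h3
    exact h3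
  have hil : i0 ≠ l0 := by
    intro h'
    apply hne
    rw [h']
    exact fun _ _ => rfl
  have hlr : ∀ i, l0 ≠ r i := by
    intro i h'
    apply hne
    rw [h']
    exact (hrs i).symm'
  obtain ⟨I, hI⟩ : ∃ I : Finset ι, I = insert l0 (univ.image b ∪ univ.image r) := ⟨_, rfl⟩
  have hmI : ∀ q, q ∈ I ↔ q = l0 ∨ (∃ j, b j = q) ∨ ∃ i, r i = q := by
    intro q; rw [hI]; simp
  have hW : ∀ j, Z j ∈ W Λ I := by
    intro j
    refine mem_W.2 ⟨hZΛ j, fun q hq => ?_, fun q hq => ?_⟩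
    · rw [hZ2]
      rcases (hmI q).1 hq with rfl | ⟨j', rfl⟩ | ⟨i, rfl⟩
      · simp only [hyl0, mul_zero, sum_const_zero, add_zero, hzl, hkl, h11]
      · rw [hzbb, hbs j' _ (hkK j), hkl]
        simp only [hyb]
        exact MM_prod j j'
      · rw [hzr, hrs i _ (hkK j), hki]
        simp only [hyrr, mul_ite, mul_one, mul_zero, sum_ite_eq', mem_univ, if_true]
        rw [add_assoc (z j i0), z2_add, add_zero, z2_add]
    · rw [hZ1]
      rw [hmI] at hq
      push Not at hq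
      obtain ⟨hq1, hq2, hq3⟩ := hq
      rw [ee_of_ne (hq2 j).symm hq1, zero_add]
      by_cases hqi : q = i0
      · rw [hqi]
        simp only [ee_right (hr0 _), mul_one]
        exact MM_sum j
      · exact sum_eq_zero fun i _ => by rw [ee_of_ne (hq3 i).symm hqi, mul_zero]
  have hind : ∀ c : Fin 3 → ZMod 2, ∑ j, c j • (Z j).1 = 0 → c = 0 := by
    intro c hc
    funext t
    have h4 := congrFun hc (b t)
    rw [Finset.sum_apply, Finset.sum_eq_single t] at h4
    · rw [Pi.smul_apply, hZ1, ee_left (hb0 t)] at h4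
      simp only [ee_of_ne (hrb _ t) (hib t), mul_zero, sum_const_zero, add_zero, smul_eq_mul,
        mul_one, Pi.zero_apply] at h4
      exact h4
    · intro j _ hj
      rw [Pi.smul_apply, hZ1, ee_of_ne (fun h' => hj (hb h').symm) (hb0 t)]
      simp only [ee_of_ne (hrb _ t) (hib t), mul_zero, sum_const_zero, add_zero, smul_zero]
    · simp
  have h3 := W_ge (n := 3) (I := I) Z hW hind (Kv (Kv (KK Λ) i0) l0)
    (fun y hy => (mem_Kv.1 (mem_Kv.1 hy).1).1) (by
      intro y hy q hq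
      obtain ⟨hy1, hyl⟩ := mem_Kv.1 hy
      obtain ⟨hyK, hyi⟩ := mem_Kv.1 hy1
      rcases (hmI q).1 hq with rfl | ⟨j', rfl⟩ | ⟨i, rfl⟩
      · exact hyl
      · rw [hbs j' y hyK]; exact hyl
      · rw [hrs i y hyK]; exact hyi)
  have h4 := h.max I
  have h5 := card_Kv (KK Λ) i0
  have h6 := card_Kv (Kv (KK Λ) i0) l0
  have h7 := card_pos (Kv (Kv (KK Λ) i0) l0)
  omega

end Pool.Agent.H93PR
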