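import Mathlib

/-!
# Project PR: many primes `1` modulo `8` which are small compared with their number
-/

set_option autoImplicit false
set_option linter.all false

namespace Pool.Agent.H93PR

open Finset Filter
open scoped Classical

/-- the primes `1` modulo `8` larger than `M` -/
def TP (M n : ℕ) : Prop := n.Prime ∧ M < n ∧ n % 8 = 1

theorem tp_inf (M : ℕ) : {n : ℕ | TP M n}.Infinite := by
  rw [Set.infinite_iff_exists_gt]
  intro a
  obtain ⟨q, hq1, hq2, hq3⟩ := Nat.forall_exists_prime_gt_and_eq_mod (q := 8) (a := 1)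
    isUnit_one (M + a)
  have h8 : q % 8 = 1 := by
    have h : ((q : ℕ) : ZMod 8) = ((1 : ℕ) : ZMod 8) := by rw [hq3, Nat.cast_one]
    have := (ZMod.natCast_eq_natCast_iff' q 1 8).mp h
    simpa using this
  exact ⟨q, ⟨hq2, by omega, h8⟩, by omega⟩

theorem log_le {x : ℝ} (hx : 0 < x) : Real.log x / x ≤ 2 / x ^ (1 / 2 : ℝ) := by
  have h1 : Real.log x ≤ 2 * x ^ (1 / 2 : ℝ) := by
    have h2 := Real.add_one_le_exp (Real.log x / 2)
    have h3 : Real.exp (Real.log x / 2) = x ^ (1 / 2 : ℝ) := by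
      rw [Real.rpow_def_of_pos hx]
      congr 1
      ring
    rw [h3] at h2
    have h4 : 0 ≤ x ^ (1 / 2 : ℝ) := by positivity
    linarith
  have h5 : x = x ^ (1 / 2 : ℝ) * x ^ (1 / 2 : ℝ) := by
    rw [← Real.rpow_add hx]; norm_num
  have h6 : 0 < x ^ (1 / 2 : ℝ) := by positivity
  rw [div_le_div_iff₀ hx h6]
  calc Real.log x * x ^ (1 / 2 : ℝ) ≤ 2 * x ^ (1 / 2 : ℝ) * x ^ (1 / 2 : ℝ) :=
        mul_le_mul_of_nonneg_right h1 h6.le
    _ = 2 * x := by
        conv_rhs => rw [h5]
        ring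

theorem exists_primes3 (M r : ℕ) :
    ∃ S : Finset ℕ, r ≤ S.card ∧ ∀ q ∈ S, q.Prime ∧ M < q ∧ q % 8 = 1 ∧ q ≤ S.card ^ 3 := by
  by_contra hcon
  push Not at hcon
  obtain ⟨f, hf⟩ : ∃ f : ℕ → ℕ, f = Nat.nth (TP M) := ⟨_, rfl⟩
  have hinf := tp_inf M
  have hmono : StrictMono f := by rw [hf]; exact Nat.nth_strictMono hinf
  have hmem : ∀ n, TP M (f n) := fun n => by rw [hf]; exact Nat.nth_mem_of_infinite hinf n
  have hrange : Set.range f = {n : ℕ | TP M n} := by
    rw [hf]; exact Nat.range_nth_of_infinite hinf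
  -- `f n` is large
  have hlarge : ∀ n, r ≤ n + 1 → (n + 1) ^ 3 < f n := by
    intro n hn
    have hc : ((range (n + 1)).image f).card = n + 1 := by
      rw [card_image_of_injective _ hmono.injective, card_range]
    obtain ⟨q, hq, hq2⟩ := hcon ((range (n + 1)).image f) (by rw [hc]; exact hn)
    rw [mem_image] at hq
    obtain ⟨i, hi, rfl⟩ := hq
    obtain ⟨h1, h2, h3⟩ := hmem i
    have h4 := hq2 h1 h2 h3
    rw [hc] at h4
    rw [mem_range] at hi
    exact h4.trans_le (hmono.monotone (by omega))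
  -- convergence
  have hsum : Summable fun n : ℕ => Real.log (f n) / (f n : ℝ) := by
    have h1 : Summable fun n : ℕ => 2 / ((n + 1 : ℕ) : ℝ) ^ (3 / 2 : ℝ) := by
      have h2 : Summable fun n : ℕ => 1 / ((n : ℕ) : ℝ) ^ (3 / 2 : ℝ) :=
        Real.summable_one_div_nat_rpow.2 (by norm_num)
      have h3 := ((summable_nat_add_iff 1).2 h2).mul_left 2
      refine h3.congr fun n => ?_
      rw [mul_one_div]
    refine Summable.of_norm_bounded_eventually_nat h1 ?_
    filter_upwards [eventually_ge_atTop r] with n hn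
    have h2 := hlarge n (by omega)
    have h3 : (1 : ℝ) ≤ ((n + 1 : ℕ) : ℝ) := by exact_mod_cast Nat.le_add_left 1 n
    have h4 : (((n + 1 : ℕ) : ℝ)) ^ 3 ≤ (f n : ℝ) := by exact_mod_cast h2.le
    have h5 : (1 : ℝ) ≤ (f n : ℝ) := (one_le_pow₀ h3).trans h4
    rw [Real.norm_of_nonneg (div_nonneg (Real.log_nonneg h5) (by linarith))]
    refine (log_le (by linarith)).trans ?_
    apply div_le_div_of_nonneg_left (by norm_num) (by positivity)
    calc ((n + 1 : ℕ) : ℝ) ^ (3 / 2 : ℝ) = ((((n + 1 : ℕ) : ℝ)) ^ 3) ^ (1 / 2 : ℝ) := by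
          rw [← Real.rpow_natCast, ← Real.rpow_mul (by positivity)]
          norm_num
      _ ≤ (f n : ℝ) ^ (1 / 2 : ℝ) := Real.rpow_le_rpow (by positivity) h4 (by norm_num)
  have h1 : Summable fun n : ℕ => if TP M n then Real.log n / (n : ℝ) else 0 := by
    rw [← hmono.injective.summable_iff (f := fun n : ℕ => if TP M n then Real.log n / (n : ℝ) else 0)]
    · refine hsum.congr fun n => ?_
      rw [Function.comp_apply, if_pos (hmem n)]
    · intro n hn
      rw [hrange] at hn
      exact if_neg hn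
  apply ArithmeticFunction.vonMangoldt.not_summable_residueClass_prime_div (q := 8) (a := 1) isUnit_one
  refine (summable_congr_cofinite ?_).1 h1
  have h2 : ∀ᶠ n : ℕ in cofinite, M < n := by
    rw [Nat.cofinite_eq_atTop]
    exact eventually_gt_atTop M
  filter_upwards [h2] with n hn
  by_cases hp : n.Prime
  · rw [if_pos hp]
    unfold ArithmeticFunction.vonMangoldt.residueClass
    have h8 : n % 8 = 1 ↔ ((n : ℕ) : ZMod 8) = 1 := by
      have h3 := ZMod.natCast_eq_natCast_iff' n 1 8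
      rw [Nat.cast_one] at h3
      rw [h3]
    by_cases h3 : n % 8 = 1
    · rw [if_pos (show TP M n from ⟨hp, hn, h3⟩), Set.indicator_of_mem (by exact h8.1 h3),
        ArithmeticFunction.vonMangoldt_apply_prime hp]
    · have h4 : n ∉ {n : ℕ | ((n : ℕ) : ZMod 8) = 1} := fun h => h3 (h8.2 h)
      rw [if_neg (fun h : TP M n => h3 h.2.2), Set.indicator_of_notMem h4, zero_div]
  · rw [if_neg hp, if_neg (fun h : TP M n => hp h.1), zero_div]

end Pool.Agent.H93PR
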