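import Pool.Agent.H68K.PR.Fin8
import Pool.Agent.H68K.PR.Kum
import Pool.Agent.H93PR.Cst
import Pool.Agent.N713.QM.GFC
import Pool.Agent.N459.QM.FinC

/-!
# Project PR (helper93): the large families over `ℚ` in terms of integers, and the ranks
-/

set_option autoImplicit false

open NumberField IsDedekindDomain
open Pool.Agent.H68K.PR (pr2 HW Gd)
open Pool.Agent.N874.PP (sW)
open Pool.Agent.TH115.GD (Pt)

namespace Pool.Agent.H93PR.QR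

/-- pairs of integers as pairs in `𝓞 ℚ` -/
def io (c : ℤ × ℤ) : 𝓞 ℚ × 𝓞 ℚ := ((c.1 : 𝓞 ℚ), (c.2 : 𝓞 ℚ))

lemma cast_surj (x : 𝓞 ℚ) : ∃ n : ℤ, (n : 𝓞 ℚ) = x := by
  refine ⟨Rat.ringOfIntegersEquiv x, ?_⟩
  apply Rat.ringOfIntegersEquiv.injective
  rw [map_intCast, Int.cast_id]

lemma cast_inj {m n : ℤ} (h : (m : 𝓞 ℚ) = (n : 𝓞 ℚ)) : m = n := by
  have := congrArg Rat.ringOfIntegersEquiv h
  rwa [map_intCast, map_intCast, Int.cast_id, Int.cast_id] at this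

lemma io_inj : Function.Injective io := by
  rintro ⟨a, b⟩ ⟨a', b'⟩ h
  have h1 : (a : 𝓞 ℚ) = (a' : 𝓞 ℚ) := congrArg Prod.fst h
  have h2 : (b : 𝓞 ℚ) = (b' : 𝓞 ℚ) := congrArg Prod.snd h
  rw [cast_inj h1, cast_inj h2]

lemma io_surj (p : 𝓞 ℚ × 𝓞 ℚ) : ∃ c, io c = p := by
  obtain ⟨a, ha⟩ := cast_surj p.1
  obtain ⟨b, hb⟩ := cast_surj p.2
  exact ⟨(a, b), Prod.ext ha hb⟩

lemma dvd_iff {a b : ℤ} : (a : 𝓞 ℚ) ∣ (b : 𝓞 ℚ) ↔ a ∣ b := by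
  have h := map_dvd_iff Rat.ringOfIntegersEquiv (a := (a : 𝓞 ℚ)) (b := (b : 𝓞 ℚ))
  rw [← h, map_intCast, map_intCast, Int.cast_id, Int.cast_id]

/-- the prime ideal of a prime number -/
def Pq (q : ℕ) : Ideal (𝓞 ℚ) := Ideal.span {((q : ℤ) : 𝓞 ℚ)}

lemma mem_Pq {q n : ℕ} {x : ℤ} : (x : 𝓞 ℚ) ∈ Pq q ^ n ↔ (q : ℤ) ^ n ∣ x := by
  rw [Pq, Ideal.span_singleton_pow, Ideal.mem_span_singleton, ← Int.cast_pow, dvd_iff]

lemma mem_Pq1 {q : ℕ} {x : ℤ} : (x : 𝓞 ℚ) ∈ Pq q ↔ (q : ℤ) ∣ x := by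
  rw [Pq, Ideal.mem_span_singleton, dvd_iff]

lemma Pq_prime {q : ℕ} (hq : q.Prime) : (Pq q).IsPrime := by
  have h0 : (((q : ℤ)) : 𝓞 ℚ) ≠ 0 := by
    intro h
    have : ((q : ℤ)) = 0 := cast_inj (by rw [h, Int.cast_zero])
    exact hq.ne_zero (by exact_mod_cast this)
  rw [Pq, Ideal.span_singleton_prime h0, ← MulEquiv.prime_iff Rat.ringOfIntegersEquiv]
  have h1 : Rat.ringOfIntegersEquiv (((q : ℤ)) : 𝓞 ℚ) = (q : ℤ) := by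
    rw [map_intCast, Int.cast_id]
  rw [h1]
  exact Nat.prime_iff_prime_int.1 hq

lemma Pq_ne {q : ℕ} (hq : q.Prime) : Pq q ≠ ⊥ := by
  intro h
  rw [Pq, Ideal.span_singleton_eq_bot] at h
  have : ((q : ℤ)) = 0 := cast_inj (by rw [h, Int.cast_zero])
  exact hq.ne_zero (by exact_mod_cast this)

lemma exists_Pq {P : Ideal (𝓞 ℚ)} (hP : P.IsPrime) (h0 : P ≠ ⊥) : ∃ q : ℕ, q.Prime ∧ P = Pq q := by
  have hc : (P.comap (Int.castRingHom (𝓞 ℚ))).IsPrime := Ideal.comap_isPrime _ _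
  obtain ⟨g, hg⟩ := (IsPrincipalIdealRing.principal (P.comap (Int.castRingHom (𝓞 ℚ)))).principal
  have hmem : ∀ n : ℤ, (n : 𝓞 ℚ) ∈ P ↔ g ∣ n := by
    intro n
    have h1 : n ∈ P.comap (Int.castRingHom (𝓞 ℚ)) ↔ g ∣ n := by
      rw [hg]
      exact Ideal.mem_span_singleton
    rw [← h1, Ideal.mem_comap]
    rfl
  obtain ⟨x, hx, hx0⟩ := Submodule.exists_mem_ne_zero_of_ne_bot h0
  obtain ⟨n, rfl⟩ := cast_surj x
  have hn0 : n ≠ 0 := by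
    rintro rfl
    exact hx0 Int.cast_zero
  have hg0 : g ≠ 0 := by
    rintro rfl
    exact hn0 (zero_dvd_iff.1 ((hmem n).1 hx))
  have hgp : Prime g := by
    rw [hg] at hc
    exact (Ideal.span_singleton_prime hg0).1 hc
  refine ⟨g.natAbs, Int.prime_iff_natAbs_prime.1 hgp, ?_⟩
  ext y
  obtain ⟨m, rfl⟩ := cast_surj y
  rw [hmem, mem_Pq1, Int.natAbs_dvd]

lemma place_apply (v : InfinitePlace ℚ) (n : ℤ) : v (((n : 𝓞 ℚ) : ℚ)) = |(n : ℝ)| := by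
  have h : (((n : 𝓞 ℚ) : ℚ)) = (n : ℚ) := map_intCast (algebraMap (𝓞 ℚ) ℚ) n
  rw [h, Rat.infinitePlace_apply]
  push_cast
  rfl

lemma prod_place (r : ℝ) : ∏ v : InfinitePlace ℚ, r ^ v.mult = r := by
  rw [Finset.prod_pow_eq_pow_sum, InfinitePlace.sum_mult_eq, Module.finrank_self, pow_one]

/-- the height -/
def height (c : ℤ × ℤ) : ℕ := max (4 * c.1.natAbs ^ 3) (27 * c.2.natAbs ^ 2)

lemma pow_le_aux {a x y : ℝ} {n m : ℕ} (hn : n ≠ 0) (ha : 0 ≤ a) (hx : 0 ≤ x) (hy : 0 < y) (k : ℝ)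
    (hk : 0 < k) (hm : m = 12 / n) (hmn : m * n = 12) :
    x ≤ (k ^ (-(1 / (n : ℝ)))) * (y ^ ((1 : ℝ) / 12)) ^ m ↔ k * x ^ n ≤ y := by
  have h1 : 0 ≤ (k ^ (-(1 / (n : ℝ)))) * (y ^ ((1 : ℝ) / 12)) ^ m := by positivity
  rw [← pow_le_pow_iff_left₀ hx h1 hn, mul_pow, ← pow_mul, hmn, ← Real.rpow_natCast (k ^ _),
    ← Real.rpow_mul hk.le, ← Real.rpow_natCast (y ^ _), ← Real.rpow_mul hy.le]
  have h2 : -(1 / (n : ℝ)) * (n : ℝ) = -1 := by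
    have : (n : ℝ) ≠ 0 := by exact_mod_cast hn
    field_simp
  have h3 : (1 : ℝ) / 12 * ((12 : ℕ) : ℝ) = 1 := by norm_num
  rw [h2, h3, Real.rpow_one, Real.rpow_neg_one, ← div_eq_inv_mul, le_div_iff₀ hk, mul_comm]

lemma hw_iff {X : ℝ} (hX : 0 < X) (c : ℤ × ℤ) :
    HW (F := ℚ) (fun _ => (4 : ℝ) ^ (-(1 / ((3 : ℕ) : ℝ)))) (fun _ => (27 : ℝ) ^ (-(1 / ((2 : ℕ) : ℝ))))
      (fun _ => X ^ ((1 : ℝ) / 12)) 1 (io c) ↔ (height c : ℝ) ≤ X := by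
  have e1 := pow_le_aux (a := 1) (x := |(c.1 : ℝ)|) (y := X) (n := 3) (m := 4) (by norm_num)
    (by norm_num) (abs_nonneg _) hX 4 (by norm_num) rfl rfl
  have e2 := pow_le_aux (a := 1) (x := |(c.2 : ℝ)|) (y := X) (n := 2) (m := 6) (by norm_num)
    (by norm_num) (abs_nonneg _) hX 27 (by norm_num) rfl rfl
  have e3 : (height c : ℝ) ≤ X ↔ 4 * |(c.1 : ℝ)| ^ 3 ≤ X ∧ 27 * |(c.2 : ℝ)| ^ 2 ≤ X := by
    rw [height, Nat.cast_max, max_le_iff]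
    push_cast
    rw [Nat.cast_natAbs, Nat.cast_natAbs]
    push_cast
    rfl
  rw [e3, ← e1, ← e2]
  constructor
  · intro h
    have h1 := h (Rat.infinitePlace)
    rw [io, place_apply, place_apply] at h1
    simpa using h1
  · intro h v
    rw [io, place_apply, place_apply]
    simpa using h

lemma ncard_io {X : ℝ} (hX : 0 < X) (P : 𝓞 ℚ × 𝓞 ℚ → Prop) :
    {p : 𝓞 ℚ × 𝓞 ℚ | HW (F := ℚ) (fun _ => (4 : ℝ) ^ (-(1 / ((3 : ℕ) : ℝ))))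
      (fun _ => (27 : ℝ) ^ (-(1 / ((2 : ℕ) : ℝ)))) (fun _ => X ^ ((1 : ℝ) / 12)) 1 p ∧ P p}.ncard =
      {c : ℤ × ℤ | (height c : ℝ) ≤ X ∧ P (io c)}.ncard := by
  rw [← Set.ncard_image_of_injective _ io_inj]
  congr 1
  ext p
  constructor
  · rintro ⟨h1, h2⟩
    obtain ⟨c, rfl⟩ := io_surj p
    exact ⟨c, ⟨(hw_iff hX c).1 h1, h2⟩, rfl⟩
  · rintro ⟨c, ⟨h1, h2⟩, rfl⟩
    exact ⟨(hw_iff hX c).2 h1, h2⟩

lemma height_finite (X : ℝ) : {c : ℤ × ℤ | (height c : ℝ) ≤ X}.Finite := by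
  refine ((Set.finite_Icc (-(⌈X⌉₊ : ℤ)) ⌈X⌉₊).prod (Set.finite_Icc (-(⌈X⌉₊ : ℤ)) ⌈X⌉₊)).subset ?_
  rintro ⟨a, b⟩ h
  have h1 : height (a, b) ≤ ⌈X⌉₊ := by
    have : ((height (a, b) : ℕ) : ℝ) ≤ (⌈X⌉₊ : ℝ) := le_trans h (Nat.le_ceil X)
    exact_mod_cast this
  have h2 := (max_le_iff.1 h1)
  have h3 : a.natAbs ≤ ⌈X⌉₊ := le_trans (le_trans (Nat.le_self_pow (by norm_num) _)
    (Nat.le_mul_of_pos_left _ (by norm_num))) h2.1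
  have h4 : b.natAbs ≤ ⌈X⌉₊ := le_trans (le_trans (Nat.le_self_pow (by norm_num) _)
    (Nat.le_mul_of_pos_left _ (by norm_num))) h2.2
  refine ⟨⟨?_, ?_⟩, ⟨?_, ?_⟩⟩ <;> simp only <;> omega

end Pool.Agent.H93PR.QR
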