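import Pool.Agent.H93PR.QR

/-!
# Project PR (helper93): the large families over `ℚ` in terms of integers, and the ranks, II
-/

set_option autoImplicit false

open NumberField IsDedekindDomain
open Pool.Agent.H68K.PR (pr2 HW Gd)
open Pool.Agent.N783.PF (sp)
open Pool.Agent.N874.PP (sW)
open Pool.Agent.TH115.GD (Pt)

namespace Pool.Agent.H93PR.QR

/-- `4 a ^ 3 + 27 b ^ 2` -/
def dsc (c : ℤ × ℤ) : ℤ := 4 * c.1 ^ 3 + 27 * c.2 ^ 2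

lemma dsc_io (c : ℤ × ℤ) : 4 * (io c).1 ^ 3 + 27 * (io c).2 ^ 2 = ((dsc c : ℤ) : 𝓞 ℚ) := by
  unfold dsc io
  push_cast
  ring

/-- the family -/
def Fm (M : ℕ) (R : Set (ℤ × ℤ)) : Set (ℤ × ℤ) :=
  {c | c ∈ R ∧ dsc c ≠ 0 ∧ ∀ q : ℕ, q.Prime → ¬ q ∣ M → ¬ (q : ℤ) ^ 2 ∣ dsc c}

lemma cast_ne {n : ℤ} : (n : 𝓞 ℚ) ≠ 0 ↔ n ≠ 0 := by
  rw [not_iff_not]
  constructor
  · intro h
    exact cast_inj (by rw [h, Int.cast_zero])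
  · rintro rfl
    exact Int.cast_zero

lemma fm_iff {M : ℕ} (hM : 0 < M) (R : Set (𝓞 ℚ × 𝓞 ℚ)) (c : ℤ × ℤ) :
    (io c ∈ {p : 𝓞 ℚ × 𝓞 ℚ | p ∈ R ∧ ∀ 𝔭 : Ideal (𝓞 ℚ), 𝔭.IsPrime → (M : 𝓞 ℚ) ∉ 𝔭 →
      4 * p.1 ^ 3 + 27 * p.2 ^ 2 ∉ 𝔭 ^ 2}) ↔ c ∈ Fm M {c | io c ∈ R} := by
  have hMc : ∀ q : ℕ, ((M : 𝓞 ℚ) ∈ Pq q ↔ q ∣ M) := by
    intro q
    have h1 : (M : 𝓞 ℚ) = ((M : ℤ) : 𝓞 ℚ) := by push_cast; rfl
    rw [h1, mem_Pq1]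
    exact Int.natCast_dvd_natCast
  constructor
  · rintro ⟨h1, h2⟩
    refine ⟨h1, ?_, ?_⟩
    · have h3 := h2 ⊥ Ideal.isPrime_bot (by
        rw [Ideal.mem_bot]
        have : ((M : ℤ) : 𝓞 ℚ) ≠ 0 := cast_ne.2 (by exact_mod_cast hM.ne')
        exact_mod_cast this)
      intro h0
      apply h3
      rw [dsc_io, h0, Int.cast_zero]
      exact zero_mem _
    · intro q hq hqM
      have h3 := h2 (Pq q) (Pq_prime hq) (by rw [hMc]; exact hqM)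
      rwa [dsc_io, mem_Pq] at h3
  · rintro ⟨h1, h2, h3⟩
    refine ⟨h1, fun P hP hMP => ?_⟩
    rw [dsc_io]
    by_cases h0 : P = ⊥
    · subst h0
      intro h4
      have h5 := Ideal.pow_le_self two_ne_zero h4
      rw [Ideal.mem_bot] at h5
      exact cast_ne.2 h2 h5
    · obtain ⟨q, hq, rfl⟩ := exists_Pq hP h0
      rw [mem_Pq]
      rw [hMc] at hMP
      exact h3 q hq hMP

theorem fam (ε : ℝ) (hε : 0 < ε) : ∃ (M : ℕ) (R : Set (ℤ × ℤ)), 0 < M ∧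
    (∀ c c' : ℤ × ℤ, c ∈ R → (M : ℤ) ∣ c'.1 - c.1 → (M : ℤ) ∣ c'.2 - c.2 → c' ∈ R) ∧
    (∀ c ∈ Fm M R, ∀ q : ℕ, q.Prime → ¬ ((q : ℤ) ^ 4 ∣ c.1 ∧ (q : ℤ) ^ 6 ∣ c.2)) ∧
    ∃ (δ X₀ : ℝ), 0 < δ ∧ 0 < X₀ ∧ ∀ X : ℝ, X₀ ≤ X →
    0 < {c : ℤ × ℤ | (height c : ℝ) ≤ X ∧ dsc c ≠ 0}.ncard ∧
    δ * ({c : ℤ × ℤ | (height c : ℝ) ≤ X ∧ dsc c ≠ 0}.ncard : ℝ) ≤
      ({c : ℤ × ℤ | (height c : ℝ) ≤ X ∧ c ∈ Fm M R}.ncard : ℝ) ∧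
    ∀ K : Set ℕ, |({c : ℤ × ℤ | (height c : ℝ) ≤ X ∧ c ∈ Fm M R ∧ ∃ k ∈ K, Gd (2 ^ k) (io c)}.ncard : ℝ) -
        (∑' k : K, pr2 k) * ({c : ℤ × ℤ | (height c : ℝ) ≤ X ∧ c ∈ Fm M R}.ncard : ℝ)| ≤
      ε * ({c : ℤ × ℤ | (height c : ℝ) ≤ X ∧ c ∈ Fm M R}.ncard : ℝ) := by
  obtain ⟨M, R, hM, hR, h⟩ := Pool.Agent.H68K.PR.fin7T ℚ
    (fun _ => (4 : ℝ) ^ (-(1 / ((3 : ℕ) : ℝ)))) (fun _ => (27 : ℝ) ^ (-(1 / ((2 : ℕ) : ℝ))))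
    (fun _ => ⟨by positivity, by positivity⟩) ε hε
  obtain ⟨G, hG⟩ : ∃ G : Set (𝓞 ℚ × 𝓞 ℚ), G = {p | p ∈ R ∧ ∀ 𝔭 : Ideal (𝓞 ℚ), 𝔭.IsPrime →
    (M : 𝓞 ℚ) ∉ 𝔭 → 4 * p.1 ^ 3 + 27 * p.2 ^ 2 ∉ 𝔭 ^ 2} := ⟨_, rfl⟩
  obtain ⟨hmin, δ, L₀, hδ, h⟩ := h G hG
  have hfm : ∀ c, io c ∈ G ↔ c ∈ Fm M {c | io c ∈ R} := by
    intro c
    rw [hG]
    exact fm_iff hM R c
  refine ⟨M, {c | io c ∈ R}, hM, ?_, ?_, δ, max 1 (max L₀ 1 ^ 12), hδ,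
    lt_of_lt_of_le one_pos (le_max_left _ _), ?_⟩
  · intro c c' hc h1 h2
    refine hR (io c) (io c') hc ?_ ?_
    · have : (io c').1 - (io c).1 = ((c'.1 - c.1 : ℤ) : 𝓞 ℚ) := by
        unfold io
        push_cast
        rfl
      rw [this, sp, Ideal.mem_span_singleton]
      have h3 : (M : 𝓞 ℚ) = ((M : ℤ) : 𝓞 ℚ) := by push_cast; rfl
      rw [h3, dvd_iff]
      exact h1
    · have : (io c').2 - (io c).2 = ((c'.2 - c.2 : ℤ) : 𝓞 ℚ) := by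
        unfold io
        push_cast
        rfl
      rw [this, sp, Ideal.mem_span_singleton]
      have h3 : (M : 𝓞 ℚ) = ((M : ℤ) : 𝓞 ℚ) := by push_cast; rfl
      rw [h3, dvd_iff]
      exact h2
  · intro c hc q hq
    have h1 := hmin (io c) ((hfm c).2 hc) (Pq q) (Pq_prime hq) (Pq_ne hq)
    have e1 : (io c).1 = (c.1 : 𝓞 ℚ) := rfl
    have e2 : (io c).2 = (c.2 : 𝓞 ℚ) := rfl
    rwa [e1, e2, mem_Pq, mem_Pq] at h1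
  · intro X hX
    have hX1 : 1 ≤ X := (le_max_left _ _).trans hX
    have hX0 : 0 < X := by linarith
    have hr : 0 < X ^ ((1 : ℝ) / 12) := by positivity
    obtain ⟨-, h2⟩ := h (fun _ => X ^ ((1 : ℝ) / 12)) (fun _ => hr)
    have h3 := h2 (by
      rw [prod_place]
      have h4 : max L₀ 1 ^ 12 ≤ X := (le_max_right _ _).trans hX
      have h5 : (0 : ℝ) ≤ max L₀ 1 := zero_le_one.trans (le_max_right _ _)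
      have h6 : max L₀ 1 ≤ X ^ ((1 : ℝ) / 12) := by
        have e : max L₀ 1 = (max L₀ 1 ^ 12) ^ ((1 : ℝ) / 12) := by
          rw [← Real.rpow_natCast, ← Real.rpow_mul h5]
          norm_num
        rw [e]
        exact Real.rpow_le_rpow (by positivity) h4 (by norm_num)
      exact (le_max_left _ _).trans h6)
    obtain ⟨h4, h5, h6⟩ := h3
    rw [ncard_io hX0 (fun p => 4 * p.1 ^ 3 + 27 * p.2 ^ 2 ≠ 0)] at h4 h5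
    rw [ncard_io hX0 (fun p => p ∈ G)] at h5
    simp only [dsc_io, cast_ne, hfm] at h4 h5
    refine ⟨h4, h5, fun K => ?_⟩
    have h7 := h6 K
    rw [ncard_io hX0 (fun p => p ∈ G ∧ ∃ k ∈ K, Gd (2 ^ k) p), ncard_io hX0 (fun p => p ∈ G)] at h7
    simp only [hfm] at h7
    exact h7

section rank

/-- the elliptic curve `y² = x³ + A x + B` over `ℚ`, where `c = (A, B)` -/
def E (c : ℤ × ℤ) : WeierstrassCurve ℚ := ⟨0, 0, 0, (c.1 : ℚ), (c.2 : ℚ)⟩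

lemma base_eq (c : ℤ × ℤ) : (sW (((io c).1 : 𝓞 ℚ) : ℚ) (((io c).2 : 𝓞 ℚ) : ℚ)).baseChange ℚ = E c := by
  have h : ∀ n : ℤ, (((n : 𝓞 ℚ) : ℚ)) = (n : ℚ) := fun n => map_intCast (algebraMap (𝓞 ℚ) ℚ) n
  unfold sW E io WeierstrassCurve.baseChange WeierstrassCurve.map
  simp [h]

end rank

end Pool.Agent.H93PR.QR
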